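import Pool.Agent.RET.Defs
import Pool.Agent.REL.Rl
import Pool.Agent.REL.Can
/-!
# RET, row N1: normal forms
-/
namespace Pool.Agent.RET
open Pool.Agent.SLX Pool.Agent.REL

section
variable {G ι : Type} [Group G] {P : ι → Subgroup G} {A : Set G}

private theorem n1_rl_eq_one (L : PLen P A) {i : ι} {s : G} (hs : s ∈ P i) (h : s ≠ 1) :
    rl P A s = 1 := by
  have h1 : rl P A s ≤ 1 := rl_letter (Or.inr ⟨i, hs⟩)
  have h2 : rl P A s ≠ 0 := fun h2 => h (rl_zero L h2)
  omega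

private theorem n1_short (D : Nd P A) {h : G} (hne : h ≠ 1) (hf : ¬ Far D h) :
    ∃ s, rl P A s = 1 ∧ D.L.l s ≤ D.B ∧ rl P A (h * s⁻¹) + 1 = rl P A h := by
  have h0 : rl P A h ≠ 0 := fun h0 => hne (rl_zero D.L h0)
  obtain ⟨m, hm⟩ : ∃ m, rl P A h = m + 1 := ⟨rl P A h - 1, by omega⟩
  obtain ⟨s, hs, hsm⟩ := rl_pred D.L hm
  by_cases hl : D.L.l s ≤ D.B
  · exact ⟨s, hs, hl, by rw [hsm, hm]⟩
  · push Not at hl
    obtain ⟨i, hi⟩ := long_letter D.L hs (lt_of_le_of_lt D.h1 hl)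
    have hmin : Minc P A i (h * s⁻¹) := by
      refine minc_of_step D.L hi ?_
      rw [inv_mul_cancel_right, hsm, hm]
    obtain ⟨p, ⟨hp, hpc⟩, -⟩ := D.can_unique i (h * s⁻¹)
    have hpm := D.can_minc _ _ hpc
    have e1 : h * (p⁻¹ * s)⁻¹ = h * s⁻¹ * p := by group
    have hs' : p⁻¹ * s ∈ P i := mul_mem (inv_mem hp) hi
    have hrl : rl P A (h * (p⁻¹ * s)⁻¹) = m := by
      rw [e1]
      have h1 := hmin p hp
      have h2 := hpm p⁻¹ (inv_mem hp)
      rw [mul_inv_cancel_right] at h2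
      omega
    refine ⟨p⁻¹ * s, ?_, ?_, by rw [hrl, hm]⟩
    · refine n1_rl_eq_one D.L hs' ?_
      intro h1
      rw [h1, inv_one, mul_one] at hrl
      omega
    · by_contra h1
      push Not at h1
      exact hf ⟨i, p⁻¹ * s, hs', h1, by rw [e1]; exact hpc⟩

private theorem n1_long (D : Nd P A) {h s t : G} {i j : ι} (hs1 : rl P A s = 1)
    (ht1 : rl P A t = 1) (hs : rl P A h = rl P A (h * s⁻¹) + 1)
    (ht : rl P A h = rl P A (h * t⁻¹) + 1) (hi : s ∈ P i) (hj : t ∈ P j)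
    (hsl : D.B < D.L.l s) (htl : D.B < D.L.l t) (hsc : D.can i (h * s⁻¹))
    (htc : D.can j (h * t⁻¹)) : s = t := by
  obtain ⟨x, hx0, hx1, hx2, hx⟩ := exists_rgeo_through D.L (h * s⁻¹) s (by
    rw [inv_mul_cancel_right, hs1]
    exact hs)
  obtain ⟨y, hy0, hy1, hy2, hy⟩ := exists_rgeo_through D.L (h * t⁻¹) t (by
    rw [inv_mul_cancel_right, ht1]
    exact ht)
  rw [inv_mul_cancel_right] at hx2 hy2
  have hm : rl P A (h * s⁻¹) = rl P A (h * t⁻¹) := by omega
  have e0 : D.L.l ((x (rl P A (h * s⁻¹) + rl P A s))⁻¹ * y (rl P A (h * t⁻¹) + rl P A t)) ≤ 0 := by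
    rw [hx2, hy2, inv_mul_cancel, D.L.one]
  have e1 : (x (rl P A (h * s⁻¹)))⁻¹ * x (rl P A (h * s⁻¹) + 1) = s := by
    rw [hx1]
    rw [hs1] at hx2
    rw [hx2]
    group
  have key := D.h0 _ _ x y hx hy hx0 hy0 e0 i (rl P A (h * s⁻¹)) (by rw [hs1]; omega)
    (by rw [e1]; exact hi) (by rw [e1]; exact hsl)
  obtain ⟨-, k1, k2, -⟩ := key
  rw [hm, hy1] at k1
  rw [ht1] at hy2
  rw [hy2] at k1
  have e2 : (h * t⁻¹)⁻¹ * h = t := by group
  rw [e2] at k1
  have hij : i = j := long_unique D.L k1 hj (lt_of_le_of_lt D.hδ htl)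
  subst hij
  rw [hx1, hm, hy1] at k2
  have e3 : (h * s⁻¹)⁻¹ * (h * t⁻¹) = s * t⁻¹ := by group
  rw [e3] at k2
  have hu := D.can_unique i (h * s⁻¹)
  have h1 := hu.unique (y₁ := 1) (y₂ := s * t⁻¹) ⟨one_mem _, by rw [mul_one]; exact hsc⟩
    ⟨k2, by
      have e4 : h * s⁻¹ * (s * t⁻¹) = h * t⁻¹ := by group
      rw [e4]
      exact htc⟩
  exact (mul_inv_eq_one.1 h1.symm)

theorem step_pred (D : Nd P A) {h : G} (hne : h ≠ 1) : ∃! s, Step D (h * s⁻¹) s := by
  have hex : ∃ s, Step D (h * s⁻¹) s := by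
    by_cases hf : Far D h
    · obtain ⟨i, p, hp, hl, hc⟩ := hf
      refine ⟨p, ?_, ?_, Or.inl ⟨i, hp, hl, hc⟩⟩
      · refine n1_rl_eq_one D.L hp ?_
        intro h1
        rw [h1, D.L.one] at hl
        omega
      · exact minc_step D.L D.hE hp (D.can_minc _ _ hc) (lt_of_le_of_lt D.hEB hl)
    · obtain ⟨s0, hs0⟩ := n1_short D hne hf
      let S : Set G := {s | rl P A s = 1 ∧ D.L.l s ≤ D.B ∧ rl P A (h * s⁻¹) + 1 = rl P A h}
      obtain ⟨s, hs, hmin⟩ := (InvImage.wf D.ord Nat.lt_wfRel.wf).has_min S ⟨s0, hs0⟩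
      obtain ⟨hs1, hs2, hs3⟩ := hs
      refine ⟨s, hs1, by rw [inv_mul_cancel_right]; omega, Or.inr ⟨hs2, ?_, ?_⟩⟩
      · rw [inv_mul_cancel_right]
        exact hf
      · intro t ht1 ht2 ht3
        rw [inv_mul_cancel_right] at ht3
        exact not_lt.1 (hmin t ⟨ht1, ht2, ht3⟩)
  obtain ⟨s, hs⟩ := hex
  refine ⟨s, hs, ?_⟩
  intro t ht
  obtain ⟨hs1, hs2, hs3⟩ := hs
  obtain ⟨ht1, ht2, ht3⟩ := ht
  rw [inv_mul_cancel_right] at hs2 ht2 hs3 ht3
  rcases hs3 with ⟨i, hi, hsl, hsc⟩ | ⟨hsl, hsf, hso⟩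
  · rcases ht3 with ⟨j, hj, htl, htc⟩ | ⟨htl, htf, hto⟩
    · exact (n1_long D hs1 ht1 hs2 ht2 hi hj hsl htl hsc htc).symm
    · exact absurd ⟨i, s, hi, hsl, hsc⟩ htf
  · rcases ht3 with ⟨j, hj, htl, htc⟩ | ⟨htl, htf, hto⟩
    · exact absurd ⟨j, t, hj, htl, htc⟩ hsf
    · have h1 := hso t ht1 htl (by omega)
      have h2 := hto s hs1 hsl (by omega)
      exact D.ord_inj t s (le_antisymm h2 h1)

theorem vd_append (D : Nd P A) (g : G) (w w' : List G) :
    Vd D g (w ++ w') ↔ Vd D g w ∧ Vd D (g * w.prod) w' := by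
  induction w generalizing g with
  | nil => simp [Vd]
  | cons s w ih =>
    show Step D g s ∧ Vd D (g * s) (w ++ w') ↔ (Step D g s ∧ Vd D (g * s) w) ∧ _
    rw [ih, List.prod_cons, mul_assoc, and_assoc]

theorem vd_rl (D : Nd P A) {g : G} {w : List G} (h : Vd D g w) :
    rl P A (g * w.prod) = rl P A g + w.length ∧ rl P A w.prod = w.length := by
  have h1 : ∀ (w : List G) (g : G), Vd D g w → rl P A (g * w.prod) = rl P A g + w.length ∧
      rl P A w.prod ≤ w.length := by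
    intro w
    induction w with
    | nil =>
      intro g _
      rw [List.prod_nil, mul_one, List.length_nil, rl_one]
      exact ⟨rfl, le_rfl⟩
    | cons s w ih =>
      rintro g ⟨hs, hw⟩
      obtain ⟨e1, e2⟩ := ih (g * s) hw
      rw [List.prod_cons, List.length_cons]
      constructor
      · rw [← mul_assoc, e1, hs.2.1]
        omega
      · have e3 := rl_mul D.L s w.prod
        rw [hs.1] at e3
        omega
  obtain ⟨e1, e2⟩ := h1 w g h
  refine ⟨e1, ?_⟩
  have e3 := rl_mul D.L g w.prod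
  omega

theorem nf_exists (D : Nd P A) (g : G) : ∃ w, Vd D 1 w ∧ w.prod = g := by
  induction hn : rl P A g generalizing g with
  | zero =>
    refine ⟨[], trivial, ?_⟩
    rw [rl_zero D.L hn]
    rfl
  | succ n ih =>
    have hne : g ≠ 1 := by
      rintro rfl
      rw [rl_one] at hn
      omega
    obtain ⟨s, hs, -⟩ := step_pred D hne
    have h1 : rl P A (g * s⁻¹) = n := by
      have h2 := hs.2.1
      rw [inv_mul_cancel_right] at h2
      omega
    obtain ⟨w, hw, hwp⟩ := ih (g * s⁻¹) h1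
    refine ⟨w ++ [s], ?_, ?_⟩
    · rw [vd_append, one_mul, hwp]
      exact ⟨hw, hs, trivial⟩
    · rw [List.prod_append, hwp, List.prod_singleton, inv_mul_cancel_right]

theorem nf_unique (D : Nd P A) {w w' : List G} (h : Vd D 1 w) (h' : Vd D 1 w')
    (he : w.prod = w'.prod) : w = w' := by
  induction hn : w.length generalizing w w' with
  | zero =>
    have h1 := (vd_rl D h).2
    have h2 := (vd_rl D h').2
    rw [← he, h1, hn] at h2
    rw [List.eq_nil_of_length_eq_zero hn, List.eq_nil_of_length_eq_zero h2.symm]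
  | succ n ih =>
    have h1 := (vd_rl D h).2
    have h2 := (vd_rl D h').2
    rw [← he, h1, hn] at h2
    obtain ⟨v, s, rfl⟩ := List.eq_nil_or_concat' w |>.resolve_left (by
      rintro rfl
      simp at hn)
    obtain ⟨v', s', rfl⟩ := List.eq_nil_or_concat' w' |>.resolve_left (by
      rintro rfl
      simp at h2)
    rw [vd_append, one_mul] at h h'
    rw [List.prod_append, List.prod_append, List.prod_singleton, List.prod_singleton] at he
    have hne : v.prod * s ≠ 1 := by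
      intro h3
      rw [List.prod_append, List.prod_singleton, h3, rl_one, List.length_append,
        List.length_singleton] at h1
      omega
    obtain ⟨t, -, ht⟩ := step_pred D hne
    have e1 : s = t := ht s (by
      show Step D (v.prod * s * s⁻¹) s
      rw [mul_inv_cancel_right]
      exact h.2.1)
    have e2 : s' = t := ht s' (by
      show Step D (v.prod * s * s'⁻¹) s'
      rw [he, mul_inv_cancel_right]
      exact h'.2.1)
    have e3 : s = s' := e1.trans e2.symm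
    subst e3
    have e4 := mul_right_cancel he
    rw [List.length_append, List.length_singleton] at hn
    rw [ih h.1 h'.1 e4 (by omega)]

end

end Pool.Agent.RET
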