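import Pool.Agent.RET.Defs
import Pool.Agent.RET.Nf
import Pool.Agent.REL.Rl
import Pool.Agent.REL.Can
/-!
# RET, row Q1: companions
-/
namespace Pool.Agent.RET
open Pool.Agent.SLX Pool.Agent.REL

section
variable {G ι : Type} [Group G] {P : ι → Subgroup G} {A : Set G}

theorem comp_inv (D : Nd P A) (N : ℕ) {x y : G} (h : Comp D N x y) : (x = 1 ∧ y = 1) ∨
    ∃ g h s t, x = g * s ∧ y = h * t ∧ Comp D N g h ∧ Step D g s ∧ Step D h t ∧
      D.L.l (x⁻¹ * y) ≤ N := by
  cases h with
  | one => exact Or.inl ⟨rfl, rfl⟩
  | @step g h s t hc hs ht hl => exact Or.inr ⟨g, h, s, t, rfl, rfl, hc, hs, ht, hl⟩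

theorem comp_rl (D : Nd P A) (N : ℕ) {x y : G} (h : Comp D N x y) :
    rl P A x = rl P A y ∧ D.L.l (x⁻¹ * y) ≤ N := by
  induction h with
  | one =>
    refine ⟨rfl, ?_⟩
    rw [inv_one, one_mul, D.L.one]
    exact Nat.zero_le N
  | @step g h s t hc hs ht hl ih =>
    refine ⟨?_, hl⟩
    have h1 := hs.2.1
    have h2 := ht.2.1
    have h3 := ih.1
    omega

private theorem q1_letter (D : Nd P A) : ∀ (w : List G) (g : G), Vd D g w → ∀ s ∈ w,
    Letter P A s := by
  intro w
  induction w with
  | nil =>
    intro g _ s hs
    exact absurd hs List.not_mem_nil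
  | cons a w ih =>
    intro g hw s hs
    rcases List.mem_cons.1 hs with h | h
    · subst h
      exact letter_of_rl D.L hw.1.1
    · exact ih (g * a) hw.2 s h

private theorem q1_take (w : List G) (j : ℕ) (hj : j < w.length) :
    (w.take (j + 1)).prod = (w.take j).prod * w[j] := by
  rw [← List.take_concat_get' w j hj, List.prod_append, List.prod_singleton]

private theorem q1_rgeo (D : Nd P A) {w : List G} (hw : Vd D 1 w) :
    RGeo P A w.length (fun j => (w.take j).prod) := by
  refine rgeo_of D.L ?_ ?_
  · intro j hj
    show Letter P A (((w.take j).prod)⁻¹ * (w.take (j + 1)).prod)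
    rw [q1_take w j hj, inv_mul_cancel_left]
    exact q1_letter D w 1 hw _ (List.getElem_mem hj)
  · show rl P A (((w.take 0).prod)⁻¹ * (w.take w.length).prod) = w.length
    rw [List.take_zero, List.prod_nil, inv_one, one_mul, List.take_length]
    exact (vd_rl D hw).2

private theorem q1_comp (D : Nd P A) (N : ℕ) (w : List G) : ∀ w' : List G, Vd D 1 w →
    Vd D 1 w' → w.length = w'.length →
    (∀ j, j ≤ w.length → D.L.l (((w.take j).prod)⁻¹ * (w'.take j).prod) ≤ N) →
    Comp D N w.prod w'.prod := by
  induction w using List.reverseRecOn with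
  | nil =>
    intro w' _ _ hlen _
    have h0 : w' = [] := List.eq_nil_of_length_eq_zero hlen.symm
    rw [h0, List.prod_nil]
    exact Comp.one
  | append_singleton w s ih =>
    intro w' hw hw' hlen hN
    rcases List.eq_nil_or_concat w' with h0 | ⟨u, t, h0⟩
    · rw [h0] at hlen
      simp at hlen
    · subst h0
      rw [List.concat_eq_append] at hw' hlen hN ⊢
      have hl : w.length = u.length := by
        simp only [List.length_append, List.length_singleton] at hlen
        omega
      obtain ⟨a1, a2⟩ := (vd_append D 1 w [s]).1 hw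
      obtain ⟨b1, b2⟩ := (vd_append D 1 u [t]).1 hw'
      rw [one_mul] at a2 b2
      have hc := ih u a1 b1 hl (fun j hj => by
        have h1 := hN j (by
          simp only [List.length_append, List.length_singleton]
          omega)
        rw [List.take_append_of_le_length hj,
          List.take_append_of_le_length (by omega)] at h1
        exact h1)
      have h2 := hN (w ++ [s]).length (le_refl _)
      rw [List.take_length] at h2
      have h3 : (u ++ [t]).take (w ++ [s]).length = u ++ [t] := by
        rw [hlen]
        exact List.take_length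
      rw [h3] at h2
      rw [List.prod_append, List.prod_append, List.prod_singleton, List.prod_singleton] at h2 ⊢
      exact Comp.step hc a2.1 b2.1 h2

private theorem q1_refl (D : Nd P A) (N : ℕ) (g : G) : Comp D N g g := by
  obtain ⟨w, hw, he⟩ := nf_exists D g
  have h := q1_comp D N w w hw hw rfl (fun j _ => by
    rw [inv_mul_cancel, D.L.one]
    exact Nat.zero_le N)
  rw [he] at h
  exact h

/-- The entry points of a coset are companions of each other. -/
theorem comp_entry (O : Od P A) {i : ι} {g p : G} (hg : Minc P A i g) (hp : p ∈ P i)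
    (h : rl P A (g * p) = rl P A g) : Comp O.toNd O.N1 g (g * p) := by
  obtain ⟨w, hw, he⟩ := nf_exists O.toNd g
  obtain ⟨w', hw', he'⟩ := nf_exists O.toNd (g * p)
  have h1 := (vd_rl O.toNd hw).2
  have h2 := (vd_rl O.toNd hw').2
  rw [he] at h1
  rw [he'] at h2
  have hlen : w.length = w'.length := by omega
  have hr := q1_rgeo O.toNd hw
  have hr' := q1_rgeo O.toNd hw'
  rw [← hlen] at hr'
  have hS := O.hS w.length _ _ hr hr' (by simp) (by simp) (by
    show O.L.l (((w.take w.length).prod)⁻¹ * (w'.take w.length).prod) ≤ O.NE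
    rw [List.take_length, hlen, List.take_length, he, he', inv_mul_cancel_left]
    exact O.hE i g p hp hg h)
  have h3 := q1_comp O.toNd O.N1 w w' hw hw' hlen hS
  rw [he, he'] at h3
  exact h3

private theorem q1_long (D : Nd P A) {i : ι} {g s : G} (hs : s ∈ P i) (hl : D.B < D.L.l s)
    (hc : D.can i g) : Step D g s := by
  refine ⟨?_, minc_step D.L D.hE hs (D.can_minc i g hc) (lt_of_le_of_lt D.hEB hl),
    Or.inl ⟨i, hs, hl, hc⟩⟩
  have h1 : rl P A s ≤ 1 := rl_letter (Or.inr ⟨i, hs⟩)
  have h2 : rl P A s ≠ 0 := by
    intro h0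
    rw [rl_zero D.L h0, D.L.one] at hl
    omega
  omega

/-- The companions of the end of a long letter. -/
theorem comp_long (O : Od P A) {i : ι} {g s : G} (hs : s ∈ P i) (hl : O.B + 2 * O.N1 < O.L.l s)
    (hc : O.can i g) (c : G) :
    Comp O.toNd O.N1 (g * s) (g * s * c) ↔ c ∈ P i ∧ O.L.l c ≤ O.N1 := by
  have hst : Step O.toNd g s := q1_long O.toNd hs (by omega) hc
  have hne : g * s ≠ 1 := by
    intro h0
    have h1 := hst.2.1
    rw [h0, rl_one] at h1
    omega
  constructor
  · intro hcomp
    rcases comp_inv O.toNd O.N1 hcomp with h0 | ⟨g1, h, s1, t, e1, e2, hc1, hs1, ht, hle⟩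
    · exact absurd h0.1 hne
    · have hu := step_pred O.toNd hne
      have hss : s1 = s := by
        refine hu.unique ?_ ?_
        · show Step O.toNd (g * s * s1⁻¹) s1
          rw [e1, mul_inv_cancel_right]
          exact hs1
        · show Step O.toNd (g * s * s⁻¹) s
          rw [mul_inv_cancel_right]
          exact hst
      subst hss
      have hgg : g1 = g := (mul_right_cancel e1).symm
      subst hgg
      have hlc : O.L.l c ≤ O.N1 := by
        rw [inv_mul_cancel_left] at hle
        exact hle
      refine ⟨?_, hlc⟩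
      obtain ⟨w, hw, he⟩ := nf_exists O.toNd g1
      obtain ⟨w', hw', he'⟩ := nf_exists O.toNd h
      have hlen : w.length = w'.length := by
        have h1 := (vd_rl O.toNd hw).2
        have h2 := (vd_rl O.toNd hw').2
        have h3 := (comp_rl O.toNd O.N1 hc1).1
        rw [he] at h1
        rw [he'] at h2
        omega
      have hW : Vd O.toNd 1 (w ++ [s1]) := by
        rw [vd_append, one_mul, he]
        exact ⟨hw, hs1, trivial⟩
      have hW' : Vd O.toNd 1 (w' ++ [t]) := by
        rw [vd_append, one_mul, he']
        exact ⟨hw', ht, trivial⟩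
      have hr := q1_rgeo O.toNd hW
      have hr' := q1_rgeo O.toNd hW'
      have p1 : (w ++ [s1]).take w.length = w := by simp
      have p2 : (w ++ [s1]).take (w.length + 1) = w ++ [s1] :=
        List.take_of_length_le (by simp)
      have p3 : (w' ++ [t]).take w.length = w' := by
        rw [hlen]
        simp
      have p4 : (w' ++ [t]).take (w.length + 1) = w' ++ [t] :=
        List.take_of_length_le (by simp [hlen])
      have q1 : (w ++ [s1]).prod = g1 * s1 := by
        rw [List.prod_append, List.prod_singleton, he]
      have q2 : (w' ++ [t]).prod = h * t := by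
        rw [List.prod_append, List.prod_singleton, he']
      have hpen := O.hB _ _ _ _ hr hr' (by simp) (by simp) (by
        show O.L.l ((((w ++ [s1]).take (w ++ [s1]).length).prod)⁻¹ *
          ((w' ++ [t]).take (w' ++ [t]).length).prod) ≤ O.N1
        rw [List.take_length, List.take_length, q1, q2, ← e2]
        exact hle) i w.length (by simp) (by
        show (((w ++ [s1]).take w.length).prod)⁻¹ * ((w ++ [s1]).take (w.length + 1)).prod ∈ P i
        rw [p1, p2, q1, he, inv_mul_cancel_left]
        exact hs) (by
        show O.B < O.L.l ((((w ++ [s1]).take w.length).prod)⁻¹ *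
          ((w ++ [s1]).take (w.length + 1)).prod)
        rw [p1, p2, q1, he, inv_mul_cancel_left]
        omega)
      obtain ⟨-, k1, k2, -⟩ := hpen
      have k1' : (((w' ++ [t]).take w.length).prod)⁻¹ *
          ((w' ++ [t]).take (w.length + 1)).prod ∈ P i := k1
      have k2' : (((w ++ [s1]).take w.length).prod)⁻¹ *
          ((w' ++ [t]).take w.length).prod ∈ P i := k2
      rw [p3, p4, q2, he', inv_mul_cancel_left] at k1'
      rw [p1, p3, he, he'] at k2'
      have hce : c = s1⁻¹ * (g1⁻¹ * h) * t := by
        have : h * t = g1 * s1 * c := e2.symm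
        calc c = (g1 * s1)⁻¹ * (g1 * s1 * c) := by group
          _ = (g1 * s1)⁻¹ * (h * t) := by rw [this]
          _ = _ := by group
      rw [hce]
      exact (P i).mul_mem ((P i).mul_mem ((P i).inv_mem hs) k2') k1'
  · rintro ⟨hcP, hcl⟩
    have hsc : s * c ∈ P i := (P i).mul_mem hs hcP
    have hlsc : O.B < O.L.l (s * c) := by
      have h1 := O.L.mul (s * c) c⁻¹
      rw [mul_inv_cancel_right, O.L.inv] at h1
      omega
    have hst' : Step O.toNd g (s * c) := q1_long O.toNd hsc hlsc hc
    have h2 := Comp.step (q1_refl O.toNd O.N1 g) hst hst' (by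
      have : (g * s)⁻¹ * (g * (s * c)) = c := by group
      rw [this]
      exact hcl)
    rw [mul_assoc]
    exact h2

end

end Pool.Agent.RET
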