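import Pool.Agent.RET.Tsf
import Pool.Agent.RET.Comp
/-!
# Canonical points are determined by the state
-/
namespace Pool.Agent.RET
open Pool.Agent.SLX Pool.Agent.REL

section
variable {G ι : Type} [Group G] {P : ι → Subgroup G} {A : Set G}

theorem can_st (O : Od P A) {T T2 : ℕ} (hT : TstF O.L O.NE T) (h1 : O.NE ≤ T2) (h2 : T ≤ T2)
    {g g' : G} (hL : Loc O.L T2 g g') (hst : St O g g') (i : ι) (hg : Minc P A i g) (c : G)
    (hc : c ∈ P i) (h : O.can i (g * c)) : O.can i (g' * c) := by
  have hg' : Minc P A i g' := minc_loc O.L O.hE hT h2 hL i hg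
  have hgc : Minc P A i (g * c) := O.can_minc i _ h
  have e1 : rl P A (g * c) = rl P A g := by
    apply le_antisymm
    · have := hgc c⁻¹ ((P i).inv_mem hc)
      rwa [mul_inv_cancel_right] at this
    · exact hg c hc
  have lc : O.L.l c ≤ O.NE := O.hE i g c hc hg e1
  have e2 : rl P A (g' * c) = rl P A g' := by
    have := hL c (lc.trans h1)
    omega
  have hgc' : Minc P A i (g' * c) := by
    intro p hp
    rw [e2, mul_assoc]
    exact hg' (c * p) ((P i).mul_mem hc hp)
  rw [O.can_iff]
  refine ⟨hgc', fun p hp hr hlt => ?_⟩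
  have hcp : c * p ∈ P i := (P i).mul_mem hc hp
  have e3 : rl P A (g' * (c * p)) = rl P A g' := by
    rw [← mul_assoc, hr, e2]
  have lcp : O.L.l (c * p) ≤ O.NE := O.hE i g' (c * p) hcp hg' e3
  have e4 : rl P A (g * (c * p)) = rl P A g := by
    have := hL (c * p) (lcp.trans h1)
    omega
  have k1 : Comp O.toNd O.N1 g (g * (c * p)) := comp_entry O hg hcp e4
  have k2 : Comp O.toNd O.N1 g (g * c) := comp_entry O hg hc e1
  have k3 := hst.2 (c * p) c k1 k2
  have hlt' : O.lt (g' * (c * p)) (g' * c) := by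
    rwa [← mul_assoc]
  have k4 := k3.2 hlt'
  rw [← mul_assoc] at k4
  have e5 : rl P A (g * c * p) = rl P A (g * c) := by
    rw [mul_assoc, e4, e1]
  exact ((O.can_iff i (g * c)).1 h).2 p hp e5 k4

end

end Pool.Agent.RET
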