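import Pool.Agent.RET.Defs
import Pool.Agent.SLA.Uni
/-!
# The comparison of the representatives of two neighbours is regular
-/
namespace Pool.Agent.RET
open Pool.Agent.SLX Pool.Agent.SLA Pool.Agent.REL

private theorem L2_lex_left {A : Type} [LinearOrder A] (x : List A) {r z : List A}
    (h : List.Lex (· < ·) r z) : List.Lex (· < ·) (x ++ r) (x ++ z) := by
  induction x with
  | nil => exact h
  | cons a x ih => exact List.Lex.cons ih

/-- comparison of strings whose first parts have the same length -/
private theorem L2_sl_iff {B : Type} (r : B → ℕ) {p q z z' : List B} (h : p.length = q.length) :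
    Sl r (p ++ z) (q ++ z') ↔ z.length < z'.length ∨ (z.length = z'.length ∧
      (Sl r p q ∨ (p.map r = q.map r ∧ List.Lex (· < ·) (z.map r) (z'.map r)))) := by
  have hm : (p.map r).length = (q.map r).length := by
    rw [List.length_map, List.length_map, h]
  constructor
  · rintro (h1 | ⟨h1, h2⟩)
    · left
      rw [List.length_append, List.length_append] at h1
      omega
    · right
      rw [List.length_append, List.length_append] at h1
      refine ⟨by omega, ?_⟩
      rw [List.map_append, List.map_append] at h2
      rcases lex_append_cases hm h2 with h3 | ⟨h3, h4⟩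
      · exact Or.inl (Or.inr ⟨h, h3⟩)
      · exact Or.inr ⟨h3, h4⟩
  · rintro (h1 | ⟨h1, h2⟩)
    · left
      rw [List.length_append, List.length_append]
      omega
    · right
      rw [List.length_append, List.length_append]
      refine ⟨by omega, ?_⟩
      rw [List.map_append, List.map_append]
      rcases h2 with (h3 | ⟨_, h3⟩) | ⟨h3, h4⟩
      · exact absurd h3 (by rw [h]; exact lt_irrefl _)
      · exact lex_append_both hm h3 _ _
      · rw [h3]
        exact L2_lex_left _ h4

/-- the comparison depends only on the data of the first parts -/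
private theorem L2_sl_trans {B : Type} (r : B → ℕ) {t t' : ℕ} {p q p' q' z z' : List B}
    (hp : p.length ≤ t) (hq : q.length ≤ t) (hp' : p'.length ≤ t') (hq' : q'.length ≤ t')
    (hz : p.length < t → z = []) (hz' : q.length < t → z' = [])
    (e1 : (p.length < t) = (p'.length < t')) (e2 : (q.length < t) = (q'.length < t'))
    (e3 : Sl r p q = Sl r p' q') (e4 : (p.map r = q.map r) = (p'.map r = q'.map r))
    (h : Sl r (p ++ z) (q ++ z')) : Sl r (p' ++ z) (q' ++ z') := by
  by_cases h1 : p.length < t
  · have h1' : p'.length < t' := by rw [← e1]; exact h1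
    have hz1 := hz h1
    subst hz1
    by_cases h2 : q.length < t
    · have hz2 := hz' h2
      subst hz2
      rw [List.append_nil, List.append_nil] at h ⊢
      rw [← e3]
      exact h
    · have h2' : ¬ q'.length < t' := by rw [← e2]; exact h2
      left
      rw [List.length_append, List.length_append, List.length_nil]
      omega
  · have h1' : ¬ p'.length < t' := by rw [← e1]; exact h1
    by_cases h2 : q.length < t
    · have hz2 := hz' h2
      subst hz2
      exfalso
      rcases h with h3 | ⟨h3, _⟩
      · rw [List.length_append, List.length_append, List.length_nil] at h3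
        omega
      · rw [List.length_append, List.length_append, List.length_nil] at h3
        omega
    · have h2' : ¬ q'.length < t' := by rw [← e2]; exact h2
      have l1 : p.length = q.length := by omega
      have l2 : p'.length = q'.length := by omega
      rw [L2_sl_iff r l1] at h
      rw [L2_sl_iff r l2, ← e3, ← e4]
      exact h

private theorem L2_val_append {A G : Type} [Group G] (π : A → G) (u v : List A) :
    val π (u ++ v) = val π u * val π v := by
  simp [val]

/-! L2 (Cmp.lean): the comparison of the representatives of `u c` and `u c'` is regular -/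
theorem cmp_regular {B G : Type} [Finite B] [Group G] (ψ : B → G) (Lg : Language B)
    (hreg : Lg.IsRegular)
    (ft : ∀ h : G, ∃ F : Set G, F.Finite ∧ ∀ u ∈ Lg, ∀ v ∈ Lg, val ψ u * h = val ψ v →
      ∀ t, (val ψ (u.take t))⁻¹ * val ψ (v.take t) ∈ F) (r : B → ℕ) (c c' : G) :
    Language.IsRegular {u | u ∈ Lg ∧ ∃ v ∈ Lg, ∃ v' ∈ Lg, val ψ u * c = val ψ v ∧
      val ψ u * c' = val ψ v' ∧ Sl r v v'} := by
  classical
  obtain ⟨F, hF, hFF⟩ := ft c
  obtain ⟨F', hF', hFF'⟩ := ft c'
  have hfin := hreg.finite_range_leftQuotient
  set T : List B → Set (G × G × Language B × Language B × Prop × Prop × Prop × Prop) := fun x =>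
    {τ | ∃ w w' : List B, w.length ≤ x.length ∧ w'.length ≤ x.length ∧
      (val ψ x)⁻¹ * val ψ w ∈ F ∧ (val ψ x)⁻¹ * val ψ w' ∈ F' ∧
      τ = ((val ψ x)⁻¹ * val ψ w, (val ψ x)⁻¹ * val ψ w', Lg.leftQuotient w,
        Lg.leftQuotient w', w.length < x.length, w'.length < x.length, Sl r w w',
        w.map r = w'.map r)} with hT
  set K : Set (G × G × Language B × Language B × Prop × Prop × Prop × Prop) :=
    F ×ˢ F' ×ˢ (Set.range Lg.leftQuotient) ×ˢ (Set.range Lg.leftQuotient) ×ˢ
      (Set.univ : Set (Prop × Prop × Prop × Prop)) with hK
  have hKfin : K.Finite := hF.prod (hF'.prod (hfin.prod (hfin.prod (Set.toFinite _))))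
  refine regular_of_data (S := Language B ×
      Set (G × G × Language B × Language B × Prop × Prop × Prop × Prop)) _
    (fun x => (Lg.leftQuotient x, T x)) ((Set.range Lg.leftQuotient) ×ˢ (𝒫 K))
    (hfin.prod hKfin.powerset) ?_ ?_
  · intro x y _
    refine Set.mk_mem_prod ⟨x, rfl⟩ ?_
    rintro τ ⟨w, w', _, _, h3, h4, rfl⟩
    exact ⟨h3, h4, ⟨w, rfl⟩, ⟨w', rfl⟩, trivial⟩
  · intro x x' hd y hy
    have d1 : Lg.leftQuotient x = Lg.leftQuotient x' := congrArg Prod.fst hd
    have d2 : T x = T x' := congrArg Prod.snd hd
    obtain ⟨hxy, v, hv, v', hv', e1, e2, hsl⟩ := hy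
    have hx1 : (x ++ y).take x.length = x := List.take_left
    have m1 : (val ψ x)⁻¹ * val ψ (v.take x.length) ∈ F := by
      have := hFF _ hxy v hv e1 x.length
      rw [hx1] at this
      exact this
    have m2 : (val ψ x)⁻¹ * val ψ (v'.take x.length) ∈ F' := by
      have := hFF' _ hxy v' hv' e2 x.length
      rw [hx1] at this
      exact this
    have hmem : ((val ψ x)⁻¹ * val ψ (v.take x.length), (val ψ x)⁻¹ * val ψ (v'.take x.length),
        Lg.leftQuotient (v.take x.length), Lg.leftQuotient (v'.take x.length),
        (v.take x.length).length < x.length, (v'.take x.length).length < x.length,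
        Sl r (v.take x.length) (v'.take x.length),
        (v.take x.length).map r = (v'.take x.length).map r) ∈ T x :=
      ⟨v.take x.length, v'.take x.length, by rw [List.length_take]; exact min_le_left _ _,
        by rw [List.length_take]; exact min_le_left _ _, m1, m2, rfl⟩
    rw [d2] at hmem
    obtain ⟨w, w', l1, l2, _, _, he⟩ := hmem
    rw [Prod.mk.injEq, Prod.mk.injEq, Prod.mk.injEq, Prod.mk.injEq, Prod.mk.injEq,
      Prod.mk.injEq, Prod.mk.injEq] at he
    obtain ⟨f1, f2, f3, f4, f5, f6, f7, f8⟩ := he
    have q1 : v.take x.length ++ v.drop x.length = v := List.take_append_drop _ _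
    have q2 : v'.take x.length ++ v'.drop x.length = v' := List.take_append_drop _ _
    refine ⟨?_, w ++ v.drop x.length, ?_, w' ++ v'.drop x.length, ?_, ?_, ?_, ?_⟩
    · have h1 : y ∈ Lg.leftQuotient x := hxy
      rw [d1] at h1
      exact h1
    · have h1 : v.drop x.length ∈ Lg.leftQuotient (v.take x.length) := by
        show v.take x.length ++ v.drop x.length ∈ Lg
        rw [q1]
        exact hv
      rw [f3] at h1
      exact h1
    · have h1 : v'.drop x.length ∈ Lg.leftQuotient (v'.take x.length) := by
        show v'.take x.length ++ v'.drop x.length ∈ Lg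
        rw [q2]
        exact hv'
      rw [f4] at h1
      exact h1
    · have h1 : val ψ y * c = (val ψ x)⁻¹ * val ψ (v.take x.length) *
          val ψ (v.drop x.length) := by
        rw [mul_assoc, ← L2_val_append, q1, ← e1, L2_val_append, mul_assoc,
          inv_mul_cancel_left]
      rw [L2_val_append, L2_val_append, mul_assoc, h1, f1, mul_assoc, mul_inv_cancel_left]
    · have h1 : val ψ y * c' = (val ψ x)⁻¹ * val ψ (v'.take x.length) *
          val ψ (v'.drop x.length) := by
        rw [mul_assoc, ← L2_val_append, q2, ← e2, L2_val_append, mul_assoc,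
          inv_mul_cancel_left]
      rw [L2_val_append, L2_val_append, mul_assoc, h1, f2, mul_assoc, mul_inv_cancel_left]
    · refine L2_sl_trans r (t := x.length) (t' := x'.length) (p := v.take x.length)
        (q := v'.take x.length) ?_ ?_ l1 l2 ?_ ?_ f5 f6 f7 f8 ?_
      · rw [List.length_take]
        exact min_le_left _ _
      · rw [List.length_take]
        exact min_le_left _ _
      · intro h
        rw [List.length_take] at h
        exact List.drop_eq_nil_of_le (by omega)
      · intro h
        rw [List.length_take] at h
        exact List.drop_eq_nil_of_le (by omega)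
      · rw [q1, q2]
        exact hsl

end Pool.Agent.RET
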