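import Pool.Agent.RET.Defs
import Pool.Agent.REL.Chain
/-!
# Far from a peripheral subgroup the projection moves slowly
-/
namespace Pool.Agent.RET
open Pool.Agent.SLX Pool.Agent.REL

section
variable {G ι : Type} [Group G] {P : ι → Subgroup G} {A : Set G}

theorem contract (L : PLen P A) (i : ι) (r : G → G) (c : ℕ) (h1 : ∀ x, r x ∈ P i)
    (h2 : ∀ x, L.l (x⁻¹ * r x) ≤ L.β i x + c) (M : ℕ) :
    ∃ c0 : ℕ, ∀ K : ℕ, ∃ R : ℕ, ∀ (m : ℕ) (x : ℕ → G), m ≤ K →
      (∀ t, t < m → L.l ((x t)⁻¹ * x (t + 1)) ≤ M) →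
      (∀ t, t ≤ m → R < L.l ((x t)⁻¹ * r (x t))) →
      L.l ((r (x 0))⁻¹ * r (x m)) ≤ c0 := by
  obtain ⟨D, hD⟩ : ∃ D : G → G → ℤ,
      ∀ x y, D x y = (L.l (x⁻¹ * y) : ℤ) - L.β i x - L.β i y :=
    ⟨fun x y => (L.l (x⁻¹ * y) : ℤ) - L.β i x - L.β i y, fun _ _ => rfl⟩
  have hsym : ∀ x y : G, L.l (x⁻¹ * y) = L.l (y⁻¹ * x) := by
    intro x y
    rw [← L.inv (x⁻¹ * y), mul_inv_rev, inv_inv]
  have hDs : ∀ x y, D x y = D y x := by
    intro x y
    rw [hD, hD, hsym x y]
    ring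
  have hDh : ∀ x z y, D x y ≤ max (D x z) (D z y) + L.δ := by
    intro x z y
    have h := L.β_hyp i x y z
    rw [hsym y z] at h
    have e1 := hD x y
    have e2 := hD x z
    have e3 := hD z y
    rcases le_total (L.l (x⁻¹ * z) + L.β i y) (L.l (z⁻¹ * y) + L.β i x) with h3 | h3
    · rw [max_eq_right h3] at h
      have h4 := le_max_right (D x z) (D z y)
      omega
    · rw [max_eq_left h3] at h
      have h4 := le_max_left (D x z) (D z y)
      omega
  refine ⟨max c M + 4 * L.δ, fun K => ⟨c + L.δ * K, fun m x hmK hst hfar => ?_⟩⟩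
  rcases Nat.eq_zero_or_pos m with h0 | h0
  · subst h0
    rw [inv_mul_cancel, L.one]
    exact Nat.zero_le _
  have hβ : ∀ t, t ≤ m → L.δ * K < L.β i (x t) := by
    intro t ht
    have h3 := hfar t ht
    have h4 := h2 (x t)
    omega
  obtain ⟨j, _, hj2, hj3⟩ := chain_max (fun a b => D (x a) (x b)) L.δ
    (fun a b e => hDh (x a) (x b) (x e)) K 0 m h0
    (by
      have := Nat.lt_two_pow_self (n := K)
      omega)
  have h5 : D (x 0) (x m) ≤ M := by
    have h6 := hst j hj2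
    have h7 := hβ j hj2.le
    have h8 := hβ (j + 1) hj2
    have h9 := hD (x j) (x (j + 1))
    have h10 : ((L.δ * K : ℕ) : ℤ) = (L.δ : ℤ) * K := by push_cast; rfl
    rw [← h10] at hj3
    omega
  have hr : ∀ y, D (r y) y ≤ c := by
    intro y
    have h6 := hD (r y) y
    have h7 := h2 y
    rw [hsym y (r y)] at h7
    omega
  have h6 : D (x 0) (r (x m)) ≤ (max c M : ℕ) + L.δ := by
    have h7 := hDh (x 0) (x m) (r (x m))
    have h8 := hr (x m)
    rw [hDs] at h8
    have h9 : max (D (x 0) (x m)) (D (x m) (r (x m))) ≤ ((max c M : ℕ) : ℤ) := by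
      apply max_le
      · exact le_trans h5 (by exact_mod_cast le_max_right c M)
      · exact le_trans h8 (by exact_mod_cast le_max_left c M)
    linarith
  have h7 : D (r (x 0)) (r (x m)) ≤ (max c M : ℕ) + 2 * L.δ := by
    have h8 := hDh (r (x 0)) (x 0) (r (x m))
    have h9 : max (D (r (x 0)) (x 0)) (D (x 0) (r (x m))) ≤ ((max c M : ℕ) : ℤ) + L.δ := by
      apply max_le
      · refine le_trans (hr (x 0)) (le_trans (b := ((max c M : ℕ) : ℤ)) ?_ ?_)
        · exact_mod_cast le_max_left c M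
        · have : (0 : ℤ) ≤ L.δ := Int.natCast_nonneg _
          linarith
      · exact h6
    linarith
  have h8 := hD (r (x 0)) (r (x m))
  have h9 := L.β_on i _ (h1 (x 0))
  have h10 := L.β_on i _ (h1 (x m))
  omega

end

end Pool.Agent.RET
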