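import Mathlib
import Pool.Agent.SLX.Defs
import Pool.Agent.REL.Defs
/-!
# Relatively hyperbolic groups, peripheral subgroups with torsion: definitions
-/
namespace Pool.Agent.RET
open Pool.Agent.SLX Pool.Agent.REL

section
variable {G ι : Type} [Group G] {P : ι → Subgroup G} {A : Set G}

/-- Test elements: each `P i` is contained in the ball of radius `T` or has an element of length in
`(N, T]`. -/
def TstF (L : PLen P A) (N T : ℕ) : Prop :=
  ∀ i, (∀ p ∈ P i, L.l p ≤ T) ∨ ∃ p ∈ P i, N < L.l p ∧ L.l p ≤ T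

/-- Relative geodesics which start at `1` and have the same number of steps and ends at distance at
most `M` are at distance at most `N` all the time. -/
def SyncB (L : PLen P A) (M N : ℕ) : Prop :=
  ∀ (k : ℕ) (x y : ℕ → G), RGeo P A k x → RGeo P A k y → x 0 = 1 → y 0 = 1 →
    L.l ((x k)⁻¹ * y k) ≤ M → ∀ j, j ≤ k → L.l ((x j)⁻¹ * y j) ≤ N

end

/-- The data for the normal forms; `can i g`: the element `g` is the canonical entry point of its
coset `g (P i)`. -/
structure Nd {G ι : Type} [Group G] (P : ι → Subgroup G) (A : Set G) where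
  L : PLen P A
  can : ι → G → Prop
  can_minc : ∀ i g, can i g → Minc P A i g
  can_unique : ∀ i g, ∃! p, p ∈ P i ∧ can i (g * p)
  NE : ℕ
  hE : EntryB L NE
  B : ℕ
  hEB : NE ≤ B
  h0 : PenB L 0 B
  hδ : 2 * L.δ ≤ B
  h1 : 1 ≤ B
  ord : G → ℕ
  ord_inj : ∀ s t, ord s = ord t → s = t

section
variable {G ι : Type} [Group G] {P : ι → Subgroup G} {A : Set G}

/-- `h` is far from the canonical entry point of one of its cosets. -/
def Far (D : Nd P A) (h : G) : Prop :=
  ∃ (i : ι) (p : G), p ∈ P i ∧ D.B < D.L.l p ∧ D.can i (h * p⁻¹)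

/-- The letter `s` leads from `g` to `g * s` in the normal form of `g * s`. -/
def Step (D : Nd P A) (g s : G) : Prop :=
  rl P A s = 1 ∧ rl P A (g * s) = rl P A g + 1 ∧
    ((∃ i, s ∈ P i ∧ D.B < D.L.l s ∧ D.can i g) ∨
     (D.L.l s ≤ D.B ∧ ¬ Far D (g * s) ∧ ∀ t, rl P A t = 1 → D.L.l t ≤ D.B →
       rl P A (g * s * t⁻¹) + 1 = rl P A (g * s) → D.ord s ≤ D.ord t))

/-- The word `w` of letters can be continued from `g` as a normal form. -/
def Vd (D : Nd P A) : G → List G → Prop
  | _, [] => True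
  | g, s :: w => Step D g s ∧ Vd D (g * s) w

/-- The normal forms of `g` and `h` have the same number of steps and stay at distance at most `N`
all the time. -/
inductive Comp (D : Nd P A) (N : ℕ) : G → G → Prop
  | one : Comp D N 1 1
  | step {g h s t : G} (hc : Comp D N g h) (hs : Step D g s) (ht : Step D h t)
      (hl : D.L.l ((g * s)⁻¹ * (h * t)) ≤ N) : Comp D N (g * s) (h * t)

end

/-- Normal forms with an order on the elements of the same relative length: the order of the normal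
forms, read from the left. The canonical entry point of a coset is the smallest one. -/
structure Od {G ι : Type} [Group G] (P : ι → Subgroup G) (A : Set G) extends Nd P A where
  lt : G → G → Prop
  lt_one : ¬ lt 1 1
  lt_step : ∀ g s h t, Step toNd g s → Step toNd h t → rl P A g = rl P A h →
    (lt (g * s) (h * t) ↔ lt g h ∨ (g = h ∧ ord s < ord t))
  can_iff : ∀ i g, can i g ↔ Minc P A i g ∧
    ∀ p ∈ P i, rl P A (g * p) = rl P A g → ¬ lt (g * p) g
  N1 : ℕ
  hS : SyncB L NE N1
  hB : PenB L N1 B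

section
variable {G ι : Type} [Group G] {P : ι → Subgroup G} {A : Set G}

/-- `g` and `g'` have the same companions, in the same order. -/
def St (O : Od P A) (g g' : G) : Prop :=
  (∀ c, Comp O.toNd O.N1 g (g * c) ↔ Comp O.toNd O.N1 g' (g' * c)) ∧
  ∀ c c', Comp O.toNd O.N1 g (g * c) → Comp O.toNd O.N1 g (g * c') →
    (O.lt (g * c) (g * c') ↔ O.lt (g' * c) (g' * c'))

end

/-- The data for the automatic structure: the normal form data, and automatic structures with
unique representatives for the subgroups `P i`. -/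
structure Ld {G ι : Type} [Group G] (P : ι → Subgroup G) (A : Set G) where
  D : Nd P A
  M0 : ℕ
  NP : ℕ
  hP : PenB D.L M0 NP
  hN : NearB D.L M0 NP
  B4 : ℕ
  h4 : D.B + 2 * NP ≤ B4
  Bt : ι → Type
  btfin : ∀ i, Finite (Bt i)
  ψ : ∀ i, Bt i → G
  Lg : ∀ i, Language (Bt i)
  reg : ∀ i, (Lg i).IsRegular
  mem : ∀ i, ∀ u ∈ Lg i, val (ψ i) u ∈ P i
  onto : ∀ i, ∀ p ∈ P i, ∃ u ∈ Lg i, val (ψ i) u = p
  uniq : ∀ i, ∀ u ∈ Lg i, ∀ v ∈ Lg i, val (ψ i) u = val (ψ i) v → u = v
  ft : ∀ (i : ι) (h : G), ∃ F : Set G, F.Finite ∧ ∀ u ∈ Lg i, ∀ v ∈ Lg i,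
    val (ψ i) u * h = val (ψ i) v → ∀ t, (val (ψ i) (u.take t))⁻¹ * val (ψ i) (v.take t) ∈ F
  len : ∀ (i : ι) (h : G), ∃ c : ℕ, ∀ u ∈ Lg i, ∀ v ∈ Lg i,
    val (ψ i) u * h = val (ψ i) v → u.length ≤ v.length + c ∧ v.length ≤ u.length + c

section
variable {G ι : Type} [Group G] {P : ι → Subgroup G} {A : Set G}

/-- The alphabet. -/
abbrev Alp (E : Ld P A) : Type := {s : G // E.D.L.l s ≤ E.B4} ⊕ (Σ i, E.Bt i)

/-- The value of a letter of the alphabet. -/
def Ψ (E : Ld P A) : Alp E → G
  | Sum.inl s => s.1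
  | Sum.inr b => E.ψ b.1 b.2

/-- `u` is the string of the letter `s`. -/
def Tw (E : Ld P A) (s : G) (u : List (Alp E)) : Prop :=
  (∃ h : E.D.L.l s ≤ E.B4, u = [Sum.inl ⟨s, h⟩]) ∨
  (E.B4 < E.D.L.l s ∧ ∃ i, s ∈ P i ∧ ∃ v ∈ E.Lg i, val (E.ψ i) v = s ∧
    u = v.map (fun b => Sum.inr ⟨i, b⟩))

/-- The strings of the normal forms continued from `g`. -/
def NFw (E : Ld P A) (g : G) : Language (Alp E) :=
  {u | ∃ (w : List G) (us : List (List (Alp E))), Vd E.D g w ∧ List.Forall₂ (Tw E) w us ∧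
    u = us.flatten}

/-- The comparison of two strings: shorter strings first, strings of the same length
lexicographically. -/
def Sl {B : Type} (r : B → ℕ) (u v : List B) : Prop :=
  u.length < v.length ∨ (u.length = v.length ∧ List.Lex (· < ·) (u.map r) (v.map r))

end

end Pool.Agent.RET
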