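import Pool.Agent.RET.Defs
import Pool.Agent.REL.Pen
import Pool.Agent.REL.Can
import Pool.Agent.VH.FC
/-!
# The finiteness property for translation numbers passes to the peripheral subgroups
-/
namespace Pool.Agent.RET
open Pool.Agent.SLX Pool.Agent.REL

section
variable {G ι : Type} [Group G] {P : ι → Subgroup G} {A : Set G}

/-- The elements of `P i` which are conjugate into `P i` by an element outside of `P i` are
conjugate in `P i` to short elements. -/
theorem fcl_short (L : PLen P A) : ∃ R : ℕ, ∀ (i : ι) (u w : G), w ∈ P i → u ∉ P i →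
    u⁻¹ * w * u ∈ P i → ∃ a ∈ P i, L.l (a⁻¹ * w * a) ≤ R := by
  classical
  obtain ⟨NE, hE⟩ := exists_entry L
  obtain ⟨NP, hP⟩ := exists_pen L 0
  refine ⟨max NE NP, ?_⟩
  intro i u w hw hu hwu
  -- the nearest points of the two cosets
  have hex : ∃ m : ℕ, ∃ a ∈ P i, ∃ c ∈ P i, rl P A (a⁻¹ * (u * c)) = m :=
    ⟨_, 1, one_mem _, 1, one_mem _, rfl⟩
  obtain ⟨a, ha, c, hc, hm⟩ := Nat.find_spec hex
  have hmin : ∀ a' ∈ P i, ∀ c' ∈ P i,
      rl P A (a⁻¹ * (u * c)) ≤ rl P A (a'⁻¹ * (u * c')) := by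
    intro a' ha' c' hc'
    rw [hm]
    exact Nat.find_min' hex ⟨a', ha', c', hc', rfl⟩
  refine ⟨a, ha, ?_⟩
  by_contra hlong
  obtain ⟨g, hg⟩ : ∃ g : G, g = a⁻¹ * (u * c) := ⟨_, rfl⟩
  obtain ⟨p, hp⟩ : ∃ p : G, p = a⁻¹ * w * a := ⟨_, rfl⟩
  obtain ⟨q, hq⟩ : ∃ q : G, q = c⁻¹ * (u⁻¹ * w * u) * c := ⟨_, rfl⟩
  rw [← hp] at hlong
  have hl : max NE NP < L.l p := not_le.1 hlong
  have hlE : NE < L.l p := lt_of_le_of_lt (le_max_left _ _) hl
  have hlP : NP < L.l p := lt_of_le_of_lt (le_max_right _ _) hl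
  have hpP : p ∈ P i := by
    rw [hp]
    exact mul_mem (mul_mem (inv_mem ha) hw) ha
  have hqP : q ∈ P i := by
    rw [hq]
    exact mul_mem (mul_mem (inv_mem hc) hwu) hc
  have hpg : p * g = g * q := by
    rw [hp, hg, hq]
    group
  rw [← hg] at hmin
  -- `g` is not trivial
  have hg1 : 1 ≤ rl P A g := by
    rcases Nat.eq_zero_or_pos (rl P A g) with h | h
    · exfalso
      have h1 : g = 1 := rl_zero L h
      apply hu
      have h2 : u = a * c⁻¹ := by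
        have h3 : a⁻¹ * (u * c) = 1 := by rw [← hg, h1]
        have h4 : u * c = a := by
          have h5 : a * (a⁻¹ * (u * c)) = a * 1 := by rw [h3]
          rwa [mul_inv_cancel_left, mul_one] at h5
        rw [← h4]
        group
      rw [h2]
      exact mul_mem ha (inv_mem hc)
    · exact h
  -- left translates of `g` by `P i` are not closer
  have hleft : ∀ r ∈ P i, rl P A g ≤ rl P A (r⁻¹ * g) := by
    intro r hr
    have h1 := hmin (a * r) (mul_mem ha hr) c hc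
    have h2 : (a * r)⁻¹ * (u * c) = r⁻¹ * g := by
      rw [hg]
      group
    rwa [h2] at h1
  have hmc : Minc P A i g⁻¹ := by
    intro r hr
    have h1 := hleft r hr
    have h2 : g⁻¹ * r = (r⁻¹ * g)⁻¹ := by group
    rw [h2, rl_inv L, rl_inv L]
    exact h1
  have hpgl : rl P A (p * g) = rl P A g + 1 := by
    have h1 := minc_step L hE (inv_mem hpP) hmc (by rw [L.inv]; exact hlE)
    have h2 : p * g = (g⁻¹ * p⁻¹)⁻¹ := by group
    rw [h2, rl_inv L, h1, rl_inv L]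
  have hgql : rl P A (g * q) = rl P A g + 1 := by rw [← hpg, hpgl]
  have hq1 : rl P A q = 1 := by
    have h1 : rl P A q ≤ 1 := rl_letter (Or.inr ⟨i, hqP⟩)
    have h2 := rl_mul L g q
    omega
  have hp1 : rl P A p = 1 := by
    have h1 : rl P A p ≤ 1 := rl_letter (Or.inr ⟨i, hpP⟩)
    have h2 := rl_mul L p g
    omega
  obtain ⟨x, hx0, hx1, hx2, hx⟩ := exists_rgeo_through L p g (by rw [hpgl, hp1, add_comm])
  obtain ⟨y, hy0, hy1, hy2, hy⟩ := exists_rgeo_through L g q (by rw [hgql, hq1])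
  rw [hp1] at hx1 hx2 hx
  have hend : L.l ((x (1 + rl P A g))⁻¹ * y (rl P A g + rl P A q)) ≤ 0 := by
    rw [hx2, hy2, hpg, inv_mul_cancel, L.one]
  have hfirst : (x 0)⁻¹ * x (0 + 1) = p := by
    rw [hx0, zero_add, hx1, inv_one, one_mul]
  obtain ⟨_, h1, _, _, _⟩ := hP _ _ x y hx hy hx0 hy0 hend i 0 (by omega)
    (by rw [hfirst]; exact hpP) (by rw [hfirst]; exact hlP)
  rw [hy0, zero_add, inv_one, one_mul] at h1
  have h2 := hy.2 1 (rl P A g) hg1 (Nat.le_add_right _ _)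
  rw [hy1] at h2
  have h3 := hleft (y 1) h1
  rw [h2] at h3
  omega

theorem fcl_periph (L : PLen P A) (h : VH.FCl G) (i : ι) : VH.FCl (P i) := by
  classical
  obtain ⟨R, hR⟩ := fcl_short L
  obtain ⟨l, κ, h1, h2, h3, h4⟩ := h
  refine ⟨fun x => l (x : G), κ, h1, fun x y => h2 _ _, fun x => h3 _, fun T => ?_⟩
  obtain ⟨S, hS, hS'⟩ := h4 T
  -- choose representatives
  let W : G → Prop := fun s => ∃ (w : P i) (x : G), x⁻¹ * (w : G) * x = s
  let f : G → P i := fun s => if hs : W s then hs.choose else 1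
  have hball : {v : P i | L.l (v : G) ≤ R}.Finite :=
    (L.fin R).preimage Subtype.val_injective.injOn
  refine ⟨f '' S ∪ {v : P i | L.l (v : G) ≤ R}, (hS.image f).union hball, ?_⟩
  rintro w ⟨c, hc⟩
  obtain ⟨x, hx⟩ := hS' (w : G) ⟨c, fun n => hc n⟩
  have hW : W (x⁻¹ * (w : G) * x) := ⟨w, x, rfl⟩
  obtain ⟨y, hy⟩ := hW.choose_spec
  have hf : f (x⁻¹ * (w : G) * x) = hW.choose := dif_pos hW
  obtain ⟨v, hv⟩ : ∃ v : P i, v = hW.choose := ⟨_, rfl⟩
  rw [← hv] at hf hy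
  have hconj : (w : G) = (x * y⁻¹) * (v : G) * (x * y⁻¹)⁻¹ := by
    have h5 : (w : G) = x * (x⁻¹ * (w : G) * x) * x⁻¹ := by group
    rw [h5, ← hy]
    group
  by_cases hu : x * y⁻¹ ∈ P i
  · refine ⟨⟨x * y⁻¹, hu⟩, Or.inl ⟨_, hx, ?_⟩⟩
    rw [hf]
    apply Subtype.ext
    show (v : G) = (x * y⁻¹)⁻¹ * (w : G) * (x * y⁻¹)
    rw [hconj]
    group
  · have hwu : (x * y⁻¹)⁻¹ * (w : G) * (x * y⁻¹) = v := by
      rw [hconj]
      group
    obtain ⟨a, ha, hal⟩ := hR i (x * y⁻¹) w w.2 hu (by rw [hwu]; exact v.2)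
    exact ⟨⟨a, ha⟩, Or.inr hal⟩

end

end Pool.Agent.RET
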