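import Pool.Agent.RET.Nf
import Pool.Agent.REL.Rl
/-!
# The fellow traveller property of the normal forms
-/
namespace Pool.Agent.RET
open Pool.Agent.SLX Pool.Agent.REL

section
variable {G ι : Type} [Group G] {P : ι → Subgroup G} {A : Set G}

private theorem ftp_fin {α : Type} {s : Set α} (hs : s.Finite) (Q : α → ℕ → Prop)
    (hmono : ∀ a m n, m ≤ n → Q a m → Q a n) (h : ∀ a ∈ s, ∃ C, Q a C) :
    ∃ C, ∀ a ∈ s, Q a C := by
  choose! C hC using h
  refine ⟨hs.toFinset.sup C, fun a ha => hmono a (C a) _ ?_ (hC a ha)⟩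
  exact Finset.le_sup (hs.mem_toFinset.2 ha)

private theorem ftp_val_append {S : Type} (π : S → G) (u v : List S) :
    val π (u ++ v) = val π u * val π v := by
  simp [val]

private theorem ftp_prod_le (L : PLen P A) {C : ℕ} {w : List G} (h : ∀ s ∈ w, L.l s ≤ C) :
    L.l w.prod ≤ C * w.length := by
  induction w with
  | nil => simp [L.one]
  | cons s w ih =>
    rw [List.prod_cons, List.length_cons]
    have h1 := L.mul s w.prod
    have h2 := h s (by simp)
    have h3 := ih (fun t ht => h t (by simp [ht]))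
    have h4 : C * (w.length + 1) = C * w.length + C := by ring
    omega

private theorem ftp_lip1 (L : PLen P A) {C : ℕ} {w : List G} (h : ∀ s ∈ w, L.l s ≤ C) {m n : ℕ}
    (hmn : m ≤ n) : L.l ((w.take m).prod⁻¹ * (w.take n).prod) ≤ C * (min n w.length - m) := by
  obtain ⟨d, rfl⟩ := Nat.exists_eq_add_of_le hmn
  rw [List.take_add, List.prod_append, inv_mul_cancel_left]
  refine le_trans (ftp_prod_le L (C := C) ?_) ?_
  · intro s hs
    exact h s (List.mem_of_mem_drop (List.mem_of_mem_take hs))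
  · refine Nat.mul_le_mul_left _ ?_
    rw [List.length_take, List.length_drop]
    omega

private theorem ftp_lip2 (L : PLen P A) {C : ℕ} {w : List G} (h : ∀ s ∈ w, L.l s ≤ C) (m n : ℕ) :
    L.l ((w.take m).prod⁻¹ * (w.take n).prod) ≤
      C * ((min n w.length - m) + (min m w.length - n)) := by
  rcases le_total m n with h1 | h1
  · exact (ftp_lip1 L h h1).trans (Nat.mul_le_mul_left _ (by omega))
  · rw [← L.inv, mul_inv_rev, inv_inv]
    exact (ftp_lip1 L h h1).trans (Nat.mul_le_mul_left _ (by omega))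

private theorem ftp_vd_take (D : Nd P A) {w : List G} (h : Vd D 1 w) (n : ℕ) :
    Vd D 1 (w.take n) :=
  ((vd_append D 1 (w.take n) (w.drop n)).1 (by rw [List.take_append_drop]; exact h)).1

private theorem ftp_rl_take (D : Nd P A) {w : List G} (h : Vd D 1 w) (n : ℕ) :
    rl P A (w.take n).prod = min n w.length := by
  rw [(vd_rl D (ftp_vd_take D h n)).2, List.length_take]

private theorem ftp_step (D : Nd P A) {w : List G} (h : Vd D 1 w) {j : ℕ} (hj : j < w.length) :
    Step D (w.take j).prod w[j] := by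
  have h1 := (vd_append D 1 (w.take j) (w.drop j)).1 (by rw [List.take_append_drop]; exact h)
  rw [List.drop_eq_getElem_cons hj, one_mul] at h1
  exact h1.2.1

private theorem ftp_geo (D : Nd P A) {w : List G} (h : Vd D 1 w) :
    RGeo P A w.length (fun j => (w.take j).prod) := by
  refine rgeo_of D.L ?_ ?_
  · intro j hj
    show Letter P A ((w.take j).prod⁻¹ * (w.take (j + 1)).prod)
    rw [List.prod_take_succ w j hj, inv_mul_cancel_left]
    exact letter_of_rl D.L (ftp_step D h hj).1
  · show rl P A ((w.take 0).prod⁻¹ * (w.take w.length).prod) = w.length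
    rw [List.take_zero, List.prod_nil, inv_one, one_mul, ftp_rl_take D h, min_self]

/-- A long letter of one normal form occurs in the other one, up to a bounded error. -/
private theorem ftp_pen (E : Ld P A) {p q w' : List G} {r : G}
    (hw : Vd E.D 1 (p ++ r :: q)) (hw' : Vd E.D 1 w')
    (hl : E.D.L.l (((p ++ r :: q).prod)⁻¹ * w'.prod) ≤ E.M0) (hr : E.B4 < E.D.L.l r) :
    ∃ t q', w' = p ++ t :: q' ∧ ∃ i, r ∈ P i ∧ t ∈ P i ∧ E.D.L.l (r⁻¹ * t) ≤ E.NP := by
  have h4 := E.h4
  have hp := (vd_append E.D 1 p (r :: q)).1 hw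
  rw [one_mul] at hp
  obtain ⟨hvp, hstep, -⟩ := hp
  obtain ⟨-, -, h3⟩ := hstep
  rcases h3 with ⟨i, hi, hBi, hcan⟩ | ⟨h5, -⟩
  swap
  · omega
  have hlt : p.length < (p ++ r :: q).length := by simp
  have hx : ((p ++ r :: q).take p.length).prod = p.prod := by rw [List.take_left]
  have hx1 : ((p ++ r :: q).take (p.length + 1)).prod = p.prod * r := by
    rw [List.prod_take_succ _ _ hlt, hx]
    simp
  have key := E.hP (p ++ r :: q).length w'.length _ _ (ftp_geo E.D hw) (ftp_geo E.D hw')
    (by simp) (by simp) (by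
      show E.D.L.l (((p ++ r :: q).take _).prod⁻¹ * (w'.take _).prod) ≤ E.M0
      rw [List.take_length, List.take_length]
      exact hl) i p.length hlt (by
      show ((p ++ r :: q).take p.length).prod⁻¹ * ((p ++ r :: q).take (p.length + 1)).prod ∈ P i
      rw [hx, hx1, inv_mul_cancel_left]
      exact hi) (by
      show E.NP < E.D.L.l (((p ++ r :: q).take p.length).prod⁻¹ *
        ((p ++ r :: q).take (p.length + 1)).prod)
      rw [hx, hx1, inv_mul_cancel_left]
      omega)
  obtain ⟨hlt', k1, k2, k3, k4⟩ := key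
  change (w'.take p.length).prod⁻¹ * (w'.take (p.length + 1)).prod ∈ P i at k1
  change ((p ++ r :: q).take p.length).prod⁻¹ * (w'.take p.length).prod ∈ P i at k2
  change E.D.L.l (((p ++ r :: q).take p.length).prod⁻¹ * (w'.take p.length).prod) ≤ E.NP at k3
  change E.D.L.l (((p ++ r :: q).take (p.length + 1)).prod⁻¹ *
    (w'.take (p.length + 1)).prod) ≤ E.NP at k4
  rw [hx] at k2 k3
  rw [hx1] at k4
  rw [List.prod_take_succ w' p.length hlt'] at k1 k4
  rw [inv_mul_cancel_left] at k1
  set t := w'[p.length] with ht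
  set y := (w'.take p.length).prod with hy
  have e1 : r = p.prod⁻¹ * y * t * ((p.prod * r)⁻¹ * (y * t))⁻¹ := by group
  have e2 : E.D.L.l r ≤ E.NP + E.D.L.l t + E.NP := by
    have f1 := E.D.L.mul (p.prod⁻¹ * y * t) ((p.prod * r)⁻¹ * (y * t))⁻¹
    rw [← e1, E.D.L.inv] at f1
    have f2 := E.D.L.mul (p.prod⁻¹ * y) t
    omega
  have hst := ftp_step E.D hw' hlt'
  rw [← ht, ← hy] at hst
  obtain ⟨-, -, h6⟩ := hst
  rcases h6 with ⟨i', hi', hBt, hcan'⟩ | ⟨h7, -⟩
  swap
  · omega
  have hii : i' = i := by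
    refine long_unique E.D.L hi' k1 ?_
    have := E.D.hδ
    omega
  subst hii
  have e3 : p.prod⁻¹ * y = 1 := by
    refine (E.D.can_unique i' p.prod).unique ⟨k2, ?_⟩ ⟨(P i').one_mem, ?_⟩
    · rw [mul_inv_cancel_left]
      exact hcan'
    · rw [mul_one]
      exact hcan
  have e4 : p.prod = y := (inv_mul_eq_one.1 e3)
  have e5 : p = w'.take p.length := nf_unique E.D hvp (ftp_vd_take E.D hw' _) e4
  refine ⟨t, w'.drop (p.length + 1), ?_, i', hi, k1, ?_⟩
  · have e6 : w' = w'.take p.length ++ w'.drop p.length := (List.take_append_drop _ _).symm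
    rw [List.drop_eq_getElem_cons hlt', ← e5, ← ht] at e6
    exact e6
  · have e7 : r⁻¹ * t = (p.prod * r)⁻¹ * (y * t) := by
      rw [← e4]
      group
    rw [e7]
    exact k4

private theorem ftp_tw_unique (E : Ld P A) {s : G} {u u' : List (Alp E)} (h : Tw E s u)
    (h' : Tw E s u') : u = u' := by
  rcases h with ⟨h1, rfl⟩ | ⟨h1, i, hi, v, hv, hvs, rfl⟩
  · rcases h' with ⟨h2, rfl⟩ | ⟨h2, -⟩
    · rfl
    · omega
  · rcases h' with ⟨h2, -⟩ | ⟨h2, i', hi', v', hv', hvs', rfl⟩
    · omega
    · have hii : i = i' := by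
        refine long_unique E.D.L hi hi' ?_
        have h3 := E.h4
        have h4 := E.D.hδ
        omega
      subst hii
      rw [E.uniq i v hv v' hv' (hvs.trans hvs'.symm)]

private theorem ftp_val_inr (E : Ld P A) (i : ι) (v : List (E.Bt i)) :
    val (Ψ E) (v.map (fun b => Sum.inr ⟨i, b⟩)) = val (E.ψ i) v := by
  unfold val
  rw [List.map_map]
  rfl

private theorem ftp_tw_val (E : Ld P A) {s : G} {u : List (Alp E)} (h : Tw E s u) :
    val (Ψ E) u = s := by
  rcases h with ⟨h1, rfl⟩ | ⟨h1, i, hi, v, hv, hvs, rfl⟩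
  · simp [val, Ψ]
  · rw [ftp_val_inr, hvs]

private theorem ftp_val_flatten (E : Ld P A) {w : List G} {us : List (List (Alp E))}
    (h : List.Forall₂ (Tw E) w us) : val (Ψ E) us.flatten = w.prod := by
  induction h with
  | nil => simp [val]
  | cons h1 h2 ih =>
    rw [List.flatten_cons, ftp_val_append, ftp_tw_val E h1, ih, List.prod_cons]

private theorem ftp_split {α β : Type} {R : α → β → Prop} {c a : List α} {us : List β}
    (h : List.Forall₂ R (c ++ a) us) :
    ∃ us1 us2, us = us1 ++ us2 ∧ List.Forall₂ R c us1 ∧ List.Forall₂ R a us2 := by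
  induction c generalizing us with
  | nil => exact ⟨[], us, rfl, List.Forall₂.nil, h⟩
  | cons s c ih =>
    rw [List.cons_append] at h
    cases h with
    | cons h1 h2 =>
      obtain ⟨us1, us2, rfl, h3, h4⟩ := ih h2
      exact ⟨_ :: us1, us2, rfl, List.Forall₂.cons h1 h3, h4⟩

private theorem ftp_forall_unique (E : Ld P A) {w : List G} {us vs : List (List (Alp E))}
    (h : List.Forall₂ (Tw E) w us) (h' : List.Forall₂ (Tw E) w vs) : us = vs := by
  induction h generalizing vs with
  | nil =>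
    cases h'
    rfl
  | cons h1 h2 ih =>
    cases h' with
    | cons h3 h4 => rw [ftp_tw_unique E h1 h3, ih h4]

private theorem ftp_short (E : Ld P A) {w : List G} {us : List (List (Alp E))}
    (h : List.Forall₂ (Tw E) w us) (hs : ∀ s ∈ w, E.D.L.l s ≤ E.B4) (n : ℕ) :
    val (Ψ E) (us.flatten.take n) = (w.take n).prod := by
  induction h generalizing n with
  | nil => simp [val]
  | @cons s u w us h1 h2 ih =>
    rcases h1 with ⟨h3, rfl⟩ | ⟨h3, -⟩
    · cases n with
      | zero => simp [val]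
      | succ n =>
        rw [List.flatten_cons, List.singleton_append, List.take_succ_cons, List.take_succ_cons,
          List.prod_cons, ← ih (fun t ht => hs t (by simp [ht]))]
        simp [val, Ψ]
    · have := hs s (by simp)
      omega

private theorem ftp_lip [Finite ι] (E : Ld P A) : ∃ C, ∀ a : Alp E, E.D.L.l (Ψ E a) ≤ C := by
  have h1 := E.btfin
  have h2 : Finite {s : G // E.D.L.l s ≤ E.B4} := (E.D.L.fin E.B4).to_subtype
  have h3 : Finite (Alp E) := by infer_instance
  obtain ⟨C, hC⟩ := ftp_fin (Set.finite_univ (α := Alp E)) (fun a n => E.D.L.l (Ψ E a) ≤ n)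
    (fun a m n hmn h => le_trans h hmn) (fun a _ => ⟨_, le_rfl⟩)
  exact ⟨C, fun a => hC a (Set.mem_univ a)⟩

/-- The strings of the letters of two normal forms which leave the same point. -/
private theorem ftp_local [Finite ι] (E : Ld P A) : ∃ D1 : ℕ,
    ∀ (s t : G) (us vt : List (Alp E)), Tw E s us → Tw E t vt →
    ((E.D.L.l s ≤ E.B4 ∧ E.D.L.l t ≤ E.B4) ∨
      ∃ i, s ∈ P i ∧ t ∈ P i ∧ E.D.L.l (s⁻¹ * t) ≤ E.NP) →
    us.length ≤ vt.length + D1 ∧ vt.length ≤ us.length + D1 ∧
      ∀ n, E.D.L.l ((val (Ψ E) (us.take n))⁻¹ * val (Ψ E) (vt.take n)) ≤ D1 := by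
  obtain ⟨C, hC⟩ := ftp_lip E
  obtain ⟨C2, hC2⟩ := ftp_fin (E.D.L.fin (E.B4 + E.NP))
    (fun s n => ∀ us, Tw E s us → us.length ≤ n)
    (fun a m n hmn h us hus => le_trans (h us hus) hmn) (fun s _ => by
      by_cases h : ∃ us, Tw E s us
      · obtain ⟨us0, h0⟩ := h
        exact ⟨us0.length, fun us hus => by rw [ftp_tw_unique E hus h0]⟩
      · exact ⟨0, fun us hus => absurd ⟨us, hus⟩ h⟩)
  obtain ⟨C4, hC4⟩ := ftp_fin (α := ι × G)
    ((Set.finite_univ (α := ι)).prod (E.D.L.fin E.NP))
    (fun x n => ∀ u ∈ E.Lg x.1, ∀ v ∈ E.Lg x.1, val (E.ψ x.1) u * x.2 = val (E.ψ x.1) v →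
      u.length ≤ v.length + n ∧ v.length ≤ u.length + n ∧
      ∀ t, E.D.L.l ((val (E.ψ x.1) (u.take t))⁻¹ * val (E.ψ x.1) (v.take t)) ≤ n)
    (fun x m n hmn h u hu v hv huv => by
      obtain ⟨f1, f2, f3⟩ := h u hu v hv huv
      exact ⟨by omega, by omega, fun t => le_trans (f3 t) hmn⟩)
    (fun x _ => by
      obtain ⟨F, hF, hF2⟩ := E.ft x.1 x.2
      obtain ⟨c, hc⟩ := E.len x.1 x.2
      obtain ⟨c2, hc2⟩ := ftp_fin hF (fun g n => E.D.L.l g ≤ n)
        (fun a m n hmn h => le_trans h hmn) (fun a _ => ⟨_, le_rfl⟩)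
      refine ⟨c + c2, fun u hu v hv huv => ?_⟩
      have f1 := hc u hu v hv huv
      refine ⟨by omega, by omega, fun t => ?_⟩
      have f2 := hc2 _ (hF2 u hu v hv huv t)
      omega)
  refine ⟨C4 + C2 + C * C2 + C * C2, fun s t us vt hs ht hst => ?_⟩
  have hmap : ∀ (u : List (Alp E)) (n : ℕ), u.length ≤ C2 →
      E.D.L.l (val (Ψ E) (u.take n)) ≤ C * C2 := by
    intro u n hu
    refine le_trans (ftp_prod_le E.D.L (C := C) ?_) ?_
    · intro g hg
      obtain ⟨a, -, rfl⟩ := List.mem_map.1 hg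
      exact hC a
    · refine Nat.mul_le_mul_left _ ?_
      rw [List.length_map, List.length_take]
      omega
  by_cases h1 : E.D.L.l s ≤ E.B4 + E.NP ∧ E.D.L.l t ≤ E.B4 + E.NP
  · have g1 := hC2 s h1.1 us hs
    have g2 := hC2 t h1.2 vt ht
    refine ⟨by omega, by omega, fun n => ?_⟩
    have g3 := E.D.L.mul (val (Ψ E) (us.take n))⁻¹ (val (Ψ E) (vt.take n))
    rw [E.D.L.inv] at g3
    have g4 := hmap us n g1
    have g5 := hmap vt n g2
    omega
  · rcases hst with h2 | ⟨i, hsi, hti, hN⟩
    · omega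
    have g1 : E.D.L.l s ≤ E.D.L.l t + E.NP := by
      have f1 := E.D.L.mul t (s⁻¹ * t)⁻¹
      rw [E.D.L.inv, mul_inv_rev, inv_inv, mul_inv_cancel_left] at f1
      omega
    have g2 : E.D.L.l t ≤ E.D.L.l s + E.NP := by
      have f1 := E.D.L.mul s (s⁻¹ * t)
      rw [mul_inv_cancel_left] at f1
      omega
    have hB := E.h4
    have hδ := E.D.hδ
    rcases hs with ⟨h3, -⟩ | ⟨h3, i1, hi1, u, hu, hus, rfl⟩
    · omega
    rcases ht with ⟨h4, -⟩ | ⟨h4, i2, hi2, v, hv, hvt, rfl⟩
    · omega
    have e1 : i1 = i := long_unique E.D.L hi1 hsi (by omega)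
    have e2 : i2 = i := long_unique E.D.L hi2 hti (by omega)
    subst e1
    subst e2
    obtain ⟨k1, k2, k3⟩ := hC4 (i2, s⁻¹ * t) ⟨Set.mem_univ _, hN⟩ u hu v hv (by
      show val (E.ψ i2) u * (s⁻¹ * t) = val (E.ψ i2) v
      rw [hus, hvt, mul_inv_cancel_left])
    rw [List.length_map, List.length_map]
    refine ⟨by omega, by omega, fun n => ?_⟩
    rw [← List.map_take, ← List.map_take, ftp_val_inr, ftp_val_inr]
    have k4 := k3 n
    change E.D.L.l ((val (E.ψ i2) (u.take n))⁻¹ * val (E.ψ i2) (v.take n)) ≤ C4 at k4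
    omega

private theorem ftp_take_cons (c a : List G) (s : G) (m : ℕ) :
    ((c ++ s :: a).take (c.length + 1 + m)).prod = c.prod * (s * (a.take m).prod) := by
  have h1 : c ++ s :: a = (c ++ [s]) ++ a := by simp
  have h2 : c.length + 1 + m = (c ++ [s]).length + m := by simp
  rw [h1, h2, List.take_length_add_append, List.prod_append, List.prod_append,
    List.prod_singleton, mul_assoc]

private theorem ftp_rl_le (L : PLen P A) (x y : G) : rl P A y ≤ rl P A x + L.l (x⁻¹ * y) := by
  have h1 := rl_mul L x (x⁻¹ * y)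
  rw [mul_inv_cancel_left] at h1
  have h2 := rl_le L (x⁻¹ * y)
  omega

/-- The distance between the ends of short letters. -/
private theorem ftp_main (E : Ld P A) {c a b : List G} {s t : G} {D1 : ℕ}
    (hw : Vd E.D 1 (c ++ s :: a)) (hw' : Vd E.D 1 (c ++ t :: b))
    (hl : E.D.L.l (((c ++ s :: a).prod)⁻¹ * (c ++ t :: b).prod) ≤ E.M0)
    (ha : ∀ r ∈ a, E.D.L.l r ≤ E.B4) (hb : ∀ r ∈ b, E.D.L.l r ≤ E.B4)
    (hst : E.D.L.l (s⁻¹ * t) ≤ D1) (n : ℕ) :
    E.D.L.l ((s * (a.take n).prod)⁻¹ * (t * (b.take n).prod)) ≤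
      E.NP + E.B4 * (2 * E.NP + E.M0) + D1 := by
  have k1 : (c ++ s :: a).length = c.length + 1 + a.length := by
    simp only [List.length_append, List.length_cons]
    omega
  have k2 : (c ++ t :: b).length = c.length + 1 + b.length := by
    simp only [List.length_append, List.length_cons]
    omega
  have r1 := (vd_rl E.D hw).2
  have r2 := (vd_rl E.D hw').2
  have l1 := ftp_rl_le E.D.L (c ++ s :: a).prod (c ++ t :: b).prod
  have l2 := ftp_rl_le E.D.L (c ++ t :: b).prod (c ++ s :: a).prod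
  rw [← E.D.L.inv, mul_inv_rev, inv_inv] at l2
  obtain ⟨j, hj, hd⟩ := E.hN _ _ _ _ (ftp_geo E.D hw) (ftp_geo E.D hw')
    (by simp) (by
      show E.D.L.l (((c ++ s :: a).take _).prod⁻¹ * ((c ++ t :: b).take _).prod) ≤ E.M0
      rw [List.take_length, List.take_length]
      exact hl) (c.length + 1 + min n a.length) (by omega)
  change E.D.L.l (((c ++ s :: a).take (c.length + 1 + min n a.length)).prod⁻¹ *
    ((c ++ t :: b).take j).prod) ≤ E.NP at hd
  have r3 := ftp_rl_take E.D hw (c.length + 1 + min n a.length)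
  have r4 := ftp_rl_take E.D hw' j
  have l3 := ftp_rl_le E.D.L ((c ++ s :: a).take (c.length + 1 + min n a.length)).prod
    ((c ++ t :: b).take j).prod
  have l4 := ftp_rl_le E.D.L ((c ++ t :: b).take j).prod
    ((c ++ s :: a).take (c.length + 1 + min n a.length)).prod
  rw [← E.D.L.inv, mul_inv_rev, inv_inv] at l4
  have e0 : (a.take (min n a.length)).prod = (a.take n).prod := by
    rw [← List.take_eq_take_min]
  by_cases hjc : c.length + 1 ≤ j
  · obtain ⟨m, rfl⟩ := Nat.exists_eq_add_of_le hjc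
    have hd0 := hd
    rw [ftp_take_cons, ftp_take_cons, e0] at hd
    have e1 : (s * (a.take n).prod)⁻¹ * (t * (b.take n).prod) =
        ((c.prod * (s * (a.take n).prod))⁻¹ * (c.prod * (t * (b.take m).prod))) *
          ((b.take m).prod⁻¹ * (b.take n).prod) := by group
    rw [e1]
    refine le_trans (E.D.L.mul _ _) ?_
    have g1 := ftp_lip2 E.D.L hb m n
    have g2 : E.B4 * ((min n b.length - m) + (min m b.length - n)) ≤
        E.B4 * (2 * E.NP + E.M0) := by
      refine Nat.mul_le_mul_left _ ?_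
      omega
    omega
  · have e1 : (s * (a.take n).prod)⁻¹ * (t * (b.take n).prod) =
        (a.take n).prod⁻¹ * ((s⁻¹ * t) * (b.take n).prod) := by group
    rw [e1]
    have g1 := E.D.L.mul (a.take n).prod⁻¹ ((s⁻¹ * t) * (b.take n).prod)
    have g2 := E.D.L.mul (s⁻¹ * t) (b.take n).prod
    rw [E.D.L.inv] at g1
    have g3 := ftp_prod_le E.D.L (w := a.take n) (fun r hr => ha r (List.mem_of_mem_take hr))
    have g4 := ftp_prod_le E.D.L (w := b.take n) (fun r hr => hb r (List.mem_of_mem_take hr))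
    rw [List.length_take] at g3 g4
    have g5 : E.B4 * min n a.length ≤ E.B4 * E.NP := Nat.mul_le_mul_left _ (by omega)
    have g6 : E.B4 * min n b.length ≤ E.B4 * (E.NP + E.M0) := Nat.mul_le_mul_left _ (by omega)
    have g7 : E.B4 * (2 * E.NP + E.M0) = E.B4 * E.NP + E.B4 * (E.NP + E.M0) := by ring
    omega

omit [Group G] in
private theorem ftp_lcp (w w' : List G) : ∃ c a b, w = c ++ a ∧ w' = c ++ b ∧
    ∀ s a' t b', a = s :: a' → b = t :: b' → s ≠ t := by
  induction w generalizing w' with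
  | nil => exact ⟨[], [], w', rfl, rfl, fun s a' t b' h => by simp at h⟩
  | cons x w ih =>
    cases w' with
    | nil => exact ⟨[], x :: w, [], rfl, rfl, fun s a' t b' _ h => by simp at h⟩
    | cons y w' =>
      by_cases hxy : x = y
      · subst hxy
        obtain ⟨c, a, b, rfl, rfl, h⟩ := ih w'
        exact ⟨x :: c, a, b, rfl, rfl, h⟩
      · refine ⟨[], x :: w, y :: w', rfl, rfl, ?_⟩
        intro s a' t b' h1 h2 h3
        simp only [List.cons.injEq] at h1 h2
        exact hxy (by rw [h1.1, h2.1, h3])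

private theorem ftp_rest_short (E : Ld P A) {c a w' : List G}
    (hw : Vd E.D 1 (c ++ a)) (hw' : Vd E.D 1 w')
    (hl : E.D.L.l (((c ++ a).prod)⁻¹ * w'.prod) ≤ E.M0)
    (hne : ∀ (p : List G) (r : G) (q : List G), a = p ++ r :: q → ∀ t q', w' ≠ c ++ p ++ t :: q') :
    ∀ r ∈ a, E.D.L.l r ≤ E.B4 := by
  intro r hr
  by_contra hlt
  obtain ⟨p, q, rfl⟩ := List.append_of_mem hr
  have e : c ++ (p ++ r :: q) = (c ++ p) ++ r :: q := by simp
  rw [e] at hw hl
  obtain ⟨t, q', h1, -⟩ := ftp_pen E hw hw' hl (by omega)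
  exact hne p r q rfl t q' h1

theorem nfw_ftp [Finite ι] (E : Ld P A) (h0 : G) (hl : E.D.L.l h0 ≤ E.M0) :
    ∃ F : Set G, F.Finite ∧ ∀ u ∈ NFw E 1, ∀ v ∈ NFw E 1, val (Ψ E) u * h0 = val (Ψ E) v →
      ∀ t, (val (Ψ E) (u.take t))⁻¹ * val (Ψ E) (v.take t) ∈ F := by
  obtain ⟨C, hC⟩ := ftp_lip E
  obtain ⟨D1, hD1⟩ := ftp_local E
  refine ⟨{g | E.D.L.l g ≤ E.B4 * E.M0 + C * D1 + C * D1 +
    (E.NP + E.B4 * (2 * E.NP + E.M0) + D1)}, E.D.L.fin _, ?_⟩
  rintro u ⟨w, us, hw, hus, rfl⟩ v ⟨w', vs, hw', hvs, rfl⟩ he n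
  rw [ftp_val_flatten E hus, ftp_val_flatten E hvs] at he
  have hl1 : E.D.L.l (w.prod⁻¹ * w'.prod) ≤ E.M0 := by
    rw [← he, inv_mul_cancel_left]
    exact hl
  have hl2 : E.D.L.l (w'.prod⁻¹ * w.prod) ≤ E.M0 := by
    rw [← E.D.L.inv, mul_inv_rev, inv_inv]
    exact hl1
  have r1 := (vd_rl E.D hw).2
  have r2 := (vd_rl E.D hw').2
  have l1 := ftp_rl_le E.D.L w.prod w'.prod
  have l2 := ftp_rl_le E.D.L w'.prod w.prod
  obtain ⟨c, a, b, rfl, rfl, hab⟩ := ftp_lcp w w'
  obtain ⟨us1, us2, rfl, h1, h2⟩ := ftp_split hus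
  obtain ⟨vs1, vs2, rfl, h3, h4⟩ := ftp_split hvs
  obtain rfl := ftp_forall_unique E h1 h3
  rw [List.length_append] at r1 r2
  rw [List.flatten_append, List.flatten_append, List.take_append, List.take_append,
    ftp_val_append, ftp_val_append, mul_inv_rev, mul_assoc, inv_mul_cancel_left]
  generalize n - us1.flatten.length = n
  show E.D.L.l _ ≤ _
  cases a with
  | nil =>
    cases h2
    have hs := ftp_rest_short E hw' hw hl2 (fun p r q _ t q' h => by
      have := congrArg List.length h
      simp at this)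
    rw [List.flatten_nil, List.take_nil, ftp_short E h4 hs]
    have e1 : (val (Ψ E) ([] : List (Alp E)))⁻¹ = 1 := by simp [val]
    rw [e1, one_mul]
    have g1 := ftp_prod_le E.D.L (w := b.take n) (fun r hr => hs r (List.mem_of_mem_take hr))
    rw [List.length_take] at g1
    rw [List.length_nil] at r1
    have g2 : E.B4 * min n b.length ≤ E.B4 * E.M0 := Nat.mul_le_mul_left _ (by omega)
    omega
  | cons s a =>
    cases b with
    | nil =>
      cases h4
      have hs := ftp_rest_short E hw hw' hl1 (fun p r q _ t q' h => by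
        have := congrArg List.length h
        simp at this)
      rw [List.flatten_nil, List.take_nil, ftp_short E h2 hs]
      have e1 : val (Ψ E) ([] : List (Alp E)) = 1 := by simp [val]
      rw [e1, mul_one, E.D.L.inv]
      have g1 := ftp_prod_le E.D.L (w := (s :: a).take n)
        (fun r hr => hs r (List.mem_of_mem_take hr))
      rw [List.length_take] at g1
      rw [List.length_nil] at r2
      have g2 : E.B4 * min n (s :: a).length ≤ E.B4 * E.M0 := Nat.mul_le_mul_left _ (by omega)
      omega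
    | cons t b =>
      have hst := hab s a t b rfl rfl
      have ew : ∀ (x : G) (y : List G), c ++ x :: y = (c ++ [x]) ++ y := by simp
      have ha : ∀ r ∈ a, E.D.L.l r ≤ E.B4 := by
        refine ftp_rest_short E (c := c ++ [s]) (by rw [← ew]; exact hw) hw'
          (by rw [← ew]; exact hl1) (fun p r q _ t' q' h => ?_)
        rw [List.append_assoc, List.append_assoc] at h
        have h5 := List.append_cancel_left h
        simp only [List.singleton_append, List.cons.injEq] at h5
        exact hst h5.1.symm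
      have hb : ∀ r ∈ b, E.D.L.l r ≤ E.B4 := by
        refine ftp_rest_short E (c := c ++ [t]) (by rw [← ew]; exact hw') hw
          (by rw [← ew]; exact hl2) (fun p r q _ t' q' h => ?_)
        rw [List.append_assoc, List.append_assoc] at h
        have h5 := List.append_cancel_left h
        simp only [List.singleton_append, List.cons.injEq] at h5
        exact hst h5.1
      have hcond : (E.D.L.l s ≤ E.B4 ∧ E.D.L.l t ≤ E.B4) ∨
          ∃ i, s ∈ P i ∧ t ∈ P i ∧ E.D.L.l (s⁻¹ * t) ≤ E.NP := by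
        by_cases c1 : E.B4 < E.D.L.l s
        · obtain ⟨t', q', k1, i, k2, k3, k4⟩ := ftp_pen E hw hw' hl1 c1
          have k5 := List.append_cancel_left k1
          simp only [List.cons.injEq] at k5
          obtain ⟨rfl, -⟩ := k5
          exact Or.inr ⟨i, k2, k3, k4⟩
        · by_cases c2 : E.B4 < E.D.L.l t
          · obtain ⟨t', q', k1, i, k2, k3, k4⟩ := ftp_pen E hw' hw hl2 c2
            have k5 := List.append_cancel_left k1
            simp only [List.cons.injEq] at k5
            obtain ⟨rfl, -⟩ := k5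
            refine Or.inr ⟨i, k3, k2, ?_⟩
            rw [← E.D.L.inv, mul_inv_rev, inv_inv]
            exact k4
          · exact Or.inl ⟨by omega, by omega⟩
      cases h2 with
      | @cons _ x _ us3 hx h2 =>
      cases h4 with
      | @cons _ y _ vs3 hy h4 =>
      obtain ⟨m1, m2, m3⟩ := hD1 s t x y hx hy hcond
      have hd1 : E.D.L.l (s⁻¹ * t) ≤ D1 := by
        have m4 := m3 (x.length + y.length)
        rw [List.take_of_length_le (by omega), List.take_of_length_le (by omega),
          ftp_tw_val E hx, ftp_tw_val E hy] at m4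
        exact m4
      rw [List.flatten_cons, List.flatten_cons]
      by_cases hn : n ≤ x.length ∧ n ≤ y.length
      · rw [List.take_append_of_le_length hn.1, List.take_append_of_le_length hn.2]
        have m4 := m3 n
        omega
      · obtain ⟨d, hd⟩ : ∃ d, n = min x.length y.length + d :=
          ⟨n - min x.length y.length, by omega⟩
        have hmain := ftp_main E hw hw' hl1 ha hb hd1 d
        have e1 : val (Ψ E) ((x ++ us3.flatten).take (x.length + d)) =
            s * (a.take d).prod := by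
          rw [List.take_length_add_append, ftp_val_append, ftp_tw_val E hx, ftp_short E h2 ha]
        have e2 : val (Ψ E) ((y ++ vs3.flatten).take (y.length + d)) =
            t * (b.take d).prod := by
          rw [List.take_length_add_append, ftp_val_append, ftp_tw_val E hy, ftp_short E h4 hb]
        rw [← e1, ← e2] at hmain
        have hlip : ∀ (u : List (Alp E)) (m n : ℕ), (n - m) + (m - n) ≤ D1 →
            E.D.L.l ((val (Ψ E) (u.take m))⁻¹ * val (Ψ E) (u.take n)) ≤ C * D1 := by
          intro u m n hmn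
          have f1 := ftp_lip2 E.D.L (C := C) (w := u.map (Ψ E)) (by
            intro g hg
            obtain ⟨a, -, rfl⟩ := List.mem_map.1 hg
            exact hC a) m n
          rw [← List.map_take, ← List.map_take] at f1
          refine le_trans f1 (Nat.mul_le_mul_left _ ?_)
          omega
        have g1 := hlip (x ++ us3.flatten) n (x.length + d) (by omega)
        have g2 := hlip (y ++ vs3.flatten) (y.length + d) n (by omega)
        set X1 := val (Ψ E) ((x ++ us3.flatten).take n)
        set X2 := val (Ψ E) ((x ++ us3.flatten).take (x.length + d))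
        set Y1 := val (Ψ E) ((y ++ vs3.flatten).take n)
        set Y2 := val (Ψ E) ((y ++ vs3.flatten).take (y.length + d))
        have e3 : X1⁻¹ * Y1 = (X1⁻¹ * X2) * ((X2⁻¹ * Y2) * (Y2⁻¹ * Y1)) := by group
        rw [e3]
        have g3 := E.D.L.mul (X1⁻¹ * X2) ((X2⁻¹ * Y2) * (Y2⁻¹ * Y1))
        have g4 := E.D.L.mul (X2⁻¹ * Y2) (Y2⁻¹ * Y1)
        omega

end

end Pool.Agent.RET
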