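import Pool.Agent.RET.Defs
/-!
# Numbering of strings
-/
namespace Pool.Agent.RET
open Pool.Agent.SLX Pool.Agent.REL

private theorem L1_lex (a b : List ℕ) : List.Lex (· < ·) a b ↔ a < b := Iff.rfl

private theorem L1_irrefl {B : Type} (r : B → ℕ) (u : List B) : ¬ Sl r u u := by
  rintro (h | ⟨_, h⟩)
  · exact lt_irrefl _ h
  · rw [L1_lex] at h
    exact lt_irrefl _ h

private theorem L1_trans {B : Type} (r : B → ℕ) {u v w : List B} (h1 : Sl r u v)
    (h2 : Sl r v w) : Sl r u w := by
  rcases h1 with h1 | ⟨h1, h1'⟩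
  · rcases h2 with h2 | ⟨h2, _⟩
    · exact Or.inl (h1.trans h2)
    · exact Or.inl (h2 ▸ h1)
  · rcases h2 with h2 | ⟨h2, h2'⟩
    · exact Or.inl (h1 ▸ h2)
    · refine Or.inr ⟨h1.trans h2, ?_⟩
      rw [L1_lex] at h1' h2' ⊢
      exact h1'.trans h2'

private theorem L1_total {B : Type} (r : B → ℕ) (hr : Function.Injective r) (u v : List B) :
    Sl r u v ∨ u = v ∨ Sl r v u := by
  rcases lt_trichotomy u.length v.length with h | h | h
  · exact Or.inl (Or.inl h)
  · rcases lt_trichotomy (u.map r) (v.map r) with h' | h' | h'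
    · exact Or.inl (Or.inr ⟨h, h'⟩)
    · exact Or.inr (Or.inl (List.map_injective_iff.mpr hr h'))
    · exact Or.inr (Or.inr (Or.inr ⟨h.symm, h'⟩))
  · exact Or.inr (Or.inr (Or.inl h))

theorem exists_num {B : Type} [Finite B] (r : B → ℕ) (hr : Function.Injective r) :
    ∃ num : List B → ℕ, Function.Injective num ∧ ∀ u v, num u < num v ↔ Sl r u v := by
  have hfin : ∀ u : List B, {w | Sl r w u}.Finite := by
    intro u
    refine (List.finite_length_le B u.length).subset ?_
    rintro w (h | ⟨h, _⟩)
    · exact h.le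
    · exact h.le
  have hlt : ∀ u v, Sl r u v → {w | Sl r w u}.ncard < {w | Sl r w v}.ncard := by
    intro u v h
    refine Set.ncard_lt_ncard ?_ (hfin v)
    refine ⟨fun w hw => L1_trans r hw h, fun hc => ?_⟩
    exact L1_irrefl r u (hc h)
  refine ⟨fun u => {w | Sl r w u}.ncard, ?_, ?_⟩
  · intro u v h
    rcases L1_total r hr u v with h' | h' | h'
    · exact absurd h (hlt u v h').ne
    · exact h'
    · exact absurd h (hlt v u h').ne'
  · intro u v
    constructor
    · intro h
      rcases L1_total r hr u v with h' | h' | h'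
      · exact h'
      · rw [h'] at h
        exact absurd h (lt_irrefl _)
      · exact absurd h (hlt v u h').le.not_gt
    · exact hlt u v

end Pool.Agent.RET
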