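import Pool.Agent.RET.Nf
import Pool.Agent.REL.Can
/-!
# The order and the canonical points, by recursion on the level
-/
namespace Pool.Agent.RET
open Pool.Agent.SLX Pool.Agent.REL

section
variable {G ι : Type} [Group G] {P : ι → Subgroup G} {A : Set G}

/-- the data -/
private structure OdH (P : ι → Subgroup G) (A : Set G) where
  L : PLen P A
  NE : ℕ
  hE : EntryB L NE
  B : ℕ
  hEB : NE ≤ B
  h0 : PenB L 0 B
  hδ : 2 * L.δ ≤ B
  h1 : 1 ≤ B
  ord : G → ℕ
  ord_inj : ∀ s t, ord s = ord t → s = t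

/-- the key -/
private def odKey (ord : G → ℕ) (w : G → List ℕ) (a : G) : (List ℕ) ×ₗ ℕ := toLex (w a, ord a)

private theorem odKey_lt (ord : G → ℕ) (w : G → List ℕ) (a b : G) :
    odKey ord w a < odKey ord w b ↔ w a < w b ∨ (w a = w b ∧ ord a < ord b) := by
  unfold odKey
  rw [Prod.Lex.toLex_lt_toLex]

/-- the canonical points for the words `w` -/
private def odCan (P : ι → Subgroup G) (A : Set G) (ord : G → ℕ) (w : G → List ℕ) (i : ι)
    (h : G) : Prop :=
  Minc P A i h ∧ ∀ p ∈ P i, rl P A (h * p) = rl P A h → ¬ odKey ord w (h * p) < odKey ord w h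

private theorem odCan_unique (H : OdH P A) (w : G → List ℕ) (i : ι) (g : G) :
    ∃! p, p ∈ P i ∧ odCan P A H.ord w i (g * p) := by
  -- an entry point
  obtain ⟨q0, hq0, hmin⟩ : ∃ q0, q0 ∈ P i ∧ ∀ q ∈ P i, rl P A (g * q0) ≤ rl P A (g * q) := by
    have hne : {n | ∃ q ∈ P i, rl P A (g * q) = n}.Nonempty := ⟨_, 1, (P i).one_mem, rfl⟩
    obtain ⟨q0, hq0, h⟩ := Nat.sInf_mem hne
    refine ⟨q0, hq0, fun q hq => ?_⟩
    rw [h]
    exact Nat.sInf_le ⟨q, hq, rfl⟩
  have hM0 : Minc P A i (g * q0) := by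
    intro p hp
    rw [mul_assoc]
    exact hmin _ ((P i).mul_mem hq0 hp)
  let E : Set G := {q | q ∈ P i ∧ rl P A (g * q) = rl P A (g * q0)}
  have hEf : E.Finite := by
    refine ((H.L.fin H.NE).image (fun p => q0 * p)).subset ?_
    rintro q ⟨hq, hr⟩
    refine ⟨q0⁻¹ * q, ?_, mul_inv_cancel_left _ _⟩
    refine H.hE i (g * q0) (q0⁻¹ * q) ((P i).mul_mem ((P i).inv_mem hq0) hq) hM0 ?_
    rw [show g * q0 * (q0⁻¹ * q) = g * q by group]
    exact hr
  have hEn : E.Nonempty := ⟨q0, hq0, rfl⟩
  obtain ⟨a, ⟨ha, har⟩, hamin⟩ := Set.exists_min_image E (fun q => odKey H.ord w (g * q)) hEf hEn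
  have hMa : Minc P A i (g * a) := by
    intro p hp
    rw [har, mul_assoc]
    exact hmin _ ((P i).mul_mem ha hp)
  refine ⟨a, ⟨ha, hMa, ?_⟩, ?_⟩
  · intro p hp hr
    rw [not_lt, mul_assoc]
    refine hamin (a * p) ⟨(P i).mul_mem ha hp, ?_⟩
    rw [← mul_assoc, hr, har]
  · rintro b ⟨hb, hMb, hcb⟩
    have hrb : rl P A (g * b) = rl P A (g * a) := by
      apply le_antisymm
      · have := hMb (b⁻¹ * a) ((P i).mul_mem ((P i).inv_mem hb) ha)
        rwa [show g * b * (b⁻¹ * a) = g * a by group] at this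
      · have := hMa (a⁻¹ * b) ((P i).mul_mem ((P i).inv_mem ha) hb)
        rwa [show g * a * (a⁻¹ * b) = g * b by group] at this
    have h1 := hcb (b⁻¹ * a) ((P i).mul_mem ((P i).inv_mem hb) ha)
    rw [show g * b * (b⁻¹ * a) = g * a by group] at h1
    have h2 := h1 hrb.symm
    have h3 := hamin b ⟨hb, hrb.trans har⟩
    have h4 : odKey H.ord w (g * a) = odKey H.ord w (g * b) := le_antisymm h3 (not_lt.1 h2)
    have h5 : H.ord (g * a) = H.ord (g * b) := by
      have h6 := congrArg (fun x => (ofLex x).2) h4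
      exact h6
    have h6 := H.ord_inj _ _ h5
    exact (mul_left_cancel h6).symm

/-- the normal form data for the words `w` -/
private def odNd (H : OdH P A) (w : G → List ℕ) : Nd P A where
  L := H.L
  can := odCan P A H.ord w
  can_minc := fun _ _ h => h.1
  can_unique := odCan_unique H w
  NE := H.NE
  hE := H.hE
  B := H.B
  hEB := H.hEB
  h0 := H.h0
  hδ := H.hδ
  h1 := H.h1
  ord := H.ord
  ord_inj := H.ord_inj

open Classical in
/-- the words of the elements of level at most `n` -/
private noncomputable def odW (H : OdH P A) : ℕ → G → List ℕ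
  | 0, _ => []
  | n + 1, g => if hg : g = 1 then [] else
      odW H n (g * (step_pred (odNd H (odW H n)) hg).choose⁻¹) ++
        [H.ord (step_pred (odNd H (odW H n)) hg).choose]

/-- the word -/
private noncomputable def odO (H : OdH P A) (g : G) : List ℕ := odW H (rl P A g) g

private theorem odCan_congr (ord : G → ℕ) {w w' : G → List ℕ} {i : ι} {g : G}
    (h : ∀ x, rl P A x = rl P A g → w x = w' x) (hc : odCan P A ord w i g) :
    odCan P A ord w' i g := by
  refine ⟨hc.1, ?_⟩
  intro p hp hr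
  have h1 := hc.2 p hp hr
  rw [odKey_lt] at h1 ⊢
  rw [← h _ hr, ← h g rfl]
  exact h1

private theorem odStep_congr (H : OdH P A) {w w' : G → List ℕ} {g s : G}
    (h : ∀ x, rl P A x = rl P A g → w x = w' x) (hs : Step (odNd H w) g s) :
    Step (odNd H w') g s := by
  obtain ⟨h1, h2, h3⟩ := hs
  refine ⟨h1, h2, ?_⟩
  rcases h3 with ⟨i, hi, hl, hc⟩ | ⟨hl, hf, ho⟩
  · exact Or.inl ⟨i, hi, hl, odCan_congr H.ord h hc⟩
  · refine Or.inr ⟨hl, ?_, ho⟩
    rintro ⟨i, p, hp, hlp, hc⟩
    apply hf
    refine ⟨i, p, hp, hlp, ?_⟩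
    have h4 : rl P A (g * s * p⁻¹ * p) = rl P A (g * s * p⁻¹) + 1 :=
      minc_step H.L H.hE hp hc.1 (lt_of_le_of_lt H.hEB hlp)
    rw [inv_mul_cancel_right] at h4
    refine odCan_congr H.ord (fun x hx => (h x ?_).symm) hc
    omega

open Classical in
private theorem odO_step (H : OdH P A) {g s : G} (hs : Step (odNd H (odO H)) g s) :
    odO H (g * s) = odO H g ++ [H.ord s] := by
  have h1 : Step (odNd H (odW H (rl P A g))) g s := by
    refine odStep_congr H (fun x hx => ?_) hs
    unfold odO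
    rw [hx]
  have h2 : rl P A (g * s) = rl P A g + 1 := hs.2.1
  have hne : g * s ≠ 1 := by
    intro h
    rw [h, rl_one] at h2
    omega
  have h3 := (step_pred (odNd H (odW H (rl P A g))) hne).choose_spec
  have h4 : (step_pred (odNd H (odW H (rl P A g))) hne).choose = s := by
    symm
    refine h3.2 s ?_
    show Step (odNd H (odW H (rl P A g))) (g * s * s⁻¹) s
    rw [mul_inv_cancel_right]
    exact h1
  have h5 : odO H (g * s) = odW H (rl P A g + 1) (g * s) := by
    show odW H (rl P A (g * s)) (g * s) = _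
    rw [h2]
  rw [h5]
  show (if hg : g * s = 1 then [] else
      odW H (rl P A g) (g * s * (step_pred (odNd H (odW H (rl P A g))) hg).choose⁻¹) ++
        [H.ord (step_pred (odNd H (odW H (rl P A g))) hg).choose]) = _
  rw [dif_neg hne, h4, mul_inv_cancel_right]
  rfl

private theorem odO_pred (H : OdH P A) {n : ℕ} {x : G} (h : rl P A x = n + 1) :
    ∃ g s, x = g * s ∧ rl P A g = n ∧ Step (odNd H (odO H)) g s ∧
      odO H x = odO H g ++ [H.ord s] := by
  have hne : x ≠ 1 := by
    intro h1
    rw [h1, rl_one] at h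
    omega
  obtain ⟨s, hs, _⟩ := step_pred (odNd H (odO H)) hne
  have hs' : Step (odNd H (odO H)) (x * s⁻¹) s := hs
  have h2 := hs'.2.1
  have h3 := odO_step H hs'
  rw [inv_mul_cancel_right] at h2 h3
  exact ⟨x * s⁻¹, s, (inv_mul_cancel_right x s).symm, by omega, hs', h3⟩

private theorem odO_one (H : OdH P A) : odO H (1 : G) = [] := by
  unfold odO
  rw [rl_one]
  rfl

private theorem odO_length (H : OdH P A) : ∀ (n : ℕ) (x : G), rl P A x = n →
    (odO H x).length = n := by
  intro n
  induction n with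
  | zero =>
    intro x hx
    rw [rl_zero H.L hx, odO_one]
    rfl
  | succ n ih =>
    intro x hx
    obtain ⟨g, s, _, hg, _, he⟩ := odO_pred H hx
    rw [he, List.length_append, ih g hg]
    rfl

private theorem odO_inj (H : OdH P A) : ∀ (n : ℕ) (x y : G), rl P A x = n → rl P A y = n →
    odO H x = odO H y → x = y := by
  intro n
  induction n with
  | zero =>
    intro x y hx hy _
    rw [rl_zero H.L hx, rl_zero H.L hy]
  | succ n ih =>
    intro x y hx hy h
    obtain ⟨g, s, hxe, hg, _, he⟩ := odO_pred H hx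
    obtain ⟨g', s', hye, hg', _, he'⟩ := odO_pred H hy
    rw [he, he'] at h
    have h1 := List.append_inj h (by rw [odO_length H n g hg, odO_length H n g' hg'])
    have h2 : H.ord s = H.ord s' := by
      have := h1.2
      simpa using this
    rw [hxe, hye, ih g g' hg hg' h1.1, H.ord_inj s s' h2]

/-- lexicographic comparison of two lists of the same length, extended by one element -/
private theorem od_lex : ∀ (a b : List ℕ) (x y : ℕ), a.length = b.length →
    (a ++ [x] < b ++ [y] ↔ a < b ∨ (a = b ∧ x < y)) := by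
  intro a
  induction a with
  | nil =>
    intro b x y hl
    have hb : b = [] := List.length_eq_zero_iff.1 hl.symm
    subst hb
    rw [List.nil_append, List.nil_append, List.cons_lt_cons_iff]
    simp
  | cons c a ih =>
    intro b x y hl
    cases b with
    | nil => simp at hl
    | cons d b =>
      have hl' : a.length = b.length := by simpa using hl
      rw [List.cons_append, List.cons_append, List.cons_lt_cons_iff, List.cons_lt_cons_iff,
        ih b x y hl', List.cons_eq_cons]
      tauto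

theorem exists_od (L : PLen P A) (NE : ℕ) (hE : EntryB L NE) (N1 : ℕ) (hS : SyncB L NE N1)
    (B : ℕ) (hEB : NE ≤ B) (h0 : PenB L 0 B) (hB : PenB L N1 B) (hδ : 2 * L.δ ≤ B) (h1 : 1 ≤ B)
    (ord : G → ℕ) (ord_inj : ∀ s t, ord s = ord t → s = t) :
    ∃ O : Od P A, O.L = L ∧ O.NE = NE ∧ O.N1 = N1 ∧ O.B = B ∧ O.ord = ord := by
  let H : OdH P A := ⟨L, NE, hE, B, hEB, h0, hδ, h1, ord, ord_inj⟩
  refine ⟨{ toNd := odNd H (odO H)
            lt := fun g h => odO H g < odO H h
            lt_one := lt_irrefl _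
            lt_step := ?_
            can_iff := ?_
            N1 := N1
            hS := hS
            hB := hB }, rfl, rfl, rfl, rfl, rfl⟩
  · intro g s h t hs ht hr
    have e1 := odO_step H hs
    have e2 := odO_step H ht
    show odO H (g * s) < odO H (h * t) ↔ odO H g < odO H h ∨ (g = h ∧ ord s < ord t)
    rw [e1, e2, od_lex _ _ _ _ (by rw [odO_length H _ g rfl, odO_length H _ h rfl, hr])]
    constructor
    · rintro (h1 | ⟨h1, h2⟩)
      · exact Or.inl h1
      · exact Or.inr ⟨odO_inj H _ g h rfl hr.symm h1, h2⟩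
    · rintro (h1 | ⟨h1, h2⟩)
      · exact Or.inl h1
      · exact Or.inr ⟨by rw [h1], h2⟩
  · intro i g
    show odCan P A ord (odO H) i g ↔ Minc P A i g ∧
      ∀ p ∈ P i, rl P A (g * p) = rl P A g → ¬ odO H (g * p) < odO H g
    constructor
    · rintro ⟨h1, h2⟩
      refine ⟨h1, fun p hp hr h3 => h2 p hp hr ?_⟩
      rw [odKey_lt]
      exact Or.inl h3
    · rintro ⟨h1, h2⟩
      refine ⟨h1, fun p hp hr h3 => ?_⟩
      rw [odKey_lt] at h3
      rcases h3 with h3 | ⟨h3, h4⟩
      · exact h2 p hp hr h3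
      · rw [odO_inj H _ (g * p) g hr rfl h3] at h4
        exact lt_irrefl _ h4

end

end Pool.Agent.RET
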