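import Pool.Agent.RET.Defs
import Pool.Agent.REL.Rl
import Pool.Agent.SLA.Reg
import Pool.Agent.SLA.Uni
import Pool.Agent.RET.Num
import Pool.Agent.RET.Cmp
/-!
# An order of the letters: long peripheral letters are ordered by their representatives
-/
namespace Pool.Agent.RET
open Pool.Agent.SLX Pool.Agent.SLA Pool.Agent.REL

private theorem l3_fin {B : Type} {K : Set (List B)} (h : K.Finite) :
    Language.IsRegular (K : Language B) := by
  classical
  have : Finite K := h.to_subtype
  have h1 := reg_iUnion (ι := K) (fun i => singL i.1) (fun i => reg_sing i.1)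
  have h2 : ({w | ∃ i : K, w ∈ singL i.1} : Set (List B)) = K := by
    ext w
    constructor
    · rintro ⟨i, hi⟩
      have h3 : w = i.1 := hi
      rw [h3]
      exact i.2
    · intro hw
      exact ⟨⟨w, hw⟩, rfl⟩
  rw [h2] at h1
  exact h1

/-- A language which differs from a regular one by finitely many strings is regular. -/
private theorem l3_near {B : Type} {K : Language B} (hK : K.IsRegular) {F : Set (List B)}
    (hF : F.Finite) {M : Set (List B)} (h : ∀ w, w ∉ F → (w ∈ M ↔ w ∈ K)) :
    Language.IsRegular (M : Language B) := by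
  have h1 : ((F : Language B)ᶜ : Language B).IsRegular := (l3_fin hF).compl
  have h2 := Language.IsRegular.inf hK h1
  let N : Language B := ({w | w ∈ F ∧ w ∈ M} : Set (List B))
  have h3 : N.IsRegular := l3_fin (K := {w | w ∈ F ∧ w ∈ M}) (hF.subset fun w hw => hw.1)
  have h4 := Language.IsRegular.add h2 h3
  have h5 : K ⊓ (F : Language B)ᶜ + N = (M : Language B) := by
    ext w
    rw [Language.mem_add]
    constructor
    · rintro (⟨h6, h7⟩ | h6)
      · exact (h w h7).2 h6
      · exact h6.2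
    · intro hw
      by_cases hF' : w ∈ F
      · exact Or.inr ⟨hF', hw⟩
      · exact Or.inl ⟨(h w hF').1 hw, hF'⟩
  rw [h5] at h4
  exact h4

private theorem l3_arith {a b k x y : ℕ} (hx : x < k) (hy : y < k)
    (h : 2 * (a * k + x) = 2 * (b * k + y)) : a = b ∧ x = y := by
  have h1 : a * k + x = b * k + y := by omega
  have h2 : a = b := by
    rcases lt_trichotomy a b with h3 | h3 | h3
    · have h4 : (a + 1) * k ≤ b * k := Nat.mul_le_mul_right k h3
      rw [Nat.succ_mul] at h4
      omega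
    · exact h3
    · have h4 : (b + 1) * k ≤ a * k := Nat.mul_le_mul_right k h3
      rw [Nat.succ_mul] at h4
      omega
  subst h2
  exact ⟨rfl, by omega⟩

section
variable {G ι : Type} [Group G] {P : ι → Subgroup G} {A : Set G}

theorem exists_ord [Finite ι] (L : PLen P A) (Bt : ι → Type) (btfin : ∀ i, Finite (Bt i))
    (ψ : ∀ i, Bt i → G) (Lg : ∀ i, Language (Bt i)) (reg : ∀ i, (Lg i).IsRegular)
    (mem : ∀ i, ∀ u ∈ Lg i, val (ψ i) u ∈ P i)
    (onto : ∀ i, ∀ p ∈ P i, ∃ u ∈ Lg i, val (ψ i) u = p)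
    (uniq : ∀ i, ∀ u ∈ Lg i, ∀ v ∈ Lg i, val (ψ i) u = val (ψ i) v → u = v)
    (ft : ∀ (i : ι) (h : G), ∃ F : Set G, F.Finite ∧ ∀ u ∈ Lg i, ∀ v ∈ Lg i,
      val (ψ i) u * h = val (ψ i) v →
        ∀ t, (val (ψ i) (u.take t))⁻¹ * val (ψ i) (v.take t) ∈ F) :
    ∃ ord : G → ℕ, (∀ s t, ord s = ord t → s = t) ∧
      ∀ i, ∀ c ∈ P i, ∀ c' ∈ P i, Language.IsRegular {u : List (Bt i) | u ∈ Lg i ∧
        ord (val (ψ i) u * c) < ord (val (ψ i) u * c')} := by
  classical
  have hcount : Countable G := by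
    have h1 : (Set.univ : Set G) = ⋃ n : ℕ, {g | L.l g ≤ n} := by
      ext g
      simp only [Set.mem_univ, Set.mem_iUnion, Set.mem_ofPred_eq, true_iff]
      exact ⟨L.l g, le_rfl⟩
    have h2 : (Set.univ : Set G).Countable := by
      rw [h1]
      exact Set.countable_iUnion fun n => (L.fin n).countable
    exact Set.countable_univ_iff.1 h2
  obtain ⟨ν, hν⟩ := exists_injective_nat G
  have hr0 : ∀ i, ∃ r : Bt i → ℕ, Function.Injective r := by
    intro i
    have := btfin i
    exact exists_injective_nat (Bt i)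
  choose r hr using hr0
  have hnum : ∀ i, ∃ num : List (Bt i) → ℕ, Function.Injective num ∧
      ∀ u v, num u < num v ↔ Sl (r i) u v := by
    intro i
    have := btfin i
    exact exists_num (r i) (hr i)
  choose num hinj hsl using hnum
  have hrep0 : ∀ i, ∀ s : G, ∃ u : List (Bt i), s ∈ P i → u ∈ Lg i ∧ val (ψ i) u = s := by
    intro i s
    by_cases hs : s ∈ P i
    · obtain ⟨u, hu, hv⟩ := onto i s hs
      exact ⟨u, fun _ => ⟨hu, hv⟩⟩
    · exact ⟨[], fun h => absurd h hs⟩
  choose rep hrep using hrep0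
  obtain ⟨k, ⟨idx⟩⟩ := Finite.exists_equiv_fin ι
  let lo : G → ι → ℕ := fun s i => 2 * (num i (rep i s) * k + (idx i : ℕ))
  let ord : G → ℕ := fun s =>
    if h : ∃ i, s ∈ P i ∧ 2 * L.δ < L.l s then lo s h.choose else 2 * ν s + 1
  have hlong : ∀ s i, s ∈ P i → 2 * L.δ < L.l s →
      ord s = 2 * (num i (rep i s) * k + (idx i : ℕ)) := by
    intro s i hs hl
    have h : ∃ i, s ∈ P i ∧ 2 * L.δ < L.l s := ⟨i, hs, hl⟩
    have h1 : ord s = lo s h.choose := dif_pos h
    have h2 : h.choose = i := long_unique L h.choose_spec.1 hs hl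
    rw [h1, h2]
  have hshort : ∀ s, (¬ ∃ i, s ∈ P i ∧ 2 * L.δ < L.l s) → ord s = 2 * ν s + 1 :=
    fun s h => dif_neg h
  refine ⟨ord, ?_, ?_⟩
  · intro s t hst
    by_cases hs : ∃ i, s ∈ P i ∧ 2 * L.δ < L.l s <;> by_cases ht : ∃ i, t ∈ P i ∧ 2 * L.δ < L.l t
    · obtain ⟨i, hi, hli⟩ := hs
      obtain ⟨j, hj, hlj⟩ := ht
      rw [hlong s i hi hli, hlong t j hj hlj] at hst
      obtain ⟨h1, h2⟩ := l3_arith (idx i).2 (idx j).2 hst
      have h3 : i = j := idx.injective (Fin.ext h2)
      subst h3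
      have h4 := hinj i h1
      rw [← (hrep i s hi).2, ← (hrep i t hj).2, h4]
    · obtain ⟨i, hi, hli⟩ := hs
      rw [hlong s i hi hli, hshort t ht] at hst
      omega
    · obtain ⟨j, hj, hlj⟩ := ht
      rw [hlong t j hj hlj, hshort s hs] at hst
      omega
    · rw [hshort s hs, hshort t ht] at hst
      exact hν (by omega)
  · intro i c hc c' hc'
    have := btfin i
    have hB := cmp_regular (ψ i) (Lg i) (reg i) (ft i) (r i) c c'
    have hfin : ∀ d : G, {u : List (Bt i) | u ∈ Lg i ∧ L.l (val (ψ i) u * d) ≤ 2 * L.δ}.Finite := by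
      intro d
      have h1 : ((fun g => g * d) ⁻¹' {g | L.l g ≤ 2 * L.δ}).Finite :=
        (L.fin (2 * L.δ)).preimage (fun a _ b _ hab => mul_right_cancel hab)
      refine Set.Finite.of_injOn (f := val (ψ i)) ?_ ?_ h1
      · intro u hu
        exact hu.2
      · intro u hu v hv huv
        exact uniq i u hu.1 v hv.1 huv
    refine l3_near hB ((hfin c).union (hfin c')) ?_
    intro u hu
    by_cases huL : u ∈ Lg i
    · have h1 : 2 * L.δ < L.l (val (ψ i) u * c) := by
        by_contra h
        exact hu (Or.inl ⟨huL, not_lt.1 h⟩)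
      have h2 : 2 * L.δ < L.l (val (ψ i) u * c') := by
        by_contra h
        exact hu (Or.inr ⟨huL, not_lt.1 h⟩)
      have h3 : val (ψ i) u * c ∈ P i := (P i).mul_mem (mem i u huL) hc
      have h4 : val (ψ i) u * c' ∈ P i := (P i).mul_mem (mem i u huL) hc'
      have h5 := hlong _ i h3 h1
      have h6 := hlong _ i h4 h2
      have hk : 0 < k := lt_of_le_of_lt (Nat.zero_le _) (idx i).2
      have h7 : ord (val (ψ i) u * c) < ord (val (ψ i) u * c') ↔
          num i (rep i (val (ψ i) u * c)) < num i (rep i (val (ψ i) u * c')) := by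
        rw [h5, h6]
        constructor
        · intro h
          by_contra h'
          have h8 := Nat.mul_le_mul_right k (not_lt.1 h')
          omega
        · intro h
          have h8 : (num i (rep i (val (ψ i) u * c)) + 1) * k ≤
              num i (rep i (val (ψ i) u * c')) * k := Nat.mul_le_mul_right k h
          rw [Nat.succ_mul] at h8
          omega
      obtain ⟨g1, g2⟩ := hrep i _ h3
      obtain ⟨g3, g4⟩ := hrep i _ h4
      constructor
      · rintro ⟨_, h⟩
        exact ⟨huL, _, g1, _, g3, g2.symm, g4.symm, (hsl i _ _).1 (h7.1 h)⟩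
      · rintro ⟨_, v, hv, v', hv', e1, e2, h⟩
        have e3 : v = rep i (val (ψ i) u * c) := uniq i v hv _ g1 (by rw [g2, e1])
        have e4 : v' = rep i (val (ψ i) u * c') := uniq i v' hv' _ g3 (by rw [g4, e2])
        rw [e3, e4] at h
        exact ⟨huL, h7.2 ((hsl i _ _).2 h)⟩
    · constructor
      · rintro ⟨h, _⟩
        exact absurd h huL
      · rintro ⟨h, _⟩
        exact absurd h huL

end

end Pool.Agent.RET
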