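import Pool.Agent.RET.Defs
import Pool.Agent.REL.Entry
import Pool.Agent.REL.ClaimB
import Pool.Agent.REL.Can
/-!
# The projection to a peripheral subgroup
-/
namespace Pool.Agent.RET
open Pool.Agent.SLX Pool.Agent.REL

section
variable {G ι : Type} [Group G] {P : ι → Subgroup G} {A : Set G}

/-- an element of `P i` closest to `x` in the relative length -/
private theorem E1_closest (P : ι → Subgroup G) (A : Set G) (i : ι) (x : G) :
    ∃ a ∈ P i, Minc P A i (x⁻¹ * a) := by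
  classical
  have hne : ∃ n : ℕ, ∃ a ∈ P i, rl P A (x⁻¹ * a) = n := ⟨_, 1, (P i).one_mem, rfl⟩
  obtain ⟨a, ha, hn⟩ := Nat.find_spec hne
  refine ⟨a, ha, fun p hp => ?_⟩
  rw [hn, mul_assoc]
  exact Nat.find_min' hne ⟨a * p, (P i).mul_mem ha hp, rfl⟩

private theorem E1_bound (L : PLen P A) (i : ι) (hinf : (P i : Set G).Infinite) {NE R : ℕ}
    (hE : EntryB L NE)
    (hR : ∀ (n : ℕ) (z : ℕ → G) (k : ℕ) (x : ℕ → G),
      GeoP L.l P A n z → RGeo P A k x → x 0 = z 0 → x k = z n →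
      ∀ i, i ≤ k → ∃ j, j ≤ n ∧ L.l ((x i)⁻¹ * z j) ≤ R)
    (x a : G) (ha : a ∈ P i) (hm : Minc P A i (x⁻¹ * a)) :
    L.l (x⁻¹ * a) ≤ L.β i x + (L.δ + 2 * R) := by
  obtain ⟨q, hq, hql⟩ : ∃ q ∈ P i, NE + 2 * R + 2 * L.δ + 1 < L.l q := by
    obtain ⟨q, hq, hq'⟩ := hinf.exists_notMem_finite (L.fin (NE + 2 * R + 2 * L.δ + 1))
    exact ⟨q, hq, not_le.1 hq'⟩
  have h1 : rl P A ((x⁻¹ * a) * q) = rl P A (x⁻¹ * a) + 1 := minc_step L hE hq hm (by omega)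
  have hq1 : rl P A q = 1 := by
    have h2 : rl P A q ≤ 1 := rl_letter (Or.inr ⟨i, hq⟩)
    have h3 : rl P A q ≠ 0 := by
      intro h
      have h4 := rl_zero L h
      rw [h4, L.one] at hql
      omega
    omega
  obtain ⟨w, w0, w1, w2, hw⟩ := exists_rgeo_through L (x⁻¹ * a) q (by rw [h1, hq1])
  obtain ⟨n, z, z0, zn, hz⟩ := L.geo ((x⁻¹ * a) * q)
  obtain ⟨j, hj, hjR⟩ := hR n z (rl P A (x⁻¹ * a) + rl P A q) w hz hw (by rw [w0, z0])
    (by rw [w2, zn]) (rl P A (x⁻¹ * a)) (Nat.le_add_right _ _)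
  rw [w1] at hjR
  have h5 := hz.2 0 j n (Nat.zero_le _) hj le_rfl
  rw [z0, zn, inv_one, one_mul, one_mul] at h5
  have h6 : L.l (x⁻¹ * a) ≤ L.l (z j) + R := by
    have e : x⁻¹ * a = z j * ((x⁻¹ * a)⁻¹ * z j)⁻¹ := by group
    calc L.l (x⁻¹ * a) = L.l (z j * ((x⁻¹ * a)⁻¹ * z j)⁻¹) := by rw [← e]
      _ ≤ L.l (z j) + L.l ((x⁻¹ * a)⁻¹ * z j)⁻¹ := L.mul _ _
      _ ≤ L.l (z j) + R := by rw [L.inv]; omega
  have h7 : L.l q ≤ R + L.l ((z j)⁻¹ * (x⁻¹ * a * q)) := by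
    have e : q = ((x⁻¹ * a)⁻¹ * z j) * ((z j)⁻¹ * (x⁻¹ * a * q)) := by group
    calc L.l q = L.l (((x⁻¹ * a)⁻¹ * z j) * ((z j)⁻¹ * (x⁻¹ * a * q))) := by rw [← e]
      _ ≤ L.l ((x⁻¹ * a)⁻¹ * z j) + L.l ((z j)⁻¹ * (x⁻¹ * a * q)) := L.mul _ _
      _ ≤ R + L.l ((z j)⁻¹ * (x⁻¹ * a * q)) := by omega
  have h8 := L.β_hyp i x (a * q) a
  have h9 : L.β i (a * q) ≤ L.δ := L.β_on i _ ((P i).mul_mem ha hq)
  have h10 : L.l (x⁻¹ * (a * q)) = L.l (x⁻¹ * a * q) := by rw [mul_assoc]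
  have h11 : L.l ((a * q)⁻¹ * a) = L.l q := by
    have e : (a * q)⁻¹ * a = q⁻¹ := by group
    rw [e, L.inv]
  rw [h10, h11] at h8
  rcases le_total (L.l (x⁻¹ * a) + L.β i (a * q)) (L.l q + L.β i x) with h | h
  · rw [max_eq_right h] at h8
    omega
  · rw [max_eq_left h] at h8
    omega

/-! E1 (Proj.lean; uses REL.exists_entry, REL.claimB, REL.minc_step): the projection to `P i` -/
theorem exists_proj (L : PLen P A) (i : ι) (hinf : (P i : Set G).Infinite) :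
    ∃ (r : G → G) (c : ℕ), (∀ x, r x ∈ P i) ∧ (∀ x ∈ P i, r x = x) ∧
      ∀ x, L.l (x⁻¹ * r x) ≤ L.β i x + c := by
  classical
  obtain ⟨NE, hE⟩ := exists_entry L
  obtain ⟨R, hR⟩ := claimB L
  choose s hs1 hs2 using fun x : G => E1_closest P A i x
  refine ⟨fun x => if x ∈ P i then x else s x, L.δ + 2 * R, ?_, ?_, ?_⟩
  · intro x
    by_cases hx : x ∈ P i
    · show (if x ∈ P i then x else s x) ∈ P i
      rw [if_pos hx]
      exact hx
    · show (if x ∈ P i then x else s x) ∈ P i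
      rw [if_neg hx]
      exact hs1 x
  · intro x hx
    exact if_pos hx
  · intro x
    by_cases hx : x ∈ P i
    · show L.l (x⁻¹ * (if x ∈ P i then x else s x)) ≤ _
      rw [if_pos hx, inv_mul_cancel, L.one]
      exact Nat.zero_le _
    · show L.l (x⁻¹ * (if x ∈ P i then x else s x)) ≤ _
      rw [if_neg hx]
      exact E1_bound L i hinf hE hR x (s x) (hs1 x) (hs2 x)

end

end Pool.Agent.RET
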