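import Pool.Agent.RET.Defs
import Pool.Agent.RET.Proj
import Pool.Agent.RET.Contr
import Pool.Agent.VH.GRet
/-!
# The peripheral subgroups of a coarse retract are coarse retracts
-/
namespace Pool.Agent.RET
open Pool.Agent.SLX Pool.Agent.SLA Pool.Agent.REL

section
variable {G ι : Type} [Group G] {P : ι → Subgroup G} {A : Set G}

/-- word length bounds on balls -/
private theorem pgret_ball {B Γ : Type} [Group Γ] {π : B → Γ} {j : G →* Γ}
    (hgen : ∀ g : Γ, ∃ w, val π w = g) (L : PLen P A) (k : ℕ) :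
    ∃ b : ℕ, ∀ g : G, L.l g ≤ k → VH.Wl π b (j g) := by
  classical
  choose w hw using hgen
  obtain ⟨b, hb⟩ := ((L.fin k).image fun g => (w (j g)).length).bddAbove
  exact ⟨b, fun g hg => ⟨w (j g), hb ⟨g, hg, rfl⟩, hw _⟩⟩

/-- finite peripheral subgroups -/
private theorem pgret_finite {B Γ : Type} [Group Γ] {π : B → Γ} {j : G →* Γ} {ρ : Γ → G}
    (hgen : ∀ g : Γ, ∃ w, val π w = g) (h : VH.GRet π j ρ) (i : ι)
    (hfin : (P i : Set G).Finite) :
    ∃ ρ' : G → P i, VH.GRet π (j.comp (P i).subtype) (fun x => ρ' (ρ x)) := by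
  classical
  have hf : Finite (P i) := hfin.to_subtype
  choose w hw using hgen
  obtain ⟨b, hb⟩ := (Set.finite_range (fun pq : P i × P i =>
    (w ((j pq.1)⁻¹ * j pq.2)).length)).bddAbove
  refine ⟨fun x => if hx : x ∈ P i then ⟨x, hx⟩ else 1, fun a => ?_, b, fun n x y _ => ?_⟩
  · have e : ρ (j (a : G)) = a := h.1 _
    show (if hx : ρ (j (a : G)) ∈ P i then (⟨_, hx⟩ : P i) else 1) = a
    rw [dif_pos (by rw [e]; exact a.2)]
    exact Subtype.ext e
  · refine VH.wl_mono (Nat.le_add_left b n) ⟨_, hb ⟨⟨_, _⟩, rfl⟩, hw _⟩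

/-- one step near the subgroup moves the projection by a bounded amount -/
private theorem pgret_step (L : PLen P A) (i : ι) (r : G → G) (c R M : ℕ)
    (h1 : ∀ x, r x ∈ P i) (h2 : ∀ x, L.l (x⁻¹ * r x) ≤ L.β i x + c) (x y : G)
    (hxy : L.l (x⁻¹ * y) ≤ M) (hn : L.l (x⁻¹ * r x) ≤ R) :
    L.l ((r x)⁻¹ * r y) ≤ R + M + (L.δ + R + M + c) := by
  have e1 := L.β_lip i x (r x)
  have e2 := L.β_on i (r x) (h1 x)
  have e3 := L.β_lip i y x
  have e4 : L.l (y⁻¹ * x) = L.l (x⁻¹ * y) := by
    rw [← L.inv, mul_inv_rev, inv_inv]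
  have e5 := h2 y
  have e6 : (r x)⁻¹ * r y = (x⁻¹ * r x)⁻¹ * (x⁻¹ * y) * (y⁻¹ * r y) := by group
  have e7 := L.mul ((x⁻¹ * r x)⁻¹ * (x⁻¹ * y)) (y⁻¹ * r y)
  have e8 := L.mul (x⁻¹ * r x)⁻¹ (x⁻¹ * y)
  rw [L.inv] at e8
  rw [e6]
  omega

/-- The peripheral subgroups of a coarse retract are coarse retracts. -/
theorem peri_gret {B Γ : Type} [Finite B] [Group Γ] {π : B → Γ} {j : G →* Γ} {ρ : Γ → G}
    (hgen : ∀ g : Γ, ∃ w, val π w = g) (h : VH.GRet π j ρ) (L : PLen P A) (i : ι) :
    ∃ ρ' : G → P i, VH.GRet π (j.comp (P i).subtype) (fun x => ρ' (ρ x)) := by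
  classical
  obtain ⟨h1, C, h2⟩ := id h
  by_cases hfin : (P i : Set G).Finite
  · exact pgret_finite hgen h i hfin
  obtain ⟨r, c, hr1, hr2, hr3⟩ := exists_proj L i hfin
  have hF : (j ⁻¹' {g : Γ | VH.Wl π (1 + C) g}).Finite :=
    (VH.ball_finite π (1 + C)).preimage (VH.gret_inj h).injOn
  obtain ⟨M, hM⟩ : ∃ M, ∀ g, VH.Wl π (1 + C) (j g) → L.l g ≤ M := by
    obtain ⟨M, hM⟩ := (hF.image L.l).bddAbove
    exact ⟨M, fun g hg => hM ⟨g, hg, rfl⟩⟩
  obtain ⟨c0, hc0⟩ := contract L i r c hr1 hr3 M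
  obtain ⟨c1, hc1⟩ := pgret_ball (j := j) hgen L c0
  obtain ⟨R, hR⟩ := hc0 (c1 + 1)
  obtain ⟨R1, hR1⟩ := pgret_ball (j := j) hgen L R
  obtain ⟨R2, hR2⟩ := pgret_ball (j := j) hgen L (R + M + (L.δ + R + M + c))
  refine ⟨fun x => ⟨r x, hr1 x⟩, fun a => ?_, 2 * c1 + 2 * R2 + 2 * R1 + C, ?_⟩
  · apply Subtype.ext
    show r (ρ (j (a : G))) = a
    rw [h1]
    exact hr2 a a.2
  rintro n x y ⟨w, hw, hwv⟩
  have hy : y = x * val π w := by rw [hwv]; group
  obtain ⟨X, hX⟩ : ∃ X : ℕ → Γ, ∀ k, X k = x * val π (w.take k) := ⟨_, fun _ => rfl⟩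
  obtain ⟨f, hf⟩ : ∃ f : ℕ → G, ∀ k, f k = ρ (X k) := ⟨_, fun _ => rfl⟩
  have hX0 : X 0 = x := by
    rw [hX, List.take_zero]
    exact mul_one x
  have hXm : X w.length = y := by
    rw [hX, List.take_length, hy]
  have hXX : ∀ i k : ℕ, i ≤ k → VH.Wl π (k - i) ((X i)⁻¹ * X k) := by
    intro i k hik
    refine ⟨(w.drop i).take (k - i), by rw [List.length_take]; omega, ?_⟩
    have e1 : w.take k = w.take i ++ (w.drop i).take (k - i) := by
      have : k = i + (k - i) := by omega
      conv_lhs => rw [this, List.take_add]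
    rw [hX, hX, e1, VH.val_app]
    group
  have hff : ∀ i k : ℕ, i ≤ k → VH.Wl π (k - i + C) ((j (f i))⁻¹ * j (f k)) := by
    intro i k hik
    rw [hf, hf]
    exact h2 _ _ _ (hXX i k hik)
  have hstep : ∀ t, L.l ((f t)⁻¹ * f (t + 1)) ≤ M := by
    intro t
    apply hM
    have e := hff t (t + 1) (Nat.le_succ t)
    rw [Nat.add_sub_cancel_left] at e
    rw [map_mul, map_inv]
    exact e
  -- the pieces far from the subgroup
  have hfar : ∀ m a : ℕ, (∀ t, a ≤ t → t ≤ a + m → R < L.l ((f t)⁻¹ * r (f t))) →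
      VH.Wl π (m + c1) ((j (r (f a)))⁻¹ * j (r (f (a + m)))) := by
    intro m
    induction m using Nat.strong_induction_on with
    | _ m ih =>
      intro a ha
      by_cases hm : m ≤ c1 + 1
      · have e1 := hR m (fun t => f (a + t)) hm (fun t _ => hstep (a + t))
          (fun t ht => ha (a + t) (by omega) (by omega))
        have e2 := hc1 _ e1
        rw [map_mul, map_inv] at e2
        exact VH.wl_mono (Nat.le_add_left c1 m) e2
      · have e1 := hR (c1 + 1) (fun t => f (a + t)) le_rfl (fun t _ => hstep (a + t))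
          (fun t ht => ha (a + t) (by omega) (by omega))
        have e2 := hc1 _ e1
        rw [map_mul, map_inv] at e2
        have e3 := ih (m - (c1 + 1)) (by omega) (a + (c1 + 1))
          (fun t h3 h4 => ha t (by omega) (by omega))
        have e4 : a + (c1 + 1) + (m - (c1 + 1)) = a + m := by omega
        rw [e4] at e3
        have e5 := VH.wl_mul e2 e3
        have e6 : (j (r (f (a + 0))))⁻¹ * j (r (f (a + (c1 + 1)))) *
            ((j (r (f (a + (c1 + 1)))))⁻¹ * j (r (f (a + m)))) =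
            (j (r (f a)))⁻¹ * j (r (f (a + m))) := by
          rw [Nat.add_zero]
          group
        rw [← e6]
        exact VH.wl_mono (by omega) e5
  -- one step near the subgroup
  have hnear : ∀ t, (L.l ((f t)⁻¹ * r (f t)) ≤ R ∨ L.l ((f (t + 1))⁻¹ * r (f (t + 1))) ≤ R) →
      VH.Wl π R2 ((j (r (f t)))⁻¹ * j (r (f (t + 1)))) := by
    intro t ht
    rw [← map_inv, ← map_mul]
    apply hR2
    rcases ht with ht | ht
    · exact pgret_step L i r c R M hr1 hr3 _ _ (hstep t) ht
    · have e1 : L.l ((f (t + 1))⁻¹ * f t) ≤ M := by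
        rw [← L.inv, mul_inv_rev, inv_inv]
        exact hstep t
      have e2 := pgret_step L i r c R M hr1 hr3 _ _ e1 ht
      rw [← L.inv, mul_inv_rev, inv_inv]
      exact e2
  have hgoal : VH.Wl π (w.length + (2 * c1 + 2 * R2 + 2 * R1 + C))
      ((j (r (f 0)))⁻¹ * j (r (f w.length))) := by
    by_cases hex : ∃ t, t ≤ w.length ∧ L.l ((f t)⁻¹ * r (f t)) ≤ R
    · -- first and last near time
      have hex2 : ∃ s, s ≤ w.length ∧
          L.l ((f (w.length - s))⁻¹ * r (f (w.length - s))) ≤ R := by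
        obtain ⟨t, ht1, ht2⟩ := hex
        exact ⟨w.length - t, Nat.sub_le _ _, by rwa [Nat.sub_sub_self ht1]⟩
      obtain ⟨ht1, ht1n⟩ := Nat.find_spec hex
      have ht1m : ∀ t, t < Nat.find hex → R < L.l ((f t)⁻¹ * r (f t)) := by
        intro t ht
        have := Nat.find_min hex ht
        push Not at this
        exact this (by omega)
      obtain ⟨hs, hsn⟩ := Nat.find_spec hex2
      have ht2m : ∀ t, w.length - Nat.find hex2 < t → t ≤ w.length →
          R < L.l ((f t)⁻¹ * r (f t)) := by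
        intro t ht htl
        have := Nat.find_min hex2 (m := w.length - t) (by omega)
        push Not at this
        have h3 := this (by omega)
        rwa [Nat.sub_sub_self htl] at h3
      have h12 : Nat.find hex ≤ w.length - Nat.find hex2 :=
        Nat.find_min' hex ⟨Nat.sub_le _ _, hsn⟩
      generalize Nat.find hex = t1 at ht1 ht1n ht1m h12
      generalize hs0 : Nat.find hex2 = s0 at hs hsn ht2m h12
      obtain ⟨t2, ht2⟩ : ∃ t2, t2 = w.length - s0 := ⟨_, rfl⟩
      rw [← ht2] at hsn ht2m h12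
      -- left piece
      have hleft : VH.Wl π (t1 + c1 + R2) ((j (r (f 0)))⁻¹ * j (r (f t1))) := by
        rcases Nat.eq_zero_or_pos t1 with h0 | h0
        · rw [h0, inv_mul_cancel]
          exact VH.wl_mono (Nat.zero_le _) VH.wl_one
        · have e1 := hfar (t1 - 1) 0 (fun t _ ht => ht1m t (by omega))
          have e2 := hnear (t1 - 1) (Or.inr (by rwa [Nat.sub_add_cancel h0]))
          rw [Nat.sub_add_cancel h0] at e2
          rw [Nat.zero_add] at e1
          have e3 := VH.wl_mul e1 e2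
          have e4 : (j (r (f 0)))⁻¹ * j (r (f (t1 - 1))) *
              ((j (r (f (t1 - 1))))⁻¹ * j (r (f t1))) =
              (j (r (f 0)))⁻¹ * j (r (f t1)) := by group
          rw [← e4]
          exact VH.wl_mono (by omega) e3
      -- right piece
      have hright : VH.Wl π (w.length - t2 + c1 + R2)
          ((j (r (f t2)))⁻¹ * j (r (f w.length))) := by
        rcases Nat.eq_or_lt_of_le (show t2 ≤ w.length by omega) with h0 | h0
        · rw [h0, inv_mul_cancel]
          exact VH.wl_mono (Nat.zero_le _) VH.wl_one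
        · have e1 := hfar (w.length - t2 - 1) (t2 + 1)
            (fun t h3 h4 => ht2m t (by omega) (by omega))
          have e2 := hnear t2 (Or.inl hsn)
          have e5 : t2 + 1 + (w.length - t2 - 1) = w.length := by omega
          rw [e5] at e1
          have e3 := VH.wl_mul e2 e1
          have e4 : (j (r (f t2)))⁻¹ * j (r (f (t2 + 1))) *
              ((j (r (f (t2 + 1))))⁻¹ * j (r (f w.length))) =
              (j (r (f t2)))⁻¹ * j (r (f w.length)) := by group
          rw [← e4]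
          exact VH.wl_mono (by omega) e3
      -- middle piece
      have hmid : VH.Wl π (R1 + (t2 - t1 + C) + R1) ((j (r (f t1)))⁻¹ * j (r (f t2))) := by
        have e1 : VH.Wl π R1 ((j (r (f t1)))⁻¹ * j (f t1)) := by
          rw [← map_inv, ← map_mul]
          apply hR1
          rw [← L.inv, mul_inv_rev, inv_inv]
          exact ht1n
        have e2 : VH.Wl π R1 ((j (f t2))⁻¹ * j (r (f t2))) := by
          rw [← map_inv, ← map_mul]
          exact hR1 _ hsn
        have e3 := VH.wl_mul (VH.wl_mul e1 (hff t1 t2 h12)) e2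
        have e4 : (j (r (f t1)))⁻¹ * j (f t1) * ((j (f t1))⁻¹ * j (f t2)) *
            ((j (f t2))⁻¹ * j (r (f t2))) = (j (r (f t1)))⁻¹ * j (r (f t2)) := by group
        rw [← e4]
        exact e3
      have e1 := VH.wl_mul (VH.wl_mul hleft hmid) hright
      have e2 : (j (r (f 0)))⁻¹ * j (r (f t1)) * ((j (r (f t1)))⁻¹ * j (r (f t2))) *
          ((j (r (f t2)))⁻¹ * j (r (f w.length))) =
          (j (r (f 0)))⁻¹ * j (r (f w.length)) := by group
      rw [← e2]
      exact VH.wl_mono (by omega) e1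
    · push Not at hex
      have e1 := hfar w.length 0 (fun t _ ht => hex t (by omega))
      rw [Nat.zero_add] at e1
      exact VH.wl_mono (by omega) e1
  rw [hf, hf, hX0, hXm] at hgoal
  exact VH.wl_mono (by omega) hgoal

end

end Pool.Agent.RET
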