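import Pool.Agent.RET.Nf
import Pool.Agent.RET.Comp
import Pool.Agent.RET.CanSt
import Pool.Agent.REL.Can
/-!
# Steps and states
-/
namespace Pool.Agent.RET
open Pool.Agent.SLX Pool.Agent.REL

section
variable {G ι : Type} [Group G] {P : ι → Subgroup G} {A : Set G}

theorem st_symm (O : Od P A) {g g' : G} (h : St O g g') : St O g' g := by
  refine ⟨fun c => (h.1 c).symm, fun c c' hc hc' => ?_⟩
  exact (h.2 c c' ((h.1 c).2 hc) ((h.1 c').2 hc')).symm

/-- Two steps which end at distance at most `N1`: if the first one uses a long element of `P i`, the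
other one lies in the same coset. -/
private theorem Q3_pen (O : Od P A) {a s b t : G} {i : ι} (hs1 : rl P A s = 1)
    (hs : rl P A (a * s) = rl P A a + 1) (ht1 : rl P A t = 1)
    (ht : rl P A (b * t) = rl P A b + 1) (hab : rl P A a = rl P A b)
    (hd : O.L.l ((a * s)⁻¹ * (b * t)) ≤ O.N1) (hsi : s ∈ P i) (hl : O.B < O.L.l s) :
    t ∈ P i ∧ a⁻¹ * b ∈ P i := by
  obtain ⟨x, hx0, hx1, hx2, hx⟩ := exists_rgeo_through O.L a s (by rw [hs, hs1])
  obtain ⟨y, hy0, hy1, hy2, hy⟩ := exists_rgeo_through O.L b t (by rw [ht, ht1])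
  have e0 : O.L.l ((x (rl P A a + rl P A s))⁻¹ * y (rl P A b + rl P A t)) ≤ O.N1 := by
    rw [hx2, hy2]
    exact hd
  rw [hs1] at hx2 hx e0
  rw [ht1] at hy2 hy e0
  have e1 : (x (rl P A a))⁻¹ * x (rl P A a + 1) = s := by
    rw [hx1, hx2]
    group
  obtain ⟨-, k1, k2, -⟩ := O.hB _ _ x y hx hy hx0 hy0 e0 i (rl P A a) (Nat.lt_succ_self _)
    (by rw [e1]; exact hsi) (by rw [e1]; exact hl)
  rw [hab, hy1, hy2] at k1
  rw [hx1, hab, hy1] at k2
  have e2 : b⁻¹ * (b * t) = t := by group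
  rw [e2] at k1
  exact ⟨k1, k2⟩

/-- The steps near `g s` are the same near `g' s`. -/
private theorem Q3_key (O : Od P A) {T T2 : ℕ} (hT : TstF O.L O.NE T) (h1 : O.NE ≤ T2)
    (h2 : T ≤ T2) (h3 : O.N1 + O.B ≤ T2) {g g' s : G} (hL : Loc O.L T2 g g')
    (hL' : Loc O.L T2 (g * s) (g' * s)) (hr : rl P A (g' * s) = rl P A g' + 1) (hst : St O g g')
    (hs1 : rl P A s = 1) (hs : rl P A (g * s) = rl P A g + 1) {c1 t : G}
    (hc1 : O.L.l c1 ≤ O.N1) (hrc : rl P A (g * c1) = rl P A g)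
    (hd : O.L.l (s⁻¹ * (c1 * t)) ≤ O.N1) (ht : Step O.toNd (g * c1) t) :
    Step O.toNd (g' * c1) t := by
  obtain ⟨ht1, htr, hcase⟩ := ht
  -- lengths
  have e0 : ∀ x : G, x * s * (s⁻¹ * (c1 * t)) = x * c1 * t := fun x => by group
  have a1 := hL c1 (by omega)
  have a2 := hL' _ (le_trans hd (by omega))
  rw [e0, e0] at a2
  have a3 : rl P A (g' * c1) = rl P A g' := by omega
  have a4 : rl P A (g' * c1 * t) = rl P A (g' * c1) + 1 := by omega
  have d1 : ∀ x : G, (x * c1 * t)⁻¹ * (x * s) = (s⁻¹ * (c1 * t))⁻¹ := fun x => by group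
  refine ⟨ht1, a4, ?_⟩
  rcases hcase with ⟨i, hti, htl, hcan⟩ | ⟨htl, hfar, hord⟩
  · obtain ⟨hsi, hci⟩ := Q3_pen O ht1 htr hs1 hs hrc (by rw [d1, O.L.inv]; exact hd) hti htl
    have hci' : c1 ∈ P i := by
      have e1 : (g * c1)⁻¹ * g = c1⁻¹ := by group
      rw [e1] at hci
      exact (P i).inv_mem_iff.1 hci
    exact Or.inl ⟨i, hti, htl, can_st O hT h1 h2 hL hst i (minc_of_step O.L hsi hs) c1 hci' hcan⟩
  · refine Or.inr ⟨htl, fun hf => hfar ?_, ?_⟩
    · obtain ⟨i, p, hp, hpl, hcan⟩ := hf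
      have hm := O.can_minc i _ hcan
      have b1 := minc_step O.L O.hE hp hm (lt_of_le_of_lt O.hEB hpl)
      rw [inv_mul_cancel_right] at b1
      have b2 : rl P A p = 1 := by
        have c0 : rl P A p ≤ 1 := rl_letter (Or.inr ⟨i, hp⟩)
        have c2 : rl P A p ≠ 0 := fun h0 => by
          rw [rl_zero O.L h0, O.L.one] at hpl
          omega
        omega
      obtain ⟨hsi, hci⟩ := Q3_pen O (a := g' * c1 * t * p⁻¹) (s := p) (b := g') (t := s) b2
        (by rw [inv_mul_cancel_right]; exact b1) hs1 hr (by omega)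
        (by rw [inv_mul_cancel_right, d1, O.L.inv]; exact hd) hp hpl
      have hci' : c1 * t * p⁻¹ ∈ P i := by
        have e1 : (g' * c1 * t * p⁻¹)⁻¹ * g' = (c1 * t * p⁻¹)⁻¹ := by group
        rw [e1] at hci
        exact (P i).inv_mem_iff.1 hci
      refine ⟨i, p, hp, hpl, ?_⟩
      have e2 : ∀ x : G, x * c1 * t * p⁻¹ = x * (c1 * t * p⁻¹) := fun x => by group
      rw [e2]
      rw [e2] at hcan
      exact can_st O hT h1 h2 (fun y hy => (hL y hy).symm) (st_symm O hst) i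
        (minc_of_step O.L hsi hr) _ hci' hcan
    · intro u hu1 hul hur
      refine hord u hu1 hul ?_
      have a5 := hL' (s⁻¹ * (c1 * t) * u⁻¹) (by
        have h5 := O.L.mul (s⁻¹ * (c1 * t)) u⁻¹
        rw [O.L.inv] at h5
        omega)
      have e3 : ∀ x : G, x * s * (s⁻¹ * (c1 * t) * u⁻¹) = x * c1 * t * u⁻¹ := fun x => by group
      rw [e3, e3] at a5
      omega

/-- The companions of the end of a step. -/
private theorem Q3_dec (O : Od P A) {g s c : G} (hs : Step O.toNd g s)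
    (h : Comp O.toNd O.N1 (g * s) (g * s * c)) : ∃ c1 t, Comp O.toNd O.N1 g (g * c1) ∧
      Step O.toNd (g * c1) t ∧ c1 * t = s * c ∧ O.L.l c ≤ O.N1 := by
  have hne : g * s ≠ 1 := by
    intro h0
    have h1 := hs.2.1
    rw [h0, rl_one] at h1
    omega
  rcases comp_inv O.toNd O.N1 h with ⟨h0, -⟩ | ⟨g1, h1, s1, t, hx, hy, hc, hs1, ht, hl⟩
  · exact absurd h0 hne
  · have hu := (step_pred O.toNd hne).unique (y₁ := s) (y₂ := s1)
      (by rw [mul_inv_cancel_right]; exact hs) (by rw [hx, mul_inv_cancel_right]; exact hs1)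
    subst hu
    have hg : g1 = g := (mul_right_cancel hx).symm
    subst hg
    refine ⟨g1⁻¹ * h1, t, ?_, ?_, ?_, ?_⟩
    · rw [mul_inv_cancel_left]
      exact hc
    · rw [mul_inv_cancel_left]
      exact ht
    · rw [mul_assoc, ← hy]
      group
    · have e : (g1 * s)⁻¹ * (g1 * s * c) = c := by group
      rw [e] at hl
      exact hl

private theorem Q3_half (O : Od P A) {T T2 : ℕ} (hT : TstF O.L O.NE T) (h1 : O.NE ≤ T2)
    (h2 : T ≤ T2) (h3 : O.N1 + O.B ≤ T2) {g g' s : G} (hL : Loc O.L T2 g g')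
    (hL' : Loc O.L T2 (g * s) (g' * s)) (hst : St O g g') (hs : Step O.toNd g s)
    (hs' : Step O.toNd g' s) (c : G) (h : Comp O.toNd O.N1 (g * s) (g * s * c)) :
    ∃ c1 t, c1 * t = s * c ∧ Comp O.toNd O.N1 g (g * c1) ∧ Comp O.toNd O.N1 g' (g' * c1) ∧
      Step O.toNd (g * c1) t ∧ Step O.toNd (g' * c1) t ∧
      Comp O.toNd O.N1 (g' * s) (g' * s * c) := by
  obtain ⟨c1, t, k1, k2, k3, k4⟩ := Q3_dec O hs h
  have k5 := (hst.1 c1).1 k1
  obtain ⟨r1, r2⟩ := comp_rl O.toNd O.N1 k1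
  rw [inv_mul_cancel_left] at r2
  have e1 : s⁻¹ * (c1 * t) = c := by rw [k3]; group
  have k6 : Step O.toNd (g' * c1) t := Q3_key O hT h1 h2 h3 hL hL' hs'.2.1 hst hs.1 hs.2.1 r2
    r1.symm (by rw [e1]; exact k4) k2
  refine ⟨c1, t, k3, k1, k5, k2, k6, ?_⟩
  have e2 : g' * s * c = g' * c1 * t := by rw [mul_assoc, ← k3, mul_assoc]
  rw [e2]
  refine Comp.step k5 hs' k6 ?_
  rw [← e2]
  have e : (g' * s)⁻¹ * (g' * s * c) = c := by group
  rw [e]
  exact k4

theorem step_st (O : Od P A) {T T2 : ℕ} (hT : TstF O.L O.NE T) (h1 : O.NE ≤ T2) (h2 : T ≤ T2)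
    (h3 : O.N1 + O.B ≤ T2) {g g' s : G} (hL : Loc O.L T2 g g')
    (hL' : Loc O.L T2 (g * s) (g' * s)) (hr : rl P A (g' * s) = rl P A g' + 1) (hst : St O g g')
    (hs : Step O.toNd g s) : Step O.toNd g' s ∧ St O (g * s) (g' * s) := by
  have hs' : Step O.toNd g' s := by
    have k := Q3_key O hT h1 h2 h3 hL hL' hr hst hs.1 hs.2.1 (c1 := 1) (t := s)
      (by rw [O.L.one]; exact Nat.zero_le _) (by rw [mul_one])
      (by rw [one_mul, inv_mul_cancel, O.L.one]; exact Nat.zero_le _) (by rw [mul_one]; exact hs)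
    rwa [mul_one] at k
  have hLs : Loc O.L T2 g' g := fun y hy => (hL y hy).symm
  have hLs' : Loc O.L T2 (g' * s) (g * s) := fun y hy => (hL' y hy).symm
  refine ⟨hs', fun c => ⟨fun h => ?_, fun h => ?_⟩, fun c c' hc hc' => ?_⟩
  · obtain ⟨_, _, -, -, -, -, -, k⟩ := Q3_half O hT h1 h2 h3 hL hL' hst hs hs' c h
    exact k
  · obtain ⟨_, _, -, -, -, -, -, k⟩ := Q3_half O hT h1 h2 h3 hLs hLs' (st_symm O hst) hs' hs c h
    exact k
  · obtain ⟨c1, t, k1, k2, k3, k4, k5, -⟩ := Q3_half O hT h1 h2 h3 hL hL' hst hs hs' c hc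
    obtain ⟨c2, u, l1, l2, l3, l4, l5, -⟩ := Q3_half O hT h1 h2 h3 hL hL' hst hs hs' c' hc'
    have e : ∀ x : G, x * s * c = x * c1 * t := fun x => by rw [mul_assoc, ← k1, mul_assoc]
    have e' : ∀ x : G, x * s * c' = x * c2 * u := fun x => by rw [mul_assoc, ← l1, mul_assoc]
    rw [e, e', e, e']
    have r1 := (comp_rl O.toNd O.N1 k2).1
    have r2 := (comp_rl O.toNd O.N1 k3).1
    have r3 := (comp_rl O.toNd O.N1 l2).1
    have r4 := (comp_rl O.toNd O.N1 l3).1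
    rw [O.lt_step _ _ _ _ k4 l4 (by omega), O.lt_step _ _ _ _ k5 l5 (by omega),
      hst.2 c1 c2 k2 l2, mul_right_inj, mul_right_inj]

end

end Pool.Agent.RET
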