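import Pool.Agent.RET.Defs
import Pool.Agent.REL.Types
/-!
# Test elements without torsion conditions
-/
namespace Pool.Agent.RET
open Pool.Agent.SLX Pool.Agent.REL

section
variable {G ι : Type} [Group G] {P : ι → Subgroup G} {A : Set G}

theorem exists_tstF [Finite ι] (L : PLen P A) (N : ℕ) : ∃ T, TstF L N T := by
  have key : ∀ i, ∃ T, (∀ p ∈ P i, L.l p ≤ T) ∨ ∃ p ∈ P i, N < L.l p ∧ L.l p ≤ T := by
    intro i
    by_cases h : ∃ p ∈ P i, N < L.l p
    · obtain ⟨p, hp, hl⟩ := h
      exact ⟨L.l p, Or.inr ⟨p, hp, hl, le_refl _⟩⟩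
    · refine ⟨N, Or.inl fun p hp => ?_⟩
      by_contra hc
      exact h ⟨p, hp, not_le.1 hc⟩
  choose T hT using key
  obtain ⟨M, hM⟩ := (Set.finite_range T).bddAbove
  refine ⟨M, fun i => ?_⟩
  have hi : T i ≤ M := hM ⟨i, rfl⟩
  rcases hT i with h | ⟨p, hp, h1, h2⟩
  · exact Or.inl fun p hp => (h p hp).trans hi
  · exact Or.inr ⟨p, hp, h1, h2.trans hi⟩

theorem minc_loc (L : PLen P A) {NE T T2 : ℕ} (hE : EntryB L NE) (hT : TstF L NE T)
    (h2 : T ≤ T2) {g g' : G} (h : Loc L T2 g g') (i : ι) (hc : Minc P A i g) :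
    Minc P A i g' := by
  rcases hT i with hsmall | ⟨τ, hτ, hτ1, hτ2⟩
  · intro p hp
    have h3 := h p ((hsmall p hp).trans h2)
    have h4 := hc p hp
    omega
  · have d1 := minc_step L hE hτ hc hτ1
    have d2 := h τ (hτ2.trans h2)
    exact minc_of_step L hτ (by omega)

theorem typesF (L : PLen P A) {NE T T2 N : ℕ} (hE : EntryB L NE) (hT : TstF L NE T) (hTT : T ≤ T2)
    (h1 : 1 ≤ T2) (h2 : T2 ≤ N) (hN : NearB L T2 N) (g g' : G) (hg : Loc L N g g') :
    ∀ h : G, rl P A (g * h) = rl P A g + rl P A h →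
      rl P A (g' * h) = rl P A g' + rl P A h ∧ Loc L T2 (g * h) (g' * h) := by
  have key : ∀ (m : ℕ) (h : G), rl P A h = m → rl P A (g * h) = rl P A g + rl P A h →
      rl P A (g' * h) = rl P A g' + rl P A h := by
    intro m
    induction m with
    | zero =>
      intro h hm _
      have hh : h = 1 := rl_zero L hm
      subst hh
      rw [mul_one, hm, add_zero]
    | succ m ih =>
      intro h hm hgh
      obtain ⟨s, hs, hs'⟩ := rl_pred L hm
      have e : h = h * s⁻¹ * s := by group
      have a1 : g * h = g * (h * s⁻¹) * s := by group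
      have a2 : g' * h = g' * (h * s⁻¹) * s := by group
      have b1 : rl P A (g * (h * s⁻¹)) = rl P A g + rl P A (h * s⁻¹) := by
        have c1 := rl_mul L g (h * s⁻¹)
        have c2 := rl_mul L (g * (h * s⁻¹)) s
        rw [← a1] at c2
        omega
      have b2 := ih (h * s⁻¹) hs' b1
      have b3 : Loc L T2 (g * (h * s⁻¹)) (g' * (h * s⁻¹)) := types_loc hN hg b1 b2
      by_cases hls : L.l s ≤ T2
      · have c1 := b3 s hls
        rw [← a1, ← a2] at c1
        omega
      · have hls' : T2 < L.l s := not_le.mp hls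
        obtain ⟨i, hi⟩ := long_letter L hs (by omega)
        have hst : rl P A (g * (h * s⁻¹) * s) = rl P A (g * (h * s⁻¹)) + 1 := by
          rw [← a1]
          omega
        have hmin : Minc P A i (g * (h * s⁻¹)) := minc_of_step L hi hst
        rcases hT i with hsmall | ⟨τ, hτ, hτ1, hτ2⟩
        · have := hsmall s hi
          omega
        · have d1 := minc_step L hE hτ hmin hτ1
          have d2 := b3 τ (le_trans hτ2 hTT)
          have d3 : rl P A (g' * (h * s⁻¹) * τ) = rl P A (g' * (h * s⁻¹)) + 1 := by omega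
          have d4 : Minc P A i (g' * (h * s⁻¹)) := minc_of_step L hτ d3
          have d5 := minc_step L hE hi d4 (by omega)
          rw [← a2] at d5
          omega
  intro h hgh
  have hgh' := key _ h rfl hgh
  exact ⟨hgh', types_loc hN hg hgh hgh'⟩

end

end Pool.Agent.RET
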