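import Pool.Agent.RET.Nf
import Pool.Agent.RET.Tsf
import Pool.Agent.RET.StepSt
/-!
# Words and states
-/
namespace Pool.Agent.RET
open Pool.Agent.SLX Pool.Agent.REL

section
variable {G ι : Type} [Group G] {P : ι → Subgroup G} {A : Set G}

theorem vd_st (O : Od P A) {T T2 N : ℕ} (hT : TstF O.L O.NE T) (h1 : O.NE ≤ T2) (h2 : T ≤ T2)
    (h3 : O.N1 + O.B ≤ T2) (h4 : T2 ≤ N) (hN : NearB O.L T2 N) {g g' : G} (hL : Loc O.L N g g')
    (hst : St O g g') {w : List G} (hw : Vd O.toNd g w) : Vd O.toNd g' w := by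
  have hB : 1 ≤ O.B := O.h1
  have h5 : 1 ≤ T2 := by omega
  have typ := typesF O.L O.hE hT h2 h5 h4 hN g g' hL
  have key : ∀ (w : List G) (h : G), rl P A (g * h) = rl P A g + rl P A h →
      St O (g * h) (g' * h) → Vd O.toNd (g * h) w → Vd O.toNd (g' * h) w := by
    intro w
    induction w with
    | nil => intro _ _ _ _; trivial
    | cons s w ih =>
      intro h hr hs hv
      obtain ⟨hs1, hv1⟩ := hv
      have a1 : rl P A s = 1 := hs1.1
      have a2 : rl P A (g * h * s) = rl P A (g * h) + 1 := hs1.2.1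
      have e1 : g * h * s = g * (h * s) := mul_assoc _ _ _
      have e2 : g' * h * s = g' * (h * s) := mul_assoc _ _ _
      have b1 := rl_mul O.L g (h * s)
      have b2 := rl_mul O.L h s
      rw [e1] at a2
      have hrs : rl P A (g * (h * s)) = rl P A g + rl P A (h * s) := by omega
      have hrs' : rl P A (h * s) = rl P A h + 1 := by omega
      obtain ⟨c1, c2⟩ := typ h hr
      obtain ⟨d1, d2⟩ := typ (h * s) hrs
      have d3 : Loc O.L T2 (g * h * s) (g' * h * s) := by rw [e1, e2]; exact d2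
      have d4 : rl P A (g' * h * s) = rl P A (g' * h) + 1 := by rw [e2]; omega
      obtain ⟨f1, f2⟩ := step_st O hT h1 h2 h3 c2 d3 d4 hs hs1
      refine ⟨f1, ?_⟩
      rw [e1, e2] at f2
      rw [e1] at hv1
      have := ih (h * s) hrs f2 hv1
      rw [e2]
      exact this
  have h6 := key w 1 (by rw [mul_one, rl_one, add_zero]) (by rw [mul_one, mul_one]; exact hst)
    (by rw [mul_one]; exact hw)
  rwa [mul_one] at h6

end

end Pool.Agent.RET
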