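import Pool.Agent.RET.Tsf
import Pool.Agent.RET.Comp
import Pool.Agent.RET.VdSt
import Pool.Agent.REL.Reg
/-!
# The normal forms are a regular language
-/
namespace Pool.Agent.RET
open Pool.Agent.SLX Pool.Agent.SLA Pool.Agent.REL

section
variable {G ι : Type} [Group G] {P : ι → Subgroup G} {A : Set G}

/-- The ball of radius `N`. -/
abbrev rgB (L : PLen P A) (N : ℕ) : Type := {y : G // L.l y ≤ N}

/-- The states. -/
abbrev rgQ (O : Od P A) (N : ℕ) : Type :=
  (rgB O.L N → Set.Icc (-(N : ℤ)) N) ×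
    ((rgB O.L O.N1 → Prop) × (rgB O.L O.N1 → rgB O.L O.N1 → Prop))

/-- The state of `g`: the relative lengths on the ball of radius `N`, the companions and their
order. -/
noncomputable def rgty (O : Od P A) (N : ℕ) (g : G) : rgQ O N :=
  (c7ty O.L N g, (fun c => Comp O.toNd O.N1 g (g * c.1),
    fun c c' => Comp O.toNd O.N1 g (g * c.1) ∧ Comp O.toNd O.N1 g (g * c'.1) ∧
      O.lt (g * c.1) (g * c'.1)))

theorem rg_short (O : Od P A) {g c : G} (h : Comp O.toNd O.N1 g (g * c)) : O.L.l c ≤ O.N1 := by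
  have h1 := (comp_rl O.toNd O.N1 h).2
  rw [inv_mul_cancel_left] at h1
  exact h1

theorem rg_ty (O : Od P A) {N : ℕ} {g g' : G} (h : rgty O N g = rgty O N g') :
    Loc O.L N g g' ∧ St O g g' := by
  have h1 : c7ty O.L N g = c7ty O.L N g' := congrArg (fun q => q.1) h
  have h2 : (fun c : rgB O.L O.N1 => Comp O.toNd O.N1 g (g * c.1)) =
      fun c : rgB O.L O.N1 => Comp O.toNd O.N1 g' (g' * c.1) := congrArg (fun q => q.2.1) h
  have h3 : (fun c c' : rgB O.L O.N1 => Comp O.toNd O.N1 g (g * c.1) ∧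
      Comp O.toNd O.N1 g (g * c'.1) ∧ O.lt (g * c.1) (g * c'.1)) =
      fun c c' : rgB O.L O.N1 => Comp O.toNd O.N1 g' (g' * c.1) ∧
      Comp O.toNd O.N1 g' (g' * c'.1) ∧ O.lt (g' * c.1) (g' * c'.1) :=
    congrArg (fun q => q.2.2) h
  have hC : ∀ c, Comp O.toNd O.N1 g (g * c) ↔ Comp O.toNd O.N1 g' (g' * c) := by
    intro c
    by_cases hc : O.L.l c ≤ O.N1
    · exact iff_of_eq (congrFun h2 ⟨c, hc⟩)
    · exact ⟨fun h4 => absurd (rg_short O h4) hc, fun h4 => absurd (rg_short O h4) hc⟩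
  refine ⟨(c7_ty O.L N).1 h1, hC, ?_⟩
  intro c c' hc hc'
  have h4 := iff_of_eq (congrFun (congrFun h3 ⟨c, rg_short O hc⟩) ⟨c', rg_short O hc'⟩)
  exact ⟨fun h5 => (h4.1 ⟨hc, hc', h5⟩).2.2,
    fun h5 => (h4.2 ⟨(hC c).1 hc, (hC c').1 hc', h5⟩).2.2⟩

theorem rg_step (O : Od P A) {i : ι} {g p : G} (hp : p ∈ P i) (hl : O.B < O.L.l p)
    (hc : O.can i g) : Step O.toNd g p := by
  have hr1 : rl P A p = 1 := by
    have h3 : rl P A p ≤ 1 := rl_letter (Or.inr ⟨i, hp⟩)
    have h4 : rl P A p ≠ 0 := by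
      intro h5
      have h6 := rl_zero O.L h5
      rw [h6, O.L.one] at hl
      exact absurd hl (Nat.not_lt_zero _)
    omega
  have hr2 := minc_step O.L O.hE hp (O.can_minc i g hc) (lt_of_le_of_lt O.hEB hl)
  exact ⟨hr1, hr2, Or.inl ⟨i, hp, hl, hc⟩⟩

theorem rg_ord (O : Od P A) {i : ι} {g p : G} (hp : p ∈ P i) (hl : O.B + 2 * O.N1 < O.L.l p)
    (hc : O.can i g) (c c' : G) :
    (Comp O.toNd O.N1 (g * p) (g * p * c) ∧ Comp O.toNd O.N1 (g * p) (g * p * c') ∧
      O.lt (g * p * c) (g * p * c')) ↔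
    (c ∈ P i ∧ O.L.l c ≤ O.N1) ∧ (c' ∈ P i ∧ O.L.l c' ≤ O.N1) ∧
      O.ord (p * c) < O.ord (p * c') := by
  rw [comp_long O hp hl hc c, comp_long O hp hl hc c']
  have key : ∀ d, d ∈ P i ∧ O.L.l d ≤ O.N1 → Step O.toNd g (p * d) := by
    intro d hd
    refine rg_step O ((P i).mul_mem hp hd.1) ?_ hc
    have h1 := O.L.mul (p * d) d⁻¹
    rw [mul_inv_cancel_right, O.L.inv] at h1
    have h2 := hd.2
    omega
  have hgg : ¬ O.lt g g := by
    have h1 := ((O.can_iff i g).1 hc).2 1 (P i).one_mem (by rw [mul_one])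
    rw [mul_one] at h1
    exact h1
  constructor
  · rintro ⟨h1, h2, h3⟩
    refine ⟨h1, h2, ?_⟩
    rw [mul_assoc, mul_assoc, O.lt_step _ _ _ _ (key c h1) (key c' h2) rfl] at h3
    rcases h3 with h3 | h3
    · exact absurd h3 hgg
    · exact h3.2
  · rintro ⟨h1, h2, h3⟩
    refine ⟨h1, h2, ?_⟩
    rw [mul_assoc, mul_assoc, O.lt_step _ _ _ _ (key c h1) (key c' h2) rfl]
    exact Or.inr ⟨rfl, h3⟩

/-- The strings of the steps between elements of given states. -/
def rgR (E : Ld P A) (O : Od P A) (N : ℕ) (q q' : rgQ O N) : Language (Alp E) :=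
  {u | ∃ g s, rgty O N g = q ∧ Step E.D g s ∧ rgty O N (g * s) = q' ∧ Tw E s u}

theorem rg_le (E : Ld P A) (O : Od P A) (N : ℕ) : ∀ (w : List G) (us : List (List (Alp E)))
    (g : G), Vd E.D g w → List.Forall₂ (Tw E) w us →
    ∃ q', GP (rgR E O N) (rgty O N g) us.flatten q' := by
  intro w
  induction w with
  | nil =>
    intro us g _ h
    cases h
    exact ⟨_, GP.nil _⟩
  | cons s w ih =>
    intro us g hv h
    cases h with
    | cons h1 h2 =>
      obtain ⟨hs, hv'⟩ := hv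
      obtain ⟨q', hq'⟩ := ih _ (g * s) hv' h2
      exact ⟨q', GP.cons ⟨g, s, rfl, hs, rfl, h1⟩ hq'⟩

theorem rg_ge (E : Ld P A) (O : Od P A) {N : ℕ}
    (hN : ∀ (g g' : G) (w : List G), rgty O N g = rgty O N g' → Vd E.D g w → Vd E.D g' w)
    {q q' : rgQ O N} {u : List (Alp E)}
    (h : GP (rgR E O N) q u q') : ∀ g, rgty O N g = q → u ∈ NFw E g := by
  induction h with
  | nil q =>
    intro g _
    exact ⟨[], [], trivial, List.Forall₂.nil, rfl⟩
  | cons h1 _ ih =>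
    intro g hg
    obtain ⟨g0, s, hg0, hs, hgs, htw⟩ := h1
    obtain ⟨w, us, hw, hus, hu⟩ := ih (g0 * s) hgs
    refine ⟨s :: w, _ :: us, hN g0 g _ ?_ ⟨hs, hw⟩, List.Forall₂.cons htw hus, ?_⟩
    · exact hg0.trans hg.symm
    · rw [hu]
      rfl

theorem rg_small (E : Ld P A) [Finite ι] (K : ℕ) :
    {u : List (Alp E) | ∃ s, E.D.L.l s ≤ K ∧ Tw E s u}.Finite := by
  classical
  have h1 : {u : List (Alp E) | ∃ s, E.D.L.l s ≤ K ∧ Tw E s u} ⊆
      (⋃ s ∈ {s | E.D.L.l s ≤ K}, ({u | ∃ h : E.D.L.l s ≤ E.B4, u = [Sum.inl ⟨s, h⟩]} ∪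
        ⋃ i, (fun v : List (E.Bt i) => v.map (fun b => (Sum.inr ⟨i, b⟩ : Alp E))) ''
          {v | v ∈ E.Lg i ∧ val (E.ψ i) v = s})) := by
    rintro u ⟨s, hs, h | ⟨_, i, _, v, hv, hvs, hu⟩⟩
    · refine Set.mem_biUnion hs (Or.inl h)
    · refine Set.mem_biUnion hs (Or.inr (Set.mem_iUnion.2 ⟨i, v, ⟨hv, hvs⟩, hu.symm⟩))
  refine Set.Finite.subset ?_ h1
  refine Set.Finite.biUnion (E.D.L.fin K) fun s _ => Set.Finite.union ?_ ?_
  · refine Set.Subsingleton.finite ?_
    rintro u ⟨h, hu⟩ u' ⟨h', hu'⟩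
    rw [hu, hu']
  · refine Set.finite_iUnion fun i => Set.Finite.image _ ?_
    refine Set.Subsingleton.finite ?_
    rintro v ⟨hv, hvs⟩ v' ⟨hv', hvs'⟩
    exact E.uniq i v hv v' hv' (hvs.trans hvs'.symm)

theorem rg_long (E : Ld P A) (K : ℕ) (i : ι) : Language.IsRegular
    ({v | v ∈ E.Lg i ∧ K < E.D.L.l (val (E.ψ i) v)} : Set (List (E.Bt i))) := by
  classical
  have hF : {v | v ∈ E.Lg i ∧ E.D.L.l (val (E.ψ i) v) ≤ K}.Finite := by
    apply Set.Finite.of_finite_image (f := val (E.ψ i))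
    · refine (E.D.L.fin K).subset ?_
      rintro _ ⟨v, hv, rfl⟩
      exact hv.2
    · rintro v hv v' hv' h
      exact E.uniq i v hv.1 v' hv'.1 h
  have h1 := c7_diff (E.reg i) hF
  have h2 : ({w | w ∈ E.Lg i ∧ w ∉ {v | v ∈ E.Lg i ∧ E.D.L.l (val (E.ψ i) v) ≤ K}} :
      Set (List (E.Bt i))) = {v | v ∈ E.Lg i ∧ K < E.D.L.l (val (E.ψ i) v)} := by
    ext v
    constructor
    · rintro ⟨hv, hn⟩
      refine ⟨hv, ?_⟩
      by_contra hc
      exact hn ⟨hv, not_lt.1 hc⟩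
    · rintro ⟨hv, hn⟩
      refine ⟨hv, ?_⟩
      rintro ⟨_, hc⟩
      exact absurd hn (not_lt.2 hc)
  rw [h2] at h1
  exact h1

/-- finite intersections -/
theorem rg_inter {B κ : Type} [Finite κ] (K : Language B) (hK : K.IsRegular)
    (F : κ → Language B) (h : ∀ k, (F k).IsRegular) :
    Language.IsRegular ({w | w ∈ K ∧ ∀ k, w ∈ F k} : Set (List B)) := by
  have h1 := reg_iUnion (fun k => ((F k)ᶜ : Language B)) (fun k => (h k).compl)
  have h2 : Language.IsRegular (({w | ∃ k, w ∈ ((F k)ᶜ : Language B)} : Language B)ᶜ) := h1.compl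
  have h3 := Language.IsRegular.inf hK h2
  have h4 : (K ⊓ (({w | ∃ k, w ∈ ((F k)ᶜ : Language B)} : Language B)ᶜ) : Language B) =
      ({w | w ∈ K ∧ ∀ k, w ∈ F k} : Set (List B)) := by
    ext w
    constructor
    · rintro ⟨hw, hn⟩
      refine ⟨hw, fun k => ?_⟩
      by_contra hc
      exact hn ⟨k, hc⟩
    · rintro ⟨hw, hn⟩
      refine ⟨hw, ?_⟩
      rintro ⟨k, hk⟩
      exact hk (hn k)
  rw [h4] at h3
  exact h3

theorem rg_pat (E : Ld P A) (O : Od P A)
    (hreg : ∀ i, ∀ c ∈ P i, ∀ c' ∈ P i, Language.IsRegular {u : List (E.Bt i) | u ∈ E.Lg i ∧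
      O.ord (val (E.ψ i) u * c) < O.ord (val (E.ψ i) u * c')}) (K : ℕ) (i : ι)
    (q3 : rgB O.L O.N1 → rgB O.L O.N1 → Prop) : Language.IsRegular
    ({v | (v ∈ E.Lg i ∧ K < E.D.L.l (val (E.ψ i) v)) ∧ ∀ k : rgB O.L O.N1 × rgB O.L O.N1,
      v ∈ {v | v ∈ E.Lg i ∧ (k.1.1 ∈ P i → k.2.1 ∈ P i →
        (O.ord (val (E.ψ i) v * k.1.1) < O.ord (val (E.ψ i) v * k.2.1) ↔ q3 k.1 k.2))}} :
      Set (List (E.Bt i))) := by
  have : Finite (rgB O.L O.N1) := (O.L.fin O.N1).to_subtype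
  refine rg_inter (κ := rgB O.L O.N1 × rgB O.L O.N1) _ (rg_long E K i) _ ?_
  rintro ⟨c, c'⟩
  by_cases hc : c.1 ∈ P i
  · by_cases hc' : c'.1 ∈ P i
    · have h1 := hreg i c.1 hc c'.1 hc'
      by_cases hq : q3 c c'
      · have h2 : ({v | v ∈ E.Lg i ∧ (c.1 ∈ P i → c'.1 ∈ P i →
            (O.ord (val (E.ψ i) v * c.1) < O.ord (val (E.ψ i) v * c'.1) ↔ q3 c c'))} :
            Set (List (E.Bt i))) = {u : List (E.Bt i) | u ∈ E.Lg i ∧
            O.ord (val (E.ψ i) u * c.1) < O.ord (val (E.ψ i) u * c'.1)} := by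
          ext v
          exact ⟨fun hv => ⟨hv.1, (hv.2 hc hc').2 hq⟩,
            fun hv => ⟨hv.1, fun _ _ => ⟨fun _ => hq, fun _ => hv.2⟩⟩⟩
        show Language.IsRegular ({v | v ∈ E.Lg i ∧ (c.1 ∈ P i → c'.1 ∈ P i →
            (O.ord (val (E.ψ i) v * c.1) < O.ord (val (E.ψ i) v * c'.1) ↔ q3 c c'))} :
            Set (List (E.Bt i)))
        rw [h2]
        exact h1
      · have h2 : ({v | v ∈ E.Lg i ∧ (c.1 ∈ P i → c'.1 ∈ P i →
            (O.ord (val (E.ψ i) v * c.1) < O.ord (val (E.ψ i) v * c'.1) ↔ q3 c c'))} :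
            Set (List (E.Bt i))) = (E.Lg i ⊓ (({u : List (E.Bt i) | u ∈ E.Lg i ∧
            O.ord (val (E.ψ i) u * c.1) < O.ord (val (E.ψ i) u * c'.1)} :
              Language (E.Bt i))ᶜ) : Language (E.Bt i)) := by
          ext v
          constructor
          · intro hv
            refine ⟨hv.1, ?_⟩
            intro hv2
            exact hq ((hv.2 hc hc').1 hv2.2)
          · rintro ⟨hv, hn⟩
            refine ⟨hv, fun _ _ => ⟨fun h3 => absurd ⟨hv, h3⟩ hn, fun h3 => absurd h3 hq⟩⟩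
        show Language.IsRegular ({v | v ∈ E.Lg i ∧ (c.1 ∈ P i → c'.1 ∈ P i →
            (O.ord (val (E.ψ i) v * c.1) < O.ord (val (E.ψ i) v * c'.1) ↔ q3 c c'))} :
            Set (List (E.Bt i)))
        rw [h2]
        exact Language.IsRegular.inf (E.reg i) h1.compl
    · have h2 : ({v | v ∈ E.Lg i ∧ (c.1 ∈ P i → c'.1 ∈ P i →
            (O.ord (val (E.ψ i) v * c.1) < O.ord (val (E.ψ i) v * c'.1) ↔ q3 c c'))} :
            Set (List (E.Bt i))) = E.Lg i := by
        ext v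
        exact ⟨fun hv => hv.1, fun hv => ⟨hv, fun _ h => absurd h hc'⟩⟩
      show Language.IsRegular ({v | v ∈ E.Lg i ∧ (c.1 ∈ P i → c'.1 ∈ P i →
            (O.ord (val (E.ψ i) v * c.1) < O.ord (val (E.ψ i) v * c'.1) ↔ q3 c c'))} :
            Set (List (E.Bt i)))
      rw [h2]
      exact E.reg i
  · have h2 : ({v | v ∈ E.Lg i ∧ (c.1 ∈ P i → c'.1 ∈ P i →
            (O.ord (val (E.ψ i) v * c.1) < O.ord (val (E.ψ i) v * c'.1) ↔ q3 c c'))} :
            Set (List (E.Bt i))) = E.Lg i := by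
      ext v
      exact ⟨fun hv => hv.1, fun hv => ⟨hv, fun h => absurd h hc⟩⟩
    show Language.IsRegular ({v | v ∈ E.Lg i ∧ (c.1 ∈ P i → c'.1 ∈ P i →
            (O.ord (val (E.ψ i) v * c.1) < O.ord (val (E.ψ i) v * c'.1) ↔ q3 c c'))} :
            Set (List (E.Bt i)))
    rw [h2]
    exact E.reg i

theorem rg_reg (E : Ld P A) [Finite ι] (O : Od P A) (hO : O.toNd = E.D)
    (hreg : ∀ i, ∀ c ∈ P i, ∀ c' ∈ P i, Language.IsRegular {u : List (E.Bt i) | u ∈ E.Lg i ∧
      O.ord (val (E.ψ i) u * c) < O.ord (val (E.ψ i) u * c')}) (N B3 : ℕ) (hB : E.B4 ≤ B3)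
    (hB' : O.B + 2 * O.N1 ≤ B3)
    (hth : ∀ (i : ι) (g g' p p' : G), Minc P A i g → Minc P A i g' → p ∈ P i → p' ∈ P i →
      B3 < E.D.L.l p → B3 < E.D.L.l p' → Loc E.D.L N (g * p) (g' * p'))
    (q q' : rgQ O N) : (rgR E O N q q').IsRegular := by
  classical
  have hBB : E.D.B ≤ E.B4 := le_trans (Nat.le_add_right _ _) E.h4
  have hLL : O.L = E.D.L := by rw [hO]
  -- long steps
  let cond : ι → Prop := fun i => ∃ g s, rgty O N g = q ∧ Step E.D g s ∧
    rgty O N (g * s) = q' ∧ B3 < E.D.L.l s ∧ s ∈ P i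
  let Lp : ∀ i, Language (E.Bt i) := fun i =>
    ({v | (v ∈ E.Lg i ∧ B3 < E.D.L.l (val (E.ψ i) v)) ∧ ∀ k : rgB O.L O.N1 × rgB O.L O.N1,
      v ∈ {v | v ∈ E.Lg i ∧ (k.1.1 ∈ P i → k.2.1 ∈ P i →
        (O.ord (val (E.ψ i) v * k.1.1) < O.ord (val (E.ψ i) v * k.2.1) ↔ q'.2.2 k.1 k.2))}} :
      Set (List (E.Bt i)))
  let M : ι → Language (Alp E) := fun i => if cond i then
    lmap (fun b => (Sum.inr ⟨i, b⟩ : Alp E)) (Lp i) else 0
  have hM : ∀ i, (M i).IsRegular := by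
    intro i
    by_cases hi : cond i
    · have : M i = lmap (fun b => (Sum.inr ⟨i, b⟩ : Alp E)) (Lp i) := if_pos hi
      rw [this]
      refine reg_map ?_ (rg_pat E O hreg B3 i q'.2.2)
      intro b b' hbb
      have h1 := Sum.inr_injective hbb
      exact eq_of_heq (Sigma.mk.inj h1).2
    · have : M i = 0 := if_neg hi
      rw [this]
      exact reg_zero
  -- the canonical entry point
  have hcan : ∀ (i : ι) (g s : G), Step E.D g s → B3 < E.D.L.l s → s ∈ P i → O.can i g := by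
    intro i g s hs hl hi
    have h1 : E.D.can i g := by
      rcases hs.2.2 with ⟨j, hj, _, hjc⟩ | ⟨hle, _⟩
      · have hij : j = i := long_unique E.D.L hj hi
          (lt_of_le_of_lt (le_trans E.D.hδ (le_trans hBB hB)) hl)
        rw [← hij]
        exact hjc
      · exact absurd hl (not_lt.2 (le_trans hle (le_trans hBB hB)))
    rw [← hO] at h1
    exact h1
  -- short steps
  let K1 : Language (Alp E) :=
    {u : List (Alp E) | (∃ s, E.D.L.l s ≤ B3 ∧ Tw E s u) ∧ u ∈ rgR E O N q q'}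
  let K2 : Language (Alp E) := {w : List (Alp E) | ∃ i, w ∈ M i}
  have hS : Set.Finite {u : List (Alp E) | (∃ s, E.D.L.l s ≤ B3 ∧ Tw E s u) ∧
      u ∈ rgR E O N q q'} :=
    (rg_small E B3).subset fun u hu => hu.1
  have h1 : (K1 + K2).IsRegular := Language.IsRegular.add (c7_fin hS) (reg_iUnion M hM)
  have h2 : rgR E O N q q' = K1 + K2 := by
    ext u
    rw [Language.mem_add]
    constructor
    · intro hu
      obtain ⟨g, s, hg, hs, hgs, htw⟩ := id hu
      by_cases hl : E.D.L.l s ≤ B3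
      · exact Or.inl ⟨⟨s, hl, htw⟩, hu⟩
      · rw [not_le] at hl
        right
        rcases htw with ⟨h, _⟩ | ⟨_, i, hi, v, hv, hvs, huv⟩
        · exact absurd hl (not_lt.2 (le_trans h hB))
        · refine ⟨i, ?_⟩
          have hc : cond i := ⟨g, s, hg, hs, hgs, hl, hi⟩
          have : M i = lmap (fun b => (Sum.inr ⟨i, b⟩ : Alp E)) (Lp i) := if_pos hc
          rw [this]
          refine ⟨v, ⟨⟨hv, by rw [hvs]; exact hl⟩, ?_⟩, huv⟩
          rintro ⟨c, c'⟩
          refine ⟨hv, ?_⟩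
          intro hci hci'
          have hl' : O.B + 2 * O.N1 < O.L.l s := by
            rw [hLL]
            exact lt_of_le_of_lt hB' hl
          have h3 := rg_ord O hi hl' (hcan i g s hs hl hi) c.1 c'.1
          have h4 : q'.2.2 c c' ↔ (Comp O.toNd O.N1 (g * s) (g * s * c.1) ∧
              Comp O.toNd O.N1 (g * s) (g * s * c'.1) ∧
              O.lt (g * s * c.1) (g * s * c'.1)) := by
            rw [← hgs]
            exact Iff.rfl
          rw [h4, h3, hvs]
          exact ⟨fun h5 => ⟨⟨hci, c.2⟩, ⟨hci', c'.2⟩, h5⟩, fun h5 => h5.2.2⟩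
    · rintro (hu | ⟨i, hu⟩)
      · exact hu.2
      · by_cases hc : cond i
        · have : M i = lmap (fun b => (Sum.inr ⟨i, b⟩ : Alp E)) (Lp i) := if_pos hc
          rw [this] at hu
          obtain ⟨v, ⟨⟨hv, hvl⟩, hpat⟩, huv⟩ := hu
          obtain ⟨g, s0, hg, hs0, hgs0, hl0, hi0⟩ := hc
          have hcg := hcan i g s0 hs0 hl0 hi0
          have hminc := O.can_minc i g hcg
          have hp : val (E.ψ i) v ∈ P i := E.mem i v hv
          have hl1 : O.B + 2 * O.N1 < O.L.l (val (E.ψ i) v) := by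
            rw [hLL]
            exact lt_of_le_of_lt hB' hvl
          have hl2 : O.B + 2 * O.N1 < O.L.l s0 := by
            rw [hLL]
            exact lt_of_le_of_lt hB' hl0
          have hst : Step O.toNd g (val (E.ψ i) v) :=
            rg_step O hp (lt_of_le_of_lt (Nat.le_add_right _ _) hl1) hcg
          rw [hO] at hst
          refine ⟨g, val (E.ψ i) v, hg, hst, ?_, ?_⟩
          · rw [← hgs0]
            have e1 : c7ty O.L N (g * val (E.ψ i) v) = c7ty O.L N (g * s0) := by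
              rw [c7_ty, hLL]
              exact hth i g g _ _ hminc hminc hp hi0 hvl hl0
            have e2 : (fun c : rgB O.L O.N1 => Comp O.toNd O.N1 (g * val (E.ψ i) v)
                (g * val (E.ψ i) v * c.1)) =
                fun c : rgB O.L O.N1 => Comp O.toNd O.N1 (g * s0) (g * s0 * c.1) := by
              funext c
              apply propext
              rw [comp_long O hp hl1 hcg, comp_long O hi0 hl2 hcg]
            have e3 : (fun c c' : rgB O.L O.N1 =>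
                Comp O.toNd O.N1 (g * val (E.ψ i) v) (g * val (E.ψ i) v * c.1) ∧
                Comp O.toNd O.N1 (g * val (E.ψ i) v) (g * val (E.ψ i) v * c'.1) ∧
                O.lt (g * val (E.ψ i) v * c.1) (g * val (E.ψ i) v * c'.1)) =
                fun c c' : rgB O.L O.N1 =>
                Comp O.toNd O.N1 (g * s0) (g * s0 * c.1) ∧
                Comp O.toNd O.N1 (g * s0) (g * s0 * c'.1) ∧
                O.lt (g * s0 * c.1) (g * s0 * c'.1) := by
              funext c c'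
              apply propext
              have h4 : q'.2.2 c c' ↔ (Comp O.toNd O.N1 (g * s0) (g * s0 * c.1) ∧
                  Comp O.toNd O.N1 (g * s0) (g * s0 * c'.1) ∧
                  O.lt (g * s0 * c.1) (g * s0 * c'.1)) := by
                rw [← hgs0]
                exact Iff.rfl
              have h5 := (hpat ⟨c, c'⟩).2
              have h6 := rg_ord O hi0 hl2 hcg c.1 c'.1
              have h7 := rg_ord O hp hl1 hcg c.1 c'.1
              constructor
              · intro h8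
                have h9 := h7.1 h8
                exact h4.1 ((h5 h9.1.1 h9.2.1.1).1 h9.2.2)
              · intro h8
                have h9 := h6.1 h8
                exact h7.2 ⟨h9.1, h9.2.1, (h5 h9.1.1 h9.2.1.1).2 (h4.2 h8)⟩
            exact Prod.ext e1 (Prod.ext e2 e3)
          · exact Or.inr ⟨lt_of_le_of_lt hB hvl, i, hp, v, hv, rfl, huv⟩
        · have : M i = 0 := if_neg hc
          rw [this] at hu
          exact absurd hu (Language.notMem_zero _)
  rw [h2]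
  exact h1

theorem nfw_regular [Finite ι] (E : Ld P A) (O : Od P A) (hO : O.toNd = E.D)
    (hreg : ∀ i, ∀ c ∈ P i, ∀ c' ∈ P i, Language.IsRegular {u : List (E.Bt i) | u ∈ E.Lg i ∧
      O.ord (val (E.ψ i) u * c) < O.ord (val (E.ψ i) u * c')}) : (NFw E 1).IsRegular := by
  classical
  obtain ⟨T, hT⟩ := exists_tstF O.L O.NE
  obtain ⟨T2, hT2⟩ : ∃ T2 : ℕ, T2 = O.NE + T + O.N1 + O.B + 1 := ⟨_, rfl⟩
  obtain ⟨N0, hN0⟩ := exists_near O.L T2
  obtain ⟨N, hN1, hN2⟩ : ∃ N : ℕ, T2 ≤ N ∧ N0 ≤ N :=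
    ⟨max T2 N0, le_max_left _ _, le_max_right _ _⟩
  have hN : NearB O.L T2 N := near_mono hN0 le_rfl hN2
  obtain ⟨B, hB⟩ := theta O.L O.hE N
  have hLL : O.L = E.D.L := by rw [hO]
  have : Finite (rgB O.L N) := (O.L.fin N).to_subtype
  have : Finite (rgB O.L O.N1) := (O.L.fin O.N1).to_subtype
  have key : NFw E 1 = {u | ∃ q', GP (rgR E O N) (rgty O N 1) u q'} := by
    ext u
    constructor
    · rintro ⟨w, us, hw, hus, rfl⟩
      exact rg_le E O N w us 1 hw hus
    · rintro ⟨q', hq'⟩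
      refine rg_ge E O (fun g g' w h hw => ?_) hq' 1 rfl
      obtain ⟨hL, hst⟩ := rg_ty O h
      rw [← hO] at hw ⊢
      exact vd_st O hT (by omega) (by omega) (by omega) hN1 hN hL hst hw
  rw [key]
  refine gp_regular (rgR E O N) (fun q q' => rg_reg E O hO hreg N
    (B + E.B4 + (O.B + 2 * O.N1)) (by omega) (by omega) ?_ q q') _
  intro i g g' p p' hg hg' hp hp' hl hl'
  rw [← hLL] at hl hl' ⊢
  exact hB i g g' p p' hg hg' hp hp' (by omega) (by omega)

end

end Pool.Agent.RET
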