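import Pool.Agent.RET.Defs
import Pool.Agent.REL.Rl
import Pool.Agent.REL.Near
import Pool.Agent.REL.Pen
/-!
# Synchronous closeness of relative geodesics with the same number of steps
-/
namespace Pool.Agent.RET
open Pool.Agent.SLX Pool.Agent.REL

section
variable {G ι : Type} [Group G] {P : ι → Subgroup G} {A : Set G}

private theorem sy_tri (L : PLen P A) (a b c : G) :
    L.l (a⁻¹ * c) ≤ L.l (a⁻¹ * b) + L.l (b⁻¹ * c) := by
  have h := L.mul (a⁻¹ * b) (b⁻¹ * c)
  rwa [show a⁻¹ * b * (b⁻¹ * c) = a⁻¹ * c by group] at h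

private theorem sy_symm (L : PLen P A) (a b : G) : L.l (a⁻¹ * b) = L.l (b⁻¹ * a) := by
  have h := L.inv (a⁻¹ * b)
  rw [← h, show (a⁻¹ * b)⁻¹ = b⁻¹ * a by group]

private theorem sy_sum (L : PLen P A) (z : ℕ → G) (c s : ℕ) : ∀ n : ℕ,
    (∀ u, s ≤ u → u < s + n → L.l ((z u)⁻¹ * z (u + 1)) ≤ c) →
      L.l ((z s)⁻¹ * z (s + n)) ≤ n * c := by
  intro n
  induction n with
  | zero =>
    intro _
    rw [Nat.add_zero, inv_mul_cancel, L.one]
    exact Nat.zero_le _
  | succ n ih =>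
    intro h
    have h1 := ih (fun u hu hu' => h u hu (by omega))
    have h2 := h (s + n) (by omega) (by omega)
    have h3 := sy_tri L (z s) (z (s + n)) (z (s + n + 1))
    have e : s + (n + 1) = s + n + 1 := by omega
    rw [e, Nat.succ_mul]
    omega

/-- A long letter of `x` gives a letter of `y` at the same place. -/
private theorem sy_long (L : PLen P A) {M N2 : ℕ} (hp : PenB L M N2) (h1 : 1 ≤ N2) {k : ℕ}
    {x y : ℕ → G} (hx : RGeo P A k x) (hy : RGeo P A k y) (hx0 : x 0 = 1) (hy0 : y 0 = 1)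
    (hM : L.l ((x k)⁻¹ * y k) ≤ M) {t : ℕ} (ht : t < k)
    (hl : N2 < L.l ((x t)⁻¹ * x (t + 1))) :
    L.l ((x t)⁻¹ * y t) ≤ N2 ∧ L.l ((x (t + 1))⁻¹ * y (t + 1)) ≤ N2 := by
  have hr : rl P A ((x t)⁻¹ * x (t + 1)) = 1 := by
    rw [hx.2 t (t + 1) (by omega) (by omega)]
    omega
  obtain ⟨i, hi⟩ := long_letter L hr (by omega)
  obtain ⟨-, -, -, h4, h5⟩ := hp k k x y hx hy hx0 hy0 hM i t ht hi hl
  exact ⟨h4, h5⟩

/-- Where the letters of `y` are short those of `x` are not very long. -/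
private theorem sy_seg (L : PLen P A) {M N2 : ℕ} (hp : PenB L M N2) (h1 : 1 ≤ N2) {k : ℕ}
    {x y : ℕ → G} (hx : RGeo P A k x) (hy : RGeo P A k y) (hx0 : x 0 = 1) (hy0 : y 0 = 1)
    (hM : L.l ((x k)⁻¹ * y k) ≤ M) {s n : ℕ} (hk : s + n ≤ k)
    (hs : ∀ u, s ≤ u → u < s + n → L.l ((y u)⁻¹ * y (u + 1)) ≤ N2) :
    L.l ((x s)⁻¹ * x (s + n)) ≤ n * (3 * N2) ∧ L.l ((y s)⁻¹ * y (s + n)) ≤ n * N2 := by
  refine ⟨sy_sum L x (3 * N2) s n ?_, sy_sum L y N2 s n hs⟩
  intro u hu hu'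
  by_cases hl : N2 < L.l ((x u)⁻¹ * x (u + 1))
  · obtain ⟨h2, h3⟩ := sy_long L hp h1 hx hy hx0 hy0 hM (t := u) (by omega) hl
    have h4 := hs u hu hu'
    have h5 := sy_tri L (x u) (y u) (x (u + 1))
    have h6 := sy_tri L (y u) (y (u + 1)) (x (u + 1))
    have h7 := sy_symm L (y (u + 1)) (x (u + 1))
    omega
  · omega

/-- Relative geodesics with the same number of steps, the same start and ends at distance at most
`M` are synchronously close. -/
theorem exists_sync (L : PLen P A) (M : ℕ) : ∃ N : ℕ, SyncB L M N := by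
  obtain ⟨N0, hN0⟩ := exists_near L M
  obtain ⟨N2', hN2'⟩ := exists_pen L M
  obtain ⟨N2, hN2, h1⟩ : ∃ N2 : ℕ, PenB L M N2 ∧ 1 ≤ N2 :=
    ⟨max N2' 1, pen_mono hN2' le_rfl (le_max_left _ _), le_max_right _ _⟩
  refine ⟨N0 + N2 + 4 * (N0 * N2), ?_⟩
  intro k x y hx hy hx0 hy0 hM j hj
  have hM' : L.l ((y k)⁻¹ * x k) ≤ M := by rw [sy_symm L]; exact hM
  obtain ⟨j', hj', hd⟩ := hN0 k k x y hx hy (hx0.trans hy0.symm) hM j hj
  have hrx : rl P A (x j) = j := by
    have h := hx.2 0 j (Nat.zero_le _) hj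
    rwa [hx0, inv_one, one_mul, Nat.sub_zero] at h
  have hry : rl P A (y j') = j' := by
    have h := hy.2 0 j' (Nat.zero_le _) hj'
    rwa [hy0, inv_one, one_mul, Nat.sub_zero] at h
  have hr1 := rl_le L ((x j)⁻¹ * y j')
  have hr2 := rl_mul L (x j) ((x j)⁻¹ * y j')
  rw [mul_inv_cancel_left, hrx, hry] at hr2
  have hr3 := rl_mul L (y j') ((x j)⁻¹ * y j')⁻¹
  rw [rl_inv L, show y j' * ((x j)⁻¹ * y j')⁻¹ = x j by group, hrx, hry] at hr3
  have key : ∀ n : ℕ, n ≤ N0 → n * (3 * N2) ≤ 3 * (N0 * N2) ∧ n * N2 ≤ N0 * N2 := by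
    intro n hn
    have h2 : n * N2 ≤ N0 * N2 := Nat.mul_le_mul_right _ hn
    refine ⟨?_, h2⟩
    have h3 : n * (3 * N2) = 3 * (n * N2) := by ring
    omega
  rcases le_total j' j with hle | hle
  · -- the near point comes before
    obtain ⟨n, rfl⟩ := Nat.exists_eq_add_of_le hle
    by_cases hall : ∀ u, j' ≤ u → u < j' + n → L.l ((y u)⁻¹ * y (u + 1)) ≤ N2
    · have h2 := sy_sum L y N2 j' n hall
      have h3 := (key n (by omega)).2
      have h4 := sy_tri L (x (j' + n)) (y j') (y (j' + n))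
      omega
    · push Not at hall
      -- the last long letter
      obtain ⟨t, ⟨ht1, ht2, ht3⟩, ht4⟩ : ∃ t, (j' ≤ t ∧ t < j' + n ∧
          N2 < L.l ((y t)⁻¹ * y (t + 1))) ∧ ∀ u, t < u → u < j' + n →
            L.l ((y u)⁻¹ * y (u + 1)) ≤ N2 := by
        classical
        obtain ⟨u0, hu1, hu2, hu3⟩ := hall
        let Q : ℕ → Prop := fun u => j' ≤ u ∧ u < j' + n ∧ N2 < L.l ((y u)⁻¹ * y (u + 1))
        have hQ0 : Q u0 := ⟨hu1, hu2, hu3⟩
        refine ⟨Nat.findGreatest Q (j' + n), Nat.findGreatest_spec (P := Q) (by omega) hQ0, ?_⟩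
        intro u hu hu'
        have h5 := Nat.findGreatest_is_greatest hu (show u ≤ j' + n by omega)
        by_contra hc
        have h6 := (Nat.findGreatest_spec (P := Q) (show u0 ≤ j' + n by omega) hQ0).1
        exact h5 ⟨by omega, hu', by omega⟩
      obtain ⟨-, h5⟩ := sy_long L hN2 h1 hy hx hy0 hx0 hM' (t := t) (by omega) ht3
      obtain ⟨m, hm⟩ : ∃ m, j' + n = t + 1 + m := ⟨j' + n - (t + 1), by omega⟩
      rw [hm]
      have h6 := sy_seg L hN2 h1 hx hy hx0 hy0 hM (s := t + 1) (n := m) (by omega)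
        (fun u hu hu' => ht4 u (by omega) (by omega))
      have h7 := key m (by omega)
      have h8 := sy_tri L (x (t + 1 + m)) (x (t + 1)) (y (t + 1 + m))
      have h9 := sy_tri L (x (t + 1)) (y (t + 1)) (y (t + 1 + m))
      have h10 := sy_symm L (x (t + 1 + m)) (x (t + 1))
      have h11 := sy_symm L (x (t + 1)) (y (t + 1))
      omega
  · -- the near point comes after
    obtain ⟨n, rfl⟩ := Nat.exists_eq_add_of_le hle
    by_cases hall : ∀ u, j ≤ u → u < j + n → L.l ((y u)⁻¹ * y (u + 1)) ≤ N2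
    · have h2 := sy_sum L y N2 j n hall
      have h3 := (key n (by omega)).2
      have h4 := sy_tri L (x j) (y (j + n)) (y j)
      have h5 := sy_symm L (y (j + n)) (y j)
      omega
    · push Not at hall
      -- the first long letter
      obtain ⟨t, ⟨ht1, ht2, ht3⟩, ht4⟩ : ∃ t, (j ≤ t ∧ t < j + n ∧
          N2 < L.l ((y t)⁻¹ * y (t + 1))) ∧ ∀ u, j ≤ u → u < t →
            L.l ((y u)⁻¹ * y (u + 1)) ≤ N2 := by
        classical
        have hex : ∃ u, j ≤ u ∧ u < j + n ∧ N2 < L.l ((y u)⁻¹ * y (u + 1)) := hall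
        refine ⟨Nat.find hex, Nat.find_spec hex, ?_⟩
        intro u hu hu'
        have h5 := Nat.find_min hex hu'
        by_contra hc
        have h6 := (Nat.find_spec hex).2.1
        exact h5 ⟨hu, by omega, by omega⟩
      obtain ⟨h5, -⟩ := sy_long L hN2 h1 hy hx hy0 hx0 hM' (t := t) (by omega) ht3
      obtain ⟨m, rfl⟩ := Nat.exists_eq_add_of_le ht1
      have h6 := sy_seg L hN2 h1 hx hy hx0 hy0 hM (s := j) (n := m) (by omega) ht4
      have h7 := key m (by omega)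
      have h8 := sy_tri L (x j) (x (j + m)) (y j)
      have h9 := sy_tri L (x (j + m)) (y (j + m)) (y j)
      have h10 := sy_symm L (x (j + m)) (y (j + m))
      have h11 := sy_symm L (y (j + m)) (y j)
      omega

end

end Pool.Agent.RET
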