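import Pool.Agent.REL.Entry
import Pool.Agent.REL.Pen
import Pool.Agent.REL.Near
import Pool.Agent.REL.Uap
import Pool.Agent.RET.Sync
import Pool.Agent.RET.Od
import Pool.Agent.RET.Ord
import Pool.Agent.RET.Reg
import Pool.Agent.RET.Ftp
import Pool.Agent.RET.Nf
/-!
# Z1: groups hyperbolic relative to automatic subgroups are automatic (assembly)
-/
namespace Pool.Agent.RET
open Pool.Agent.SLX Pool.Agent.SLA Pool.Agent.REL
open scoped Pointwise

section
variable {G ι : Type} [Group G] {P : ι → Subgroup G} {A : Set G}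

/-- the data for the automatic structure exist -/
theorem Z1_ld [Finite ι] (L : PLen P A) (ha : ∀ i, Automatic (P i)) :
    ∃ (E : Ld P A) (O : Od P A), O.toNd = E.D ∧ E.M0 = 1 ∧
      ∀ i, ∀ c ∈ P i, ∀ c' ∈ P i, Language.IsRegular {u : List (E.Bt i) | u ∈ E.Lg i ∧
        O.ord (val (E.ψ i) u * c) < O.ord (val (E.ψ i) u * c')} := by
  obtain ⟨NE, hE⟩ := exists_entry L
  obtain ⟨NS, hS⟩ := exists_sync L NE
  obtain ⟨N0, h0⟩ := exists_pen L 0
  obtain ⟨NB, hB⟩ := exists_pen L NS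
  have hu := fun i => exists_uap (ha i)
  choose Bt btfin ψ Lg reg mem onto uniq ft len using hu
  obtain ⟨ord, hord, hreg⟩ := exists_ord L Bt btfin ψ Lg reg mem onto uniq ft
  obtain ⟨O, hL, hNE, hN1, hOB, hOord⟩ := exists_od L NE hE NS hS
    (max (max NE N0) (max (max (2 * L.δ) 1) NB))
    ((le_max_left _ _).trans (le_max_left _ _))
    (pen_mono h0 le_rfl ((le_max_right _ _).trans (le_max_left _ _)))
    (pen_mono hB le_rfl ((le_max_right _ _).trans (le_max_right _ _)))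
    ((le_max_left _ _).trans ((le_max_left _ _).trans (le_max_right _ _)))
    ((le_max_right _ _).trans ((le_max_left _ _).trans (le_max_right _ _))) ord hord
  obtain ⟨N1, h1⟩ := exists_pen O.L 1
  obtain ⟨N2, h2⟩ := exists_near O.L 1
  refine ⟨{ D := O.toNd, M0 := 1, NP := max N1 N2, hP := pen_mono h1 le_rfl (le_max_left _ _),
            hN := near_mono h2 le_rfl (le_max_right _ _), B4 := O.B + 2 * max N1 N2, h4 := le_rfl,
            Bt := Bt, btfin := btfin, ψ := ψ, Lg := Lg, reg := reg, mem := mem, onto := onto,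
            uniq := uniq, ft := ft, len := len }, O, rfl, rfl, ?_⟩
  rw [hOord]
  exact hreg

theorem Z1_fin [Finite ι] (E : Ld P A) : Finite (Alp E) := by
  have h1 : Finite {s : G // E.D.L.l s ≤ E.B4} := (E.D.L.fin E.B4).to_subtype
  have h2 : ∀ i, Finite (E.Bt i) := E.btfin
  have h3 : Finite (Σ i, E.Bt i) := inferInstance
  exact inferInstanceAs (Finite ({s : G // E.D.L.l s ≤ E.B4} ⊕ (Σ i, E.Bt i)))

theorem Z1_val_map (E : Ld P A) (i : ι) (v : List (E.Bt i)) :
    val (Ψ E) (v.map (fun b => (Sum.inr ⟨i, b⟩ : Alp E))) = val (E.ψ i) v := by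
  unfold val
  rw [List.map_map]
  rfl

theorem Z1_val_tw (E : Ld P A) {s : G} {u : List (Alp E)} (h : Tw E s u) :
    val (Ψ E) u = s := by
  rcases h with ⟨h, rfl⟩ | ⟨_, i, _, v, _, hv, rfl⟩
  · simp [val, Ψ]
  · rw [Z1_val_map, hv]

theorem Z1_val_flat (E : Ld P A) {w : List G} {us : List (List (Alp E))}
    (h : List.Forall₂ (Tw E) w us) : val (Ψ E) us.flatten = w.prod := by
  induction h with
  | nil => rfl
  | cons h1 _ ih =>
    rw [List.flatten_cons, List.prod_cons, ← Z1_val_tw E h1, ← ih]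
    unfold val
    rw [List.map_append, List.prod_append]

/-- every letter of a normal form has a string -/
theorem Z1_tw (E : Ld P A) {g s : G} (h : Step E.D g s) : ∃ u, Tw E s u := by
  by_cases hs : E.D.L.l s ≤ E.B4
  · exact ⟨[Sum.inl ⟨s, hs⟩], Or.inl ⟨hs, rfl⟩⟩
  · have hB : E.D.B ≤ E.B4 := by have := E.h4; omega
    rcases h.2.2 with ⟨i, hi, _, _⟩ | ⟨h1, _⟩
    · obtain ⟨v, hv, hvs⟩ := E.onto i s hi
      exact ⟨_, Or.inr ⟨by omega, i, hi, v, hv, hvs, rfl⟩⟩
    · omega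

theorem Z1_strings (E : Ld P A) (w : List G) : ∀ g : G, Vd E.D g w →
    ∃ us, List.Forall₂ (Tw E) w us := by
  induction w with
  | nil => exact fun _ _ => ⟨[], List.Forall₂.nil⟩
  | cons s w ih =>
    intro g h
    obtain ⟨h1, h2⟩ := h
    obtain ⟨us, hus⟩ := ih _ h2
    obtain ⟨u, hu⟩ := Z1_tw E h1
    exact ⟨u :: us, List.Forall₂.cons hu hus⟩

theorem Z1_onto (E : Ld P A) (g : G) : ∃ u ∈ NFw E 1, val (Ψ E) u = g := by
  obtain ⟨w, hw, hg⟩ := nf_exists E.D g
  obtain ⟨us, hus⟩ := Z1_strings E w 1 hw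
  exact ⟨us.flatten, ⟨w, us, hw, hus, rfl⟩, by rw [Z1_val_flat E hus, hg]⟩

theorem Z1_ftp [Finite ι] (hA : Subgroup.closure A = ⊤) (E : Ld P A) (hM : 1 ≤ E.M0) :
    FTP (Ψ E) (NFw E 1) := by
  intro g
  have hg : g ∈ Subgroup.closure A := by rw [hA]; trivial
  induction hg using Subgroup.closure_induction with
  | mem a ha => exact nfw_ftp E a ((E.D.L.le_one a ha).trans hM)
  | one => exact nfw_ftp E 1 (by rw [E.D.L.one]; exact Nat.zero_le _)
  | mul x y _ _ hx hy =>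
    obtain ⟨F1, hF1, h1⟩ := hx
    obtain ⟨F2, hF2, h2⟩ := hy
    refine ⟨F1 * F2, hF1.mul hF2, ?_⟩
    intro u hu v hv huv t
    obtain ⟨m, hm, hmx⟩ := Z1_onto E (val (Ψ E) u * x)
    refine Set.mem_mul.2 ⟨_, h1 u hu m hm hmx.symm t, _, h2 m hm v hv ?_ t, by group⟩
    rw [hmx, mul_assoc]
    exact huv
  | inv x _ hx =>
    obtain ⟨F, hF, h⟩ := hx
    refine ⟨F⁻¹, hF.inv, ?_⟩
    intro u hu v hv huv t
    have h1 := h v hv u hu (by rw [← huv]; group) t
    rw [Set.mem_inv]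
    have e : ((val (Ψ E) (u.take t))⁻¹ * val (Ψ E) (v.take t))⁻¹ =
        (val (Ψ E) (v.take t))⁻¹ * val (Ψ E) (u.take t) := by group
    rw [e]
    exact h1

/-! Z1 (RetAut.lean; uses everything; adapt REL/RelAut.lean) -/
theorem plen_automatic [Finite ι] (hAf : A.Finite) (hA : Subgroup.closure A = ⊤)
    (L : PLen P A) (ha : ∀ i, Automatic (P i)) : Automatic G := by
  obtain ⟨E, O, hO, hM, hreg⟩ := Z1_ld L ha
  exact ⟨Alp E, Z1_fin E, Ψ E, NFw E 1,
    structure_of_ftp (nfw_regular E O hO hreg) (Z1_onto E) (Z1_ftp hA E hM.ge)⟩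

end

end Pool.Agent.RET
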