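import Pool.Agent.RET.Defs
import Pool.Agent.SLA.Uni
import Pool.Agent.VH.ClassP
/-!
# Statements of the modules
-/
namespace Pool.Agent.RET
open Pool.Agent.SLX Pool.Agent.SLA Pool.Agent.REL

section
variable {G ι : Type} [Group G] {P : ι → Subgroup G} {A : Set G}

/-! S1 (Sync.lean; uses REL.exists_near, REL.exists_pen, REL.long_letter) -/
theorem exists_sync (L : PLen P A) (M : ℕ) : ∃ N : ℕ, SyncB L M N := by sorry

/-! S2 (Tsf.lean): test elements; `types` for `TstF` (adapt REL/Can.lean, REL/Types.lean) -/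
theorem exists_tstF [Finite ι] (L : PLen P A) (N : ℕ) : ∃ T, TstF L N T := by sorry
theorem minc_loc (L : PLen P A) {NE T T2 : ℕ} (hE : EntryB L NE) (hT : TstF L NE T)
    (h2 : T ≤ T2) {g g' : G} (h : Loc L T2 g g') (i : ι) (hc : Minc P A i g) :
    Minc P A i g' := by sorry
theorem typesF (L : PLen P A) {NE T T2 N : ℕ} (hE : EntryB L NE) (hT : TstF L NE T) (hTT : T ≤ T2)
    (h1 : 1 ≤ T2) (h2 : T2 ≤ N) (hN : NearB L T2 N) (g g' : G) (hg : Loc L N g g') :
    ∀ h : G, rl P A (g * h) = rl P A g + rl P A h →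
      rl P A (g' * h) = rl P A g' + rl P A h ∧ Loc L T2 (g * h) (g' * h) := by sorry

/-! N1 (Nf.lean): copy of REL/Can (minc_of_step, minc_step are in REL), REL/NfStep, REL/Nf with
`D.can i` instead of `Can P A D.ch i` -/
theorem step_pred (D : Nd P A) {h : G} (hne : h ≠ 1) : ∃! s, Step D (h * s⁻¹) s := by sorry
theorem vd_append (D : Nd P A) (g : G) (w w' : List G) :
    Vd D g (w ++ w') ↔ Vd D g w ∧ Vd D (g * w.prod) w' := by sorry
theorem vd_rl (D : Nd P A) {g : G} {w : List G} (h : Vd D g w) :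
    rl P A (g * w.prod) = rl P A g + w.length ∧ rl P A w.prod = w.length := by sorry
theorem nf_exists (D : Nd P A) (g : G) : ∃ w, Vd D 1 w ∧ w.prod = g := by sorry
theorem nf_unique (D : Nd P A) {w w' : List G} (h : Vd D 1 w) (h' : Vd D 1 w')
    (he : w.prod = w'.prod) : w = w' := by sorry

/-! N2 (Ftp.lean): copy of REL/Ftp with the new definitions -/
theorem nfw_ftp [Finite ι] (E : Ld P A) (h0 : G) (hl : E.D.L.l h0 ≤ E.M0) :
    ∃ F : Set G, F.Finite ∧ ∀ u ∈ NFw E 1, ∀ v ∈ NFw E 1, val (Ψ E) u * h0 = val (Ψ E) v →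
      ∀ t, (val (Ψ E) (u.take t))⁻¹ * val (Ψ E) (v.take t) ∈ F := by sorry

/-! O1 (Od.lean; uses N1): the order and the canonical points, by recursion on the level -/
theorem exists_od (L : PLen P A) (NE : ℕ) (hE : EntryB L NE) (N1 : ℕ) (hS : SyncB L NE N1)
    (B : ℕ) (hEB : NE ≤ B) (h0 : PenB L 0 B) (hB : PenB L N1 B) (hδ : 2 * L.δ ≤ B) (h1 : 1 ≤ B)
    (ord : G → ℕ) (ord_inj : ∀ s t, ord s = ord t → s = t) :
    ∃ O : Od P A, O.L = L ∧ O.NE = NE ∧ O.N1 = N1 ∧ O.B = B ∧ O.ord = ord := by sorry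

/-! Q1 (Comp.lean; uses N1): companions -/
theorem comp_inv (D : Nd P A) (N : ℕ) {x y : G} (h : Comp D N x y) : (x = 1 ∧ y = 1) ∨
    ∃ g h s t, x = g * s ∧ y = h * t ∧ Comp D N g h ∧ Step D g s ∧ Step D h t ∧
      D.L.l (x⁻¹ * y) ≤ N := by sorry
theorem comp_rl (D : Nd P A) (N : ℕ) {x y : G} (h : Comp D N x y) :
    rl P A x = rl P A y ∧ D.L.l (x⁻¹ * y) ≤ N := by sorry
/-- The entry points of a coset are companions of each other. -/
theorem comp_entry (O : Od P A) {i : ι} {g p : G} (hg : Minc P A i g) (hp : p ∈ P i)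
    (h : rl P A (g * p) = rl P A g) : Comp O.toNd O.N1 g (g * p) := by sorry
/-- The companions of the end of a long letter. -/
theorem comp_long (O : Od P A) {i : ι} {g s : G} (hs : s ∈ P i) (hl : O.B + 2 * O.N1 < O.L.l s)
    (hc : O.can i g) (c : G) :
    Comp O.toNd O.N1 (g * s) (g * s * c) ↔ c ∈ P i ∧ O.L.l c ≤ O.N1 := by sorry

/-! Q2 (CanSt.lean; uses Q1, S2): canonical points are determined by the state -/
theorem can_st (O : Od P A) {T T2 : ℕ} (hT : TstF O.L O.NE T) (h1 : O.NE ≤ T2) (h2 : T ≤ T2)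
    {g g' : G} (hL : Loc O.L T2 g g') (hst : St O g g') (i : ι) (hg : Minc P A i g) (c : G)
    (hc : c ∈ P i) (h : O.can i (g * c)) : O.can i (g' * c) := by sorry

/-! Q3 (StepSt.lean; uses N1, Q1, Q2): steps and states -/
theorem st_symm (O : Od P A) {g g' : G} (h : St O g g') : St O g' g := by sorry
theorem step_st (O : Od P A) {T T2 : ℕ} (hT : TstF O.L O.NE T) (h1 : O.NE ≤ T2) (h2 : T ≤ T2)
    (h3 : O.N1 + O.B ≤ T2) {g g' s : G} (hL : Loc O.L T2 g g')
    (hL' : Loc O.L T2 (g * s) (g' * s)) (hr : rl P A (g' * s) = rl P A g' + 1) (hst : St O g g')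
    (hs : Step O.toNd g s) : Step O.toNd g' s ∧ St O (g * s) (g' * s) := by sorry

/-! Q4 (VdSt.lean; uses N1, S2, Q3) -/
theorem vd_st (O : Od P A) {T T2 N : ℕ} (hT : TstF O.L O.NE T) (h1 : O.NE ≤ T2) (h2 : T ≤ T2)
    (h3 : O.N1 + O.B ≤ T2) (h4 : T2 ≤ N) (hN : NearB O.L T2 N) {g g' : G} (hL : Loc O.L N g g')
    (hst : St O g g') {w : List G} (hw : Vd O.toNd g w) : Vd O.toNd g' w := by sorry

/-! R1 (Reg.lean; uses S2, N1, Q1-Q4, REL.theta, REL.gp_regular) -/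
theorem nfw_regular [Finite ι] (E : Ld P A) (O : Od P A) (hO : O.toNd = E.D)
    (hreg : ∀ i, ∀ c ∈ P i, ∀ c' ∈ P i, Language.IsRegular {u : List (E.Bt i) | u ∈ E.Lg i ∧
      O.ord (val (E.ψ i) u * c) < O.ord (val (E.ψ i) u * c')}) : (NFw E 1).IsRegular := by sorry

end

/-! L1 (Num.lean): numbering of strings -/
theorem exists_num {B : Type} [Finite B] (r : B → ℕ) (hr : Function.Injective r) :
    ∃ num : List B → ℕ, Function.Injective num ∧ ∀ u v, num u < num v ↔ Sl r u v := by sorry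

/-! L2 (Cmp.lean): the comparison of the representatives of `u c` and `u c'` is regular -/
theorem cmp_regular {B G : Type} [Finite B] [Group G] (ψ : B → G) (Lg : Language B)
    (hreg : Lg.IsRegular)
    (ft : ∀ h : G, ∃ F : Set G, F.Finite ∧ ∀ u ∈ Lg, ∀ v ∈ Lg, val ψ u * h = val ψ v →
      ∀ t, (val ψ (u.take t))⁻¹ * val ψ (v.take t) ∈ F) (r : B → ℕ) (c c' : G) :
    Language.IsRegular {u | u ∈ Lg ∧ ∃ v ∈ Lg, ∃ v' ∈ Lg, val ψ u * c = val ψ v ∧
      val ψ u * c' = val ψ v' ∧ Sl r v v'} := by sorry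

section
variable {G ι : Type} [Group G] {P : ι → Subgroup G} {A : Set G}

/-! L3 (Ord.lean; uses L1, L2, REL.long_unique or the same argument from `β_sep`) -/
theorem exists_ord [Finite ι] (L : PLen P A) (Bt : ι → Type) (btfin : ∀ i, Finite (Bt i))
    (ψ : ∀ i, Bt i → G) (Lg : ∀ i, Language (Bt i)) (reg : ∀ i, (Lg i).IsRegular)
    (mem : ∀ i, ∀ u ∈ Lg i, val (ψ i) u ∈ P i)
    (onto : ∀ i, ∀ p ∈ P i, ∃ u ∈ Lg i, val (ψ i) u = p)
    (uniq : ∀ i, ∀ u ∈ Lg i, ∀ v ∈ Lg i, val (ψ i) u = val (ψ i) v → u = v)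
    (ft : ∀ (i : ι) (h : G), ∃ F : Set G, F.Finite ∧ ∀ u ∈ Lg i, ∀ v ∈ Lg i,
      val (ψ i) u * h = val (ψ i) v →
        ∀ t, (val (ψ i) (u.take t))⁻¹ * val (ψ i) (v.take t) ∈ F) :
    ∃ ord : G → ℕ, (∀ s t, ord s = ord t → s = t) ∧
      ∀ i, ∀ c ∈ P i, ∀ c' ∈ P i, Language.IsRegular {u : List (Bt i) | u ∈ Lg i ∧
        ord (val (ψ i) u * c) < ord (val (ψ i) u * c')} := by sorry

/-! Z1 (RetAut.lean; uses everything; adapt REL/RelAut.lean) -/
theorem plen_automatic [Finite ι] (hAf : A.Finite) (hA : Subgroup.closure A = ⊤)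
    (L : PLen P A) (ha : ∀ i, Automatic (P i)) : Automatic G := by sorry

/-! F1 (Fcl.lean; uses REL.exists_entry, REL.exists_pen, REL.minc_step, REL.fcl_malnormal) -/
/-- The elements of `P i` which are conjugate into `P i` by an element outside of `P i` are
conjugate in `P i` to short elements. -/
theorem fcl_short (L : PLen P A) : ∃ R : ℕ, ∀ (i : ι) (u w : G), w ∈ P i → u ∉ P i →
    u⁻¹ * w * u ∈ P i → ∃ a ∈ P i, L.l (a⁻¹ * w * a) ≤ R := by sorry
theorem fcl_periph (L : PLen P A) (h : VH.FCl G) (i : ι) : VH.FCl (P i) := by sorry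

/-! E1 (Proj.lean; uses REL.exists_entry, REL.claimB, REL.minc_step): the projection to `P i` -/
theorem exists_proj (L : PLen P A) (i : ι) (hinf : (P i : Set G).Infinite) :
    ∃ (r : G → G) (c : ℕ), (∀ x, r x ∈ P i) ∧ (∀ x ∈ P i, r x = x) ∧
      ∀ x, L.l (x⁻¹ * r x) ≤ L.β i x + c := by sorry

/-! E2 (Contr.lean; uses REL.chain_max): far from `P i` the projection moves slowly -/
theorem contract (L : PLen P A) (i : ι) (r : G → G) (c : ℕ) (h1 : ∀ x, r x ∈ P i)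
    (h2 : ∀ x, L.l (x⁻¹ * r x) ≤ L.β i x + c) (M : ℕ) :
    ∃ c0 : ℕ, ∀ K : ℕ, ∃ R : ℕ, ∀ (m : ℕ) (x : ℕ → G), m ≤ K →
      (∀ t, t < m → L.l ((x t)⁻¹ * x (t + 1)) ≤ M) →
      (∀ t, t ≤ m → R < L.l ((x t)⁻¹ * r (x t))) →
      L.l ((r (x 0))⁻¹ * r (x m)) ≤ c0 := by sorry

/-! E3 (PGret.lean; uses E1, E2): the peripheral subgroups of a coarse retract are coarse
retracts -/
theorem peri_gret {B Γ : Type} [Finite B] [Group Γ] {π : B → Γ} {j : G →* Γ} {ρ : Γ → G}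
    (hgen : ∀ g : Γ, ∃ w, val π w = g) (h : VH.GRet π j ρ) (L : PLen P A) (i : ι) :
    ∃ ρ' : G → P i, VH.GRet π (j.comp (P i).subtype) (fun x => ρ' (ρ x)) := by sorry

end

end Pool.Agent.RET
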